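import Pool.Agent.Zk25.LT.Fld

/-!
# Algebraic independence and counting
-/

set_option autoImplicit false

namespace Pool.Agent.Zk25.LT

open MvPolynomial

theorem trdeg_adjoin_le {k : Type} [Field k] [Algebra k ℂ] (S : Finset ℂ) :
    Algebra.trdeg k (IntermediateField.adjoin k (S : Set ℂ)) ≤ S.card := by
  classical
  obtain ⟨L, hL⟩ : ∃ L, L = IntermediateField.adjoin k (S : Set ℂ) := ⟨_, rfl⟩
  rw [← hL]
  obtain ⟨s, hs⟩ : ∃ s : Set L, ∀ x : L, x ∈ s ↔ (x : ℂ) ∈ S :=
    ⟨{x : L | (x : ℂ) ∈ S}, fun _ => Iff.rfl⟩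
  have hkey : ∀ z (hz : z ∈ IntermediateField.adjoin k (S : Set ℂ)),
      (⟨z, by rw [hL]; exact hz⟩ : L) ∈ IntermediateField.adjoin k s := by
    intro z hz
    induction hz using IntermediateField.adjoin_induction with
    | mem x hx => exact IntermediateField.subset_adjoin _ _ ((hs _).2 hx)
    | algebraMap q =>
      have h2 : (⟨algebraMap k ℂ q, by rw [hL]; exact (IntermediateField.adjoin k (S : Set ℂ)).algebraMap_mem q⟩ : L) =
        algebraMap k L q := rfl
      rw [h2]
      exact (IntermediateField.adjoin k s).algebraMap_mem q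
    | add x y hx hy ihx ihy => exact (IntermediateField.adjoin k s).add_mem ihx ihy
    | inv x hx ih => exact (IntermediateField.adjoin k s).inv_mem ih
    | mul x y hx hy ihx ihy => exact (IntermediateField.adjoin k s).mul_mem ihx ihy
  have h2 : IntermediateField.adjoin k s = ⊤ := by
    rw [eq_top_iff]
    rintro ⟨x, hx⟩ -
    exact hkey x (by rw [← hL]; exact hx)
  have h3 : Algebra.IsAlgebraic (Algebra.adjoin k s) L := by
    rw [← IntermediateField.isAlgebraic_adjoin_iff_top, h2]
    exact ⟨fun x => isAlgebraic_algebraMap (⟨x, trivial⟩ : (⊤ : IntermediateField k L))⟩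
  have h4 := Algebra.IsAlgebraic.trdeg_le_cardinalMk k s
  have h6 : Cardinal.mk s ≤ S.card := by
    have h7 : Function.Injective (fun x : s => (⟨(x : L), (hs _).1 x.2⟩ : S)) := by
      intro a b hab
      have h8 := congrArg Subtype.val hab
      exact Subtype.ext (Subtype.ext h8)
    have h8 := Cardinal.mk_le_of_injective h7
    rwa [Cardinal.mk_coe_finset] at h8
  exact h4.trans h6

/-- the field generated over `L` by finitely many numbers, as an extension of `ℚ` -/
noncomputable def ext (L : IntermediateField ℚ ℂ) (S : Finset ℂ) : IntermediateField ℚ ℂ :=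
  IntermediateField.adjoin ℚ ((L : Set ℂ) ∪ (S : Set ℂ))

theorem mem_ext_of {L : IntermediateField ℚ ℂ} {S : Finset ℂ} {z : ℂ}
    (hz : z ∈ IntermediateField.adjoin L (S : Set ℂ)) : z ∈ ext L S := by
  induction hz using IntermediateField.adjoin_induction with
  | mem x hx => exact IntermediateField.subset_adjoin _ _ (Or.inr hx)
  | algebraMap q => exact IntermediateField.subset_adjoin _ _ (Or.inl q.2)
  | add x y hx hy ihx ihy => exact (ext L S).add_mem ihx ihy
  | inv x hx ih => exact (ext L S).inv_mem ih
  | mul x y hx hy ihx ihy => exact (ext L S).mul_mem ihx ihy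

theorem mem_of_ext {L : IntermediateField ℚ ℂ} {S : Finset ℂ} {z : ℂ}
    (hz : z ∈ ext L S) : z ∈ IntermediateField.adjoin L (S : Set ℂ) := by
  induction hz using IntermediateField.adjoin_induction with
  | mem x hx =>
    rcases hx with hx | hx
    · exact (IntermediateField.adjoin L (S : Set ℂ)).algebraMap_mem ⟨x, hx⟩
    · exact IntermediateField.subset_adjoin _ _ hx
  | algebraMap q =>
    have h1 : (algebraMap ℚ ℂ q) = algebraMap L ℂ (algebraMap ℚ L q) := rfl
    rw [h1]
    exact (IntermediateField.adjoin L (S : Set ℂ)).algebraMap_mem _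
  | add x y hx hy ihx ihy => exact (IntermediateField.adjoin L (S : Set ℂ)).add_mem ihx ihy
  | inv x hx ih => exact (IntermediateField.adjoin L (S : Set ℂ)).inv_mem ih
  | mul x y hx hy ihx ihy => exact (IntermediateField.adjoin L (S : Set ℂ)).mul_mem ihx ihy

theorem trdeg_ext_le {L : IntermediateField ℚ ℂ} {s : ℕ} (hL : Algebra.trdeg ℚ L ≤ s)
    (S : Finset ℂ) : Algebra.trdeg ℚ (ext L S) ≤ ((s + S.card : ℕ) : Cardinal) := by
  have h1 : Algebra.trdeg L (IntermediateField.adjoin L (S : Set ℂ)) ≤ S.card := trdeg_adjoin_le S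
  have hf1 : FaithfulSMul L (IntermediateField.adjoin L (S : Set ℂ)) :=
    (faithfulSMul_iff_algebraMap_injective _ _).2 (algebraMap L
      (IntermediateField.adjoin L (S : Set ℂ))).injective
  have hf2 : FaithfulSMul ℚ L :=
    (faithfulSMul_iff_algebraMap_injective _ _).2 (algebraMap ℚ L).injective
  have h2 : Algebra.trdeg ℚ L + Algebra.trdeg L (IntermediateField.adjoin L (S : Set ℂ)) =
    Algebra.trdeg ℚ (IntermediateField.adjoin L (S : Set ℂ)) := trdeg_add_eq ℚ L
  have h3 : Algebra.trdeg ℚ (ext L S) ≤ Algebra.trdeg ℚ (IntermediateField.adjoin L (S : Set ℂ)) := by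
    obtain ⟨f, hf⟩ : ∃ f : ext L S →+* IntermediateField.adjoin L (S : Set ℂ),
        ∀ z, ((f z : IntermediateField.adjoin L (S : Set ℂ)) : ℂ) = z := by
      refine ⟨{ toFun := fun z => ⟨z, mem_of_ext z.2⟩, map_one' := rfl, map_mul' := fun _ _ => rfl,
                map_zero' := rfl, map_add' := fun _ _ => rfl }, fun z => rfl⟩
    obtain ⟨g, hg⟩ : ∃ g : ext L S →ₐ[ℚ] IntermediateField.adjoin L (S : Set ℂ), ∀ z, g z = f z :=
      ⟨f.toRatAlgHom, fun z => rfl⟩
    refine trdeg_le_of_injective g ?_
    intro a b hab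
    rw [hg, hg] at hab
    exact Subtype.ext (by rw [← hf a, ← hf b, hab])
  refine h3.trans ?_
  rw [← h2, Nat.cast_add]
  exact add_le_add hL h1

theorem isAlg_of_subset' {A B : Type*} [CommRing A] [Field B] [Algebra A ℂ] [Algebra B ℂ]
    (hA : Function.Injective (algebraMap A ℂ))
    (h : ∀ a : A, ∃ b : B, algebraMap B ℂ b = algebraMap A ℂ a) {g : ℂ} (hg : IsAlgebraic A g) :
    IsAlgebraic B g := by
  obtain ⟨p, hp0, hp⟩ := hg
  have h1 : p.map (algebraMap A ℂ) ∈ Polynomial.lifts (algebraMap B ℂ) := by
    rw [Polynomial.lifts_iff_coeff_lifts]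
    intro n
    rw [Polynomial.coeff_map]
    obtain ⟨b, hb⟩ := h (p.coeff n)
    exact ⟨b, hb⟩
  rw [Polynomial.mem_lifts] at h1
  obtain ⟨q, hq⟩ := h1
  refine ⟨q, ?_, ?_⟩
  · rintro rfl
    rw [Polynomial.map_zero] at hq
    exact hp0 ((Polynomial.map_eq_zero_iff hA).1 hq.symm)
  · rw [Polynomial.aeval_def, ← Polynomial.eval_map, hq, Polynomial.eval_map, ← Polynomial.aeval_def]
    exact hp

/-- a dependent family has a member which is algebraic over the others -/
theorem exists_dependent (L : IntermediateField ℚ ℂ) {n : ℕ} (x : Fin n → ℂ)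
    (hx : ¬ AlgebraicIndependent L x) :
    ∃ i, IsAlgebraic (ext L ((Finset.univ.erase i).image x)) (x i) := by
  classical
  by_contra hcon
  push Not at hcon
  apply hx
  refine algebraicIndependent_of_finite_type' (algebraMap L ℂ).injective ?_
  intro t _ _ i hi halg
  apply hcon i
  refine isAlg_of_subset' (A := Algebra.adjoin L (x '' t)) Subtype.val_injective ?_ halg
  intro a
  have h1 : Algebra.adjoin L (x '' t) ≤ (IntermediateField.adjoin L
      ((((Finset.univ.erase i).image x : Finset ℂ)) : Set ℂ)).toSubalgebra := by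
    refine Algebra.adjoin_le ?_
    rintro _ ⟨j, hj, rfl⟩
    refine IntermediateField.subset_adjoin _ _ ?_
    rw [Finset.coe_image]
    refine ⟨j, ?_, rfl⟩
    rw [Finset.coe_erase]
    exact ⟨Finset.mem_coe.2 (Finset.mem_univ j), fun h => hi (by
      rw [Set.mem_singleton_iff] at h
      rwa [← h])⟩
  exact ⟨⟨(a : ℂ), mem_ext_of (h1 a.2)⟩, rfl⟩

open Classical in
/-- **counting dependent tuples** -/
theorem count_tuples {α : Type*} (L : IntermediateField ℚ ℂ) {s : ℕ} (hL : Algebra.trdeg ℚ L ≤ s)
    (n W B : ℕ) (A : Fin n → Finset α) (hA : ∀ i, (A i).card ≤ W) (g : Fin n → α → ℂ)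
    (hB : ∀ (i : Fin n) (K : IntermediateField ℚ ℂ),
      Algebra.trdeg ℚ K ≤ ((s + (n - 1) : ℕ) : Cardinal) →
      ((A i).filter fun a => IsAlgebraic K (g i a)).card ≤ B) :
    ((Fintype.piFinset A).filter fun k => ¬ AlgebraicIndependent L (fun i => g i (k i))).card ≤
      n * (B * W ^ (n - 1)) := by
  rcases n with _ | m
  · rw [Nat.zero_mul, Nat.le_zero, Finset.card_eq_zero, Finset.filter_eq_empty_iff]
    intro k _ hk
    exact hk (algebraicIndependent_empty_type_iff.2 (algebraMap L ℂ).injective)
  · obtain ⟨Bad, hBad⟩ : ∃ Bad : Fin (m + 1) → Finset (Fin (m + 1) → α), Bad = fun i =>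
        (Fintype.piFinset A).filter fun k => IsAlgebraic (ext L
          ((Finset.univ.erase i).image (fun i => g i (k i)))) (g i (k i)) :=
      ⟨_, rfl⟩
    have h1 : ((Fintype.piFinset A).filter fun k => ¬ AlgebraicIndependent L (fun i => g i (k i))) ⊆
        Finset.univ.biUnion Bad := by
      intro k hk
      rw [Finset.mem_filter] at hk
      obtain ⟨i, hi⟩ := exists_dependent L _ hk.2
      rw [Finset.mem_biUnion]
      refine ⟨i, Finset.mem_univ _, ?_⟩
      rw [hBad]
      exact Finset.mem_filter.2 ⟨hk.1, hi⟩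
    have h2 : ∀ i, (Bad i).card ≤ B * W ^ m := by
      intro i
      obtain ⟨π, hπ⟩ : ∃ π : (Fin (m + 1) → α) → (Fin m → α), π = fun k => i.removeNth k := ⟨_, rfl⟩
      have h3 := Finset.card_le_mul_card_image (f := π) (Bad i) B (by
        intro u hu
        obtain ⟨k₀, hk₀, rfl⟩ := Finset.mem_image.1 hu
        obtain ⟨K, hK⟩ : ∃ K : IntermediateField ℚ ℂ, K = ext L
          ((Finset.univ.erase i).image (fun i => g i (k₀ i))) := ⟨_, rfl⟩
        have hKt : Algebra.trdeg ℚ K ≤ ((s + (m + 1 - 1) : ℕ) : Cardinal) := by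
          rw [hK]
          refine (trdeg_ext_le hL _).trans ?_
          have h4 : ((Finset.univ.erase i).image (fun i => g i (k₀ i))).card ≤ m + 1 - 1 := by
            refine Finset.card_image_le.trans ?_
            rw [Finset.card_erase_of_mem (Finset.mem_univ i), Finset.card_univ, Fintype.card_fin]
          have h5 : s + ((Finset.univ.erase i).image (fun i => g i (k₀ i))).card ≤ s + (m + 1 - 1) :=
            Nat.add_le_add_left h4 s
          exact_mod_cast h5
        refine le_trans ?_ (hB i K hKt)
        refine Finset.card_le_card_of_injOn (fun k => k i) ?_ ?_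
        · intro k hk
          have hk' := Finset.mem_filter.1 (Finset.mem_coe.1 hk)
          have hkB := hk'.1
          rw [hBad] at hkB
          have hkB' := Finset.mem_filter.1 hkB
          have hj : ∀ j, j ≠ i → k j = k₀ j := by
            intro j hji
            obtain ⟨l, rfl⟩ := Fin.exists_succAbove_eq hji
            have h5 := congrFun hk'.2 l
            rw [hπ] at h5
            exact h5
          have h6 : (Finset.univ.erase i).image (fun i => g i (k i)) =
              (Finset.univ.erase i).image (fun i => g i (k₀ i)) := by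
            refine Finset.image_congr ?_
            intro j hj'
            have : j ≠ i := by
              have := Finset.mem_coe.1 hj'
              exact Finset.ne_of_mem_erase this
            show g j (k j) = g j (k₀ j)
            rw [hj j this]
          have h7 := hkB'.2
          rw [h6, ← hK] at h7
          exact Finset.mem_coe.2 (Finset.mem_filter.2 ⟨Fintype.mem_piFinset.1 hkB'.1 i, h7⟩)
        · intro k hk k' hk' hkk
          have e1 := (Finset.mem_filter.1 (Finset.mem_coe.1 hk)).2
          have e2 := (Finset.mem_filter.1 (Finset.mem_coe.1 hk')).2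
          funext j
          by_cases hji : j = i
          · rw [hji]; exact hkk
          · obtain ⟨l, rfl⟩ := Fin.exists_succAbove_eq hji
            have h5 := congrFun (e1.trans e2.symm) l
            rw [hπ] at h5
            exact h5)
      refine h3.trans (Nat.mul_le_mul_left _ ?_)
      have h4 : (Bad i).image π ⊆ Fintype.piFinset (fun l => A (i.succAbove l)) := by
        intro u hu
        obtain ⟨k, hk, rfl⟩ := Finset.mem_image.1 hu
        rw [hBad] at hk
        have hk' := Fintype.mem_piFinset.1 (Finset.mem_filter.1 hk).1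
        rw [Fintype.mem_piFinset]
        intro l
        rw [hπ]
        exact hk' _
      refine (Finset.card_le_card h4).trans ?_
      rw [Fintype.card_piFinset]
      calc ∏ l, (A (i.succAbove l)).card ≤ ∏ _l : Fin m, W := Finset.prod_le_prod' fun l _ => hA _
        _ = W ^ m := by rw [Finset.prod_const, Finset.card_univ, Fintype.card_fin]
    refine (Finset.card_le_card h1).trans (Finset.card_biUnion_le.trans ?_)
    refine (Finset.sum_le_sum fun i _ => h2 i).trans ?_
    rw [Finset.sum_const, Finset.card_univ, Fintype.card_fin, smul_eq_mul]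
    exact le_rfl

end Pool.Agent.Zk25.LT
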