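import Pool.Agent.H297R2.Schwarz

/-!
# Interpolation of entire functions, and recovery of the coefficients of exponential sums
-/

set_option autoImplicit false

namespace Pool.Agent.Zk25.LT

/-- Lagrange interpolation -/
noncomputable def lag (Z : Finset ℂ) (F : ℂ → ℂ) (z : ℂ) : ℂ :=
  ∑ c ∈ Z, F c * ∏ d ∈ Z.erase c, (z - d) * (c - d)⁻¹

theorem lag_differentiable (Z : Finset ℂ) (F : ℂ → ℂ) : Differentiable ℂ (lag Z F) := by
  unfold lag
  fun_prop

theorem lag_eval (Z : Finset ℂ) (F : ℂ → ℂ) {c : ℂ} (hc : c ∈ Z) : lag Z F c = F c := by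
  classical
  unfold lag
  rw [Finset.sum_eq_single c]
  · have h1 : ∏ d ∈ Z.erase c, (c - d) * (c - d)⁻¹ = 1 := by
      refine Finset.prod_eq_one fun d hd => ?_
      have : c - d ≠ 0 := sub_ne_zero.2 (Finset.ne_of_mem_erase hd).symm
      exact mul_inv_cancel₀ this
    rw [h1, mul_one]
  · intro b hb hbc
    have h1 : ∏ d ∈ Z.erase b, (c - d) * (b - d)⁻¹ = 0 :=
      Finset.prod_eq_zero (Finset.mem_erase.2 ⟨hbc.symm, hc⟩) (by rw [sub_self, zero_mul])
    rw [h1, mul_zero]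
  · exact fun h => absurd hc h

theorem lag_bound (Z : Finset ℂ) (F : ℂ → ℂ) {ε G : ℝ} (hG : 1 ≤ G) {z : ℂ}
    (hε : ∀ c ∈ Z, ‖F c‖ ≤ ε) (h : ∀ c ∈ Z, ∀ d ∈ Z, c ≠ d → ‖z - d‖ * ‖c - d‖⁻¹ ≤ G) :
    ‖lag Z F z‖ ≤ Z.card * (ε * G ^ Z.card) := by
  classical
  unfold lag
  refine (norm_sum_le _ _).trans ?_
  have h1 : ∀ c ∈ Z, ‖F c * ∏ d ∈ Z.erase c, (z - d) * (c - d)⁻¹‖ ≤ ε * G ^ Z.card := by
    intro c hc
    rw [norm_mul]
    have h2 : ‖∏ d ∈ Z.erase c, (z - d) * (c - d)⁻¹‖ ≤ G ^ Z.card := by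
      rw [norm_prod]
      have h3 : ∏ d ∈ Z.erase c, ‖(z - d) * (c - d)⁻¹‖ ≤ ∏ _d ∈ Z.erase c, G := by
        refine Finset.prod_le_prod (fun _ _ => norm_nonneg _) fun d hd => ?_
        rw [norm_mul, norm_inv]
        exact h c hc d (Finset.mem_of_mem_erase hd) (Finset.ne_of_mem_erase hd).symm
      refine h3.trans ?_
      rw [Finset.prod_const]
      exact pow_le_pow_right₀ hG (Finset.card_le_card (Finset.erase_subset _ _))
    exact mul_le_mul (hε c hc) h2 (norm_nonneg _) ((norm_nonneg _).trans (hε c hc))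
  refine (Finset.sum_le_card_nsmul _ _ _ h1).trans (le_of_eq ?_)
  rw [nsmul_eq_mul]

/-- an entire function with small values at many points is small -/
theorem interp (F : ℂ → ℂ) (hF : Differentiable ℂ F) (Z : Finset ℂ) {ε G ρ R M : ℝ} (hG : 1 ≤ G)
    (hρ : 0 ≤ ρ) (hR : 5 * ρ + 4 ≤ R) (hZ : ∀ c ∈ Z, ‖c‖ ≤ ρ) (hε : ∀ c ∈ Z, ‖F c‖ ≤ ε) (hε0 : 0 ≤ ε)
    (hsep : ∀ c ∈ Z, ∀ d ∈ Z, c ≠ d → (R + ρ) * ‖c - d‖⁻¹ ≤ G)
    (hM : ∀ z : ℂ, ‖z‖ = R → ‖F z‖ ≤ M) {w : ℂ} (hw : ‖w‖ ≤ 1) :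
    ‖F w‖ ≤ 2 * (Z.card * (ε * G ^ Z.card)) + M * (1 / 4 : ℝ) ^ Z.card := by
  classical
  have hR0 : 0 < R := by linarith
  have hlag : ∀ z : ℂ, ‖z‖ ≤ R → ‖lag Z F z‖ ≤ Z.card * (ε * G ^ Z.card) := by
    intro z hz
    refine lag_bound Z F hG hε fun c hc d hd hcd => le_trans ?_ (hsep c hc d hd hcd)
    refine mul_le_mul_of_nonneg_right ?_ (inv_nonneg.2 (norm_nonneg _))
    exact (norm_sub_le _ _).trans (add_le_add hz (hZ d hd))
  have h1 := Pool.Agent.H297R2.schwarz (fun z => F z - lag Z F z) (hF.sub (lag_differentiable Z F)) 1 Z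
    (by
      intro c hc j hj
      have hj0 : j = 0 := by omega
      rw [hj0, iteratedDeriv_zero, lag_eval Z F hc, sub_self])
    ρ R (M + Z.card * (ε * G ^ Z.card)) (ρ + 1) (by linarith) hR0.le hZ w (by linarith)
    (fun c hc => by
      refine (norm_sub_le _ _).trans ?_
      have := hZ c hc
      linarith)
    (fun z hz => (norm_sub_le _ _).trans (add_le_add (hM z hz) (hlag z hz.le)))
  rw [one_mul] at h1
  have h2 : 4 * (ρ + 1) ≤ R - ρ := by linarith
  have h3 : (4 * (ρ + 1)) ^ Z.card ≤ (R - ρ) ^ Z.card := pow_le_pow_left₀ (by linarith) h2 _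
  have h4 : ‖F w - lag Z F w‖ * (4 * (ρ + 1)) ^ Z.card ≤
      (M + Z.card * (ε * G ^ Z.card)) * (ρ + 1) ^ Z.card :=
    (mul_le_mul_of_nonneg_left h3 (norm_nonneg _)).trans h1
  have h5 : 0 < (ρ + 1) ^ Z.card := pow_pos (by linarith) _
  have h6 : ‖F w - lag Z F w‖ * 4 ^ Z.card ≤ M + Z.card * (ε * G ^ Z.card) := by
    rw [mul_pow, ← mul_assoc] at h4
    exact le_of_mul_le_mul_right h4 h5
  have h7 : ‖F w - lag Z F w‖ ≤ (M + Z.card * (ε * G ^ Z.card)) * (1 / 4 : ℝ) ^ Z.card := by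
    rw [one_div, inv_pow, ← div_eq_mul_inv, le_div_iff₀ (by positivity)]
    exact h6
  have h8 : ‖F w‖ ≤ ‖F w - lag Z F w‖ + ‖lag Z F w‖ := by
    have e : F w = (F w - lag Z F w) + lag Z F w := by ring
    calc ‖F w‖ = ‖(F w - lag Z F w) + lag Z F w‖ := by rw [← e]
      _ ≤ _ := norm_add_le _ _
  have h9 := hlag w (by linarith)
  have h10 : (1 / 4 : ℝ) ^ Z.card ≤ 1 := pow_le_one₀ (by norm_num) (by norm_num)
  have h11 : 0 ≤ (Z.card : ℝ) * (ε * G ^ Z.card) := by positivity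
  have h12 : (Z.card : ℝ) * (ε * G ^ Z.card) * (1 / 4 : ℝ) ^ Z.card ≤ Z.card * (ε * G ^ Z.card) :=
    mul_le_of_le_one_right h11 h10
  nlinarith

theorem iteratedDeriv_expSum {Λ : Type*} [Fintype Λ] (p w : Λ → ℂ) (k : ℕ) :
    iteratedDeriv k (fun z : ℂ => ∑ l, p l * Complex.exp (w l * z)) =
      fun z : ℂ => ∑ l, (p l * w l ^ k) * Complex.exp (w l * z) := by
  induction k with
  | zero => rw [iteratedDeriv_zero]; simp
  | succ k ih =>
    rw [iteratedDeriv_succ, ih]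
    funext z
    have h1 : ∀ l ∈ (Finset.univ : Finset Λ),
        HasDerivAt (fun z : ℂ => (p l * w l ^ k) * Complex.exp (w l * z))
          ((p l * w l ^ (k + 1)) * Complex.exp (w l * z)) z := by
      intro l _
      have h2 : HasDerivAt (fun z : ℂ => w l * z) (w l) z := by
        simpa using (hasDerivAt_id z).const_mul (w l)
      have h3 := (h2.cexp).const_mul (p l * w l ^ k)
      refine h3.congr_deriv ?_
      ring
    have h4 := HasDerivAt.fun_sum h1
    exact h4.deriv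

/-- the coefficients are small if the exponential sum is small on the unit disc -/
theorem extract {Λ : Type*} [Fintype Λ] [DecidableEq Λ] (p w : Λ → ℂ) {ε W δ : ℝ} (hW : 0 ≤ W)
    (hw : ∀ l, ‖w l‖ ≤ W) (hδ0 : 0 ≤ δ) (hδ : ∀ l m, l ≠ m → δ ≤ ‖w l - w m‖)
    (hF : ∀ z : ℂ, ‖z‖ ≤ 1 → ‖∑ l, p l * Complex.exp (w l * z)‖ ≤ ε) (l : Λ) :
    ‖p l‖ * δ ^ (Fintype.card Λ - 1) ≤
      ((Fintype.card Λ).factorial * ε) * (1 + W) ^ (Fintype.card Λ - 1) := by
  classical
  have hε0 : 0 ≤ ε := (norm_nonneg _).trans (hF 0 (by simp))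
  have hdiff : Differentiable ℂ (fun z : ℂ => ∑ l, p l * Complex.exp (w l * z)) := by fun_prop
  have hmom : ∀ j ≤ Fintype.card Λ, ‖∑ l, p l * w l ^ j‖ ≤ (Fintype.card Λ).factorial * ε := by
    intro j hj
    have h1 := Complex.norm_iteratedDeriv_le_of_forall_mem_sphere_norm_le j (c := (0 : ℂ)) (R := 1)
      (C := ε) (F := ℂ) (f := fun z : ℂ => ∑ l, p l * Complex.exp (w l * z)) one_pos
      hdiff.diffContOnCl (fun z hz => hF z (by
        rw [mem_sphere_zero_iff_norm] at hz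
        exact hz.le))
    rw [iteratedDeriv_expSum] at h1
    simp only [mul_zero, Complex.exp_zero, mul_one, one_pow, div_one] at h1
    refine h1.trans ?_
    refine mul_le_mul_of_nonneg_right ?_ hε0
    exact_mod_cast Nat.factorial_le hj
  have key : ∀ (S : Finset Λ) (j : ℕ), j + S.card ≤ Fintype.card Λ →
      ‖∑ m, p m * (w m ^ j * ∏ ν ∈ S, (w m - w ν))‖ ≤
        ((Fintype.card Λ).factorial * ε) * (1 + W) ^ S.card := by
    intro S
    induction S using Finset.induction_on with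
    | empty =>
      intro j hj
      simp only [Finset.prod_empty, mul_one, Finset.card_empty, pow_zero]
      exact hmom j (by simpa using hj)
    | insert a S ha ih =>
      intro j hj
      rw [Finset.card_insert_of_notMem ha] at hj ⊢
      have e : ∑ m, p m * (w m ^ j * ∏ ν ∈ insert a S, (w m - w ν)) =
          ∑ m, p m * (w m ^ (j + 1) * ∏ ν ∈ S, (w m - w ν)) -
            w a * ∑ m, p m * (w m ^ j * ∏ ν ∈ S, (w m - w ν)) := by
        rw [Finset.mul_sum, ← Finset.sum_sub_distrib]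
        refine Finset.sum_congr rfl fun m _ => ?_
        rw [Finset.prod_insert ha]
        ring
      rw [e]
      refine (norm_sub_le _ _).trans ?_
      rw [norm_mul]
      have h1 := ih (j + 1) (by omega)
      have h2 := ih j (by omega)
      have h3 := mul_le_mul (hw a) h2 (norm_nonneg _) hW
      refine (add_le_add h1 h3).trans (le_of_eq ?_)
      rw [pow_succ]
      ring
  have h1 := key (Finset.univ.erase l) 0 (by
    rw [Finset.card_erase_of_mem (Finset.mem_univ l), Finset.card_univ]; omega)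
  have h2 : ∑ m, p m * (w m ^ 0 * ∏ ν ∈ Finset.univ.erase l, (w m - w ν)) =
      p l * ∏ ν ∈ Finset.univ.erase l, (w l - w ν) := by
    rw [Finset.sum_eq_single l]
    · rw [pow_zero, one_mul]
    · intro b _ hbl
      have : ∏ ν ∈ Finset.univ.erase l, (w b - w ν) = 0 :=
        Finset.prod_eq_zero (Finset.mem_erase.2 ⟨hbl, Finset.mem_univ b⟩) (sub_self _)
      rw [this, mul_zero, mul_zero]
    · exact fun h => absurd (Finset.mem_univ l) h
  rw [h2, norm_mul, norm_prod, Finset.card_erase_of_mem (Finset.mem_univ l), Finset.card_univ] at h1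
  refine le_trans ?_ h1
  refine mul_le_mul_of_nonneg_left ?_ (norm_nonneg _)
  have h3 : ∏ _ν ∈ Finset.univ.erase l, δ ≤ ∏ ν ∈ Finset.univ.erase l, ‖w l - w ν‖ :=
    Finset.prod_le_prod (fun _ _ => hδ0) fun ν hν => hδ l ν (Finset.ne_of_mem_erase hν).symm
  rwa [Finset.prod_const, Finset.card_erase_of_mem (Finset.mem_univ l), Finset.card_univ] at h3

end Pool.Agent.Zk25.LT
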