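import Mathlib

/-!
# The pigeonhole principle, and exponential sums which are small on a disc
-/

set_option autoImplicit false

namespace Pool.Agent.Zk25.LT

theorem pigeon {ι κ : Type*} [Fintype ι] [Fintype κ] (a : κ → ι → ℝ) (S B N : ℕ) (hN : 1 ≤ N)
    (hS : ∀ (k : κ) (p : ι → ℕ), (∀ i, p i ≤ B) → |∑ i, a k i * (p i : ℝ)| ≤ S)
    (hcard : (2 * S * N + 1) ^ Fintype.card κ < (B + 1) ^ Fintype.card ι) :
    ∃ p : ι → ℤ, p ≠ 0 ∧ (∀ i, |p i| ≤ B) ∧ ∀ k, |∑ i, a k i * (p i : ℝ)| * N ≤ 1 := by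
  classical
  have hN' : (0 : ℝ) < N := by exact_mod_cast hN
  obtain ⟨v, hv⟩ : ∃ v : (ι → Fin (B + 1)) → κ → ℝ, v = fun p k =>
    (∑ i, a k i * (((p i : ℕ) : ℝ)) + S) * N := ⟨_, rfl⟩
  have hv0 : ∀ p k, 0 ≤ v p k ∧ v p k ≤ ((2 * S * N : ℕ) : ℝ) := by
    intro p k
    have h1 := abs_le.1 (hS k (fun i => (p i : ℕ)) (fun i => Nat.lt_succ_iff.1 (p i).2))
    rw [hv]
    constructor
    · exact mul_nonneg (by linarith [h1.1]) hN'.le
    · push_cast
      exact mul_le_mul_of_nonneg_right (by linarith [h1.2]) hN'.le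
  obtain ⟨f, hf⟩ : ∃ f : (ι → Fin (B + 1)) → (κ → Fin (2 * S * N + 1)), ∀ p k,
      ((f p k : ℕ)) = ⌊v p k⌋₊ := ⟨fun p k => ⟨⌊v p k⌋₊, Nat.lt_succ_of_le (by
        have h1 := Nat.floor_le_floor (hv0 p k).2
        rwa [Nat.floor_natCast] at h1)⟩, fun p k => rfl⟩
  obtain ⟨p, q, hpq, hfe⟩ := Fintype.exists_ne_map_eq_of_card_lt f (by
    rw [Fintype.card_fun, Fintype.card_fun, Fintype.card_fin, Fintype.card_fin]
    exact hcard)
  refine ⟨fun i => ((p i : ℕ) : ℤ) - ((q i : ℕ) : ℤ), ?_, ?_, ?_⟩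
  · intro h
    apply hpq
    funext i
    have h1 := congrFun h i
    simp only [Pi.zero_apply] at h1
    exact Fin.ext (by omega)
  · intro i
    have h1 := (p i).2
    have h2 := (q i).2
    show |((p i : ℕ) : ℤ) - ((q i : ℕ) : ℤ)| ≤ B
    rw [abs_le]
    constructor <;> omega
  · intro k
    have h1 : ⌊v p k⌋₊ = ⌊v q k⌋₊ := by rw [← hf, ← hf, hfe]
    have h2 : |v p k - v q k| ≤ 1 := by
      have e1 := Nat.floor_le (hv0 p k).1
      have e2 := Nat.lt_floor_add_one (v p k)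
      have e3 := Nat.floor_le (hv0 q k).1
      have e4 := Nat.lt_floor_add_one (v q k)
      rw [h1] at e1 e2
      rw [abs_le]
      constructor <;> linarith
    have h3 : v p k - v q k = (∑ i, a k i * (((((p i : ℕ) : ℤ) - ((q i : ℕ) : ℤ)) : ℤ) : ℝ)) * N := by
      rw [hv]
      have e : ∑ i, a k i * (((((p i : ℕ) : ℤ) - ((q i : ℕ) : ℤ)) : ℤ) : ℝ) =
          ∑ i, a k i * ((p i : ℕ) : ℝ) - ∑ i, a k i * ((q i : ℕ) : ℝ) := by
        rw [← Finset.sum_sub_distrib]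
        refine Finset.sum_congr rfl fun i _ => ?_
        push_cast
        ring
      rw [e]
      ring
    rw [h3, abs_mul, abs_of_pos hN'] at h2
    exact h2

/-- complex forms -/
theorem pigeonC {ι κ : Type*} [Fintype ι] [Fintype κ] (a : κ → ι → ℂ) (S B N : ℕ) (hN : 1 ≤ N)
    (hS : ∀ (k : κ) (p : ι → ℕ), (∀ i, p i ≤ B) → ‖∑ i, a k i * (p i : ℂ)‖ ≤ S)
    (hcard : (2 * S * N + 1) ^ (2 * Fintype.card κ) < (B + 1) ^ Fintype.card ι) :
    ∃ p : ι → ℤ, p ≠ 0 ∧ (∀ i, |p i| ≤ B) ∧ ∀ k, ‖∑ i, a k i * (p i : ℂ)‖ * N ≤ 2 := by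
  classical
  have hN' : (0 : ℝ) < N := by exact_mod_cast hN
  have hre : ∀ (k : κ) (p : ι → ℤ), (∑ i, a k i * (p i : ℂ)).re = ∑ i, (a k i).re * (p i : ℝ) := by
    intro k p
    rw [Complex.re_sum]
    refine Finset.sum_congr rfl fun i _ => ?_
    simp
  have him : ∀ (k : κ) (p : ι → ℤ), (∑ i, a k i * (p i : ℂ)).im = ∑ i, (a k i).im * (p i : ℝ) := by
    intro k p
    rw [Complex.im_sum]
    refine Finset.sum_congr rfl fun i _ => ?_
    simp
  obtain ⟨p, h1, h2, h3⟩ := pigeon (κ := κ ⊕ κ) (fun k i => Sum.elim (fun k => (a k i).re)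
    (fun k => (a k i).im) k) S B N hN (by
      intro k p hp
      have e : ∀ k, ‖∑ i, a k i * (((p i : ℤ)) : ℂ)‖ ≤ S := fun k => by
        have := hS k p hp
        simpa using this
      rcases k with k | k
      · simp only [Sum.elim_inl]
        have h1 := hre k (fun i => (p i : ℤ))
        have h2 := Complex.abs_re_le_norm (∑ i, a k i * (((p i : ℤ)) : ℂ))
        rw [h1] at h2
        refine le_trans (le_of_eq ?_) (h2.trans (e k))
        simp
      · simp only [Sum.elim_inr]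
        have h1 := him k (fun i => (p i : ℤ))
        have h2 := Complex.abs_im_le_norm (∑ i, a k i * (((p i : ℤ)) : ℂ))
        rw [h1] at h2
        refine le_trans (le_of_eq ?_) (h2.trans (e k))
        simp) (by
      rw [Fintype.card_sum, ← two_mul]
      exact hcard)
  refine ⟨p, h1, h2, fun k => ?_⟩
  have e1 := h3 (Sum.inl k)
  have e2 := h3 (Sum.inr k)
  simp only [Sum.elim_inl, Sum.elim_inr] at e1 e2
  rw [← hre] at e1
  rw [← him] at e2
  have e3 := Complex.norm_le_abs_re_add_abs_im (∑ i, a k i * (p i : ℂ))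
  have e4 := mul_le_mul_of_nonneg_right e3 hN'.le
  linarith

theorem pow_div_fact_le (v : ℝ) (hv : 0 ≤ v) (k : ℕ) : v ^ k / (k.factorial : ℝ) ≤ 3 ^ ⌈v⌉₊ := by
  have h1 : v ^ k / (k.factorial : ℝ) ≤ Real.exp v := Real.pow_div_factorial_le_exp v hv k
  refine h1.trans ?_
  have h2 : Real.exp v ≤ Real.exp (⌈v⌉₊ : ℝ) := Real.exp_le_exp.2 (Nat.le_ceil v)
  refine h2.trans ?_
  have h3 : Real.exp (⌈v⌉₊ : ℝ) = Real.exp 1 ^ ⌈v⌉₊ := by
    rw [← Real.exp_nat_mul, mul_one]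
  rw [h3]
  exact pow_le_pow_left₀ (Real.exp_pos 1).le (by
    have := Real.exp_one_lt_d9
    linarith) _

theorem exp_nat_le (v : ℕ) : Real.exp (v : ℝ) ≤ 3 ^ v := by
  have h3 : Real.exp (v : ℝ) = Real.exp 1 ^ v := by
    rw [← Real.exp_nat_mul, mul_one]
  rw [h3]
  exact pow_le_pow_left₀ (Real.exp_pos 1).le (by
    have := Real.exp_one_lt_d9
    linarith) _

/-- the tail of the exponential series -/
theorem exp_tail (x : ℂ) (K v : ℕ) (hx : ‖x‖ ≤ v) (hK : 6 * v ≤ K) :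
    ‖Complex.exp x - ∑ k ∈ Finset.range K, x ^ k / (k.factorial : ℂ)‖ ≤ 2 * (1 / 2 : ℝ) ^ K := by
  have hxK : 6 * ‖x‖ ≤ K := by
    have h1 : ((6 * v : ℕ) : ℝ) ≤ K := by exact_mod_cast hK
    push_cast at h1
    linarith
  have h0 := norm_nonneg x
  have h1 : ‖x‖ / (K.succ : ℝ) ≤ 1 / 2 := by
    rw [div_le_div_iff₀ (by positivity) (by norm_num)]
    push_cast
    linarith
  refine (Complex.exp_bound' h1).trans ?_
  have h2 : ‖x‖ ^ K / (K.factorial : ℝ) ≤ (1 / 2 : ℝ) ^ K := by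
    rcases Nat.eq_zero_or_pos K with hK0 | hK0
    · rw [hK0]; simp
    have hK' : (0 : ℝ) < K := by exact_mod_cast hK0
    have h3 : (K : ℝ) ^ K / (K.factorial : ℝ) ≤ 3 ^ K :=
      (Real.pow_div_factorial_le_exp (K : ℝ) hK'.le K).trans (exp_nat_le K)
    have h4 : (0 : ℝ) < K.factorial := by exact_mod_cast Nat.factorial_pos K
    rw [div_le_iff₀ h4] at h3 ⊢
    have h5 : ‖x‖ ^ K ≤ ((K : ℝ) / 6) ^ K := pow_le_pow_left₀ h0 (by linarith) _
    refine h5.trans ?_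
    rw [div_pow]
    have h6 : (6 : ℝ) ^ K = 3 ^ K * 2 ^ K := by rw [← mul_pow]; norm_num
    rw [h6, div_le_iff₀ (by positivity), one_div, inv_pow]
    calc (K : ℝ) ^ K ≤ 3 ^ K * (K.factorial : ℝ) := h3
      _ = (2 ^ K)⁻¹ * (K.factorial : ℝ) * (3 ^ K * 2 ^ K) := by
        field_simp
  calc ‖x‖ ^ K / (K.factorial : ℝ) * 2 ≤ (1 / 2 : ℝ) ^ K * 2 :=
        mul_le_mul_of_nonneg_right h2 (by norm_num)
    _ = _ := by ring

/-- exponential sums with integral coefficients which are small on a disc -/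
theorem small_sum {Λ : Type*} [Fintype Λ] (w : Λ → ℂ) (W u K B N : ℕ) (hw : ∀ l, ‖w l‖ ≤ W)
    (hK : 6 * (W * u) ≤ K) (hN : 1 ≤ N)
    (hcard : (2 * (Fintype.card Λ * B * 3 ^ W) * N + 1) ^ (2 * K) < (B + 1) ^ Fintype.card Λ) :
    ∃ p : Λ → ℤ, p ≠ 0 ∧ (∀ l, |p l| ≤ B) ∧ ∀ z : ℂ, ‖z‖ ≤ u →
      ‖∑ l, (p l : ℂ) * Complex.exp (w l * z)‖ ≤
        K * ((max u 1 : ℕ) : ℝ) ^ K * (2 / N) + Fintype.card Λ * (B * (2 * (1 / 2 : ℝ) ^ K)) := by
  classical
  have hN' : (0 : ℝ) < N := by exact_mod_cast hN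
  have hB0 : (0 : ℝ) ≤ B := Nat.cast_nonneg _
  obtain ⟨p, hp0, hpB, hp⟩ := pigeonC (κ := Fin K) (fun k l => w l ^ (k : ℕ) / ((k : ℕ).factorial : ℂ))
    (Fintype.card Λ * B * 3 ^ W) B N hN (by
      intro k p hp
      refine (norm_sum_le _ _).trans ?_
      have h1 : ∀ l ∈ (Finset.univ : Finset Λ),
          ‖w l ^ (k : ℕ) / ((k : ℕ).factorial : ℂ) * (p l : ℂ)‖ ≤ 3 ^ W * B := by
        intro l _
        rw [norm_mul, norm_div, norm_pow, Complex.norm_natCast, Complex.norm_natCast]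
        have h2 : ‖w l‖ ^ (k : ℕ) / ((k : ℕ).factorial : ℝ) ≤ 3 ^ W := by
          refine le_trans ?_ ((Real.pow_div_factorial_le_exp (W : ℝ) (Nat.cast_nonneg _) k).trans
            (exp_nat_le W))
          exact div_le_div_of_nonneg_right (pow_le_pow_left₀ (norm_nonneg _) (hw l) _)
            (Nat.cast_nonneg _)
        have h3 : ((p l : ℕ) : ℝ) ≤ B := by exact_mod_cast hp l
        exact mul_le_mul h2 h3 (Nat.cast_nonneg _) (by positivity)
      refine (Finset.sum_le_card_nsmul _ _ _ h1).trans (le_of_eq ?_)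
      rw [Finset.card_univ, nsmul_eq_mul]
      push_cast
      ring) (by rwa [Fintype.card_fin])
  refine ⟨p, hp0, hpB, fun z hz => ?_⟩
  have hpR : ∀ l, ‖((p l : ℤ) : ℂ)‖ ≤ B := fun l => by
    rw [Complex.norm_intCast, ← Int.cast_abs]
    exact_mod_cast hpB l
  have hsplit : ∑ l, (p l : ℂ) * Complex.exp (w l * z) =
      ∑ k ∈ Finset.range K, z ^ k * ∑ l, w l ^ k / (k.factorial : ℂ) * (p l : ℂ) +
      ∑ l, (p l : ℂ) * (Complex.exp (w l * z) -
        ∑ k ∈ Finset.range K, (w l * z) ^ k / (k.factorial : ℂ)) := by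
    have e1 : ∑ k ∈ Finset.range K, z ^ k * ∑ l, w l ^ k / (k.factorial : ℂ) * (p l : ℂ) =
        ∑ l, (p l : ℂ) * ∑ k ∈ Finset.range K, (w l * z) ^ k / (k.factorial : ℂ) := by
      simp only [Finset.mul_sum]
      rw [Finset.sum_comm]
      refine Finset.sum_congr rfl fun l _ => Finset.sum_congr rfl fun k _ => ?_
      rw [mul_pow]
      ring
    rw [e1, ← Finset.sum_add_distrib]
    refine Finset.sum_congr rfl fun l _ => ?_
    ring
  rw [hsplit]
  refine (norm_add_le _ _).trans (add_le_add ?_ ?_)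
  · refine (norm_sum_le _ _).trans ?_
    have h1 : ∀ k ∈ Finset.range K, ‖z ^ k * ∑ l, w l ^ k / (k.factorial : ℂ) * (p l : ℂ)‖ ≤
        ((max u 1 : ℕ) : ℝ) ^ K * (2 / N) := by
      intro k hk
      rw [norm_mul, norm_pow]
      have h2 : ‖z‖ ^ k ≤ ((max u 1 : ℕ) : ℝ) ^ K := by
        have e1 : ‖z‖ ≤ ((max u 1 : ℕ) : ℝ) := hz.trans (by exact_mod_cast le_max_left u 1)
        have e2 : (1 : ℝ) ≤ ((max u 1 : ℕ) : ℝ) := by exact_mod_cast le_max_right u 1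
        exact (pow_le_pow_left₀ (norm_nonneg _) e1 k).trans
          (pow_le_pow_right₀ e2 (Finset.mem_range.1 hk).le)
      have h3 := hp ⟨k, Finset.mem_range.1 hk⟩
      simp only at h3
      refine mul_le_mul h2 ?_ (norm_nonneg _) (by positivity)
      rwa [le_div_iff₀ hN']
    refine (Finset.sum_le_card_nsmul _ _ _ h1).trans (le_of_eq ?_)
    rw [Finset.card_range, nsmul_eq_mul]
    ring
  · refine (norm_sum_le _ _).trans ?_
    have h1 : ∀ l ∈ (Finset.univ : Finset Λ), ‖(p l : ℂ) * (Complex.exp (w l * z) -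
        ∑ k ∈ Finset.range K, (w l * z) ^ k / (k.factorial : ℂ))‖ ≤ B * (2 * (1 / 2 : ℝ) ^ K) := by
      intro l _
      rw [norm_mul]
      refine mul_le_mul (hpR l) (exp_tail _ K (W * u) ?_ hK) (norm_nonneg _) hB0
      rw [norm_mul]
      push_cast
      exact mul_le_mul (hw l) hz (norm_nonneg _) (Nat.cast_nonneg _)
    refine (Finset.sum_le_card_nsmul _ _ _ h1).trans (le_of_eq ?_)
    rw [Finset.card_univ, nsmul_eq_mul]

end Pool.Agent.Zk25.LT
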