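import Pool.Agent.Zk25.LT.Len
import Pool.Agent.Zk25.LT.Pig
import Pool.Agent.Zk25.LT.Interp

/-!
# The main argument at one scale
-/

set_option autoImplicit false

namespace Pool.Agent.Zk25.LT

open MvPolynomial

/-- powers of two with integral exponents -/
noncomputable def P2 (a : ℤ) : ℝ := (2 : ℝ) ^ a

theorem P2_pos (a : ℤ) : 0 < P2 a := zpow_pos (by norm_num) a

theorem P2_add (a b : ℤ) : P2 (a + b) = P2 a * P2 b := zpow_add₀ (by norm_num) a b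

theorem P2_mono {a b : ℤ} (h : a ≤ b) : P2 a ≤ P2 b := zpow_le_zpow_right₀ (by norm_num) h

theorem P2_lt {a b : ℤ} (h : a < b) : P2 a < P2 b := zpow_lt_zpow_right₀ (by norm_num) h

theorem P2_zero : P2 0 = 1 := zpow_zero _

theorem P2_one : P2 1 = 2 := zpow_one _

theorem P2_nat (n : ℕ) : P2 n = 2 ^ n := zpow_natCast _ n

theorem le_P2 (n : ℕ) : (n : ℝ) ≤ P2 n := by
  rw [P2_nat]
  exact_mod_cast (Nat.lt_two_pow_self (n := n)).le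

theorem P2_pow (a : ℤ) (n : ℕ) : P2 a ^ n = P2 (a * n) := by
  unfold P2
  rw [zpow_mul, zpow_natCast]

theorem P2_neg (a : ℤ) : P2 (-a) = (P2 a)⁻¹ := zpow_neg _ a

/-- no small integral linear relations -/
def Sep (T k m : ℕ) (x : ℕ → ℂ) : Prop :=
  ∀ s : Fin m → ℤ, s ≠ 0 → (∀ i, |s i| ≤ T) → 1 ≤ ‖∑ i, (s i : ℂ) * x i‖ * 2 ^ (T ^ k)

/-- the frequencies -/
noncomputable def wt {m T : ℕ} (x : ℕ → ℂ) (l : Fin m → Fin T) : ℂ :=
  ∑ i, (((l i : ℕ) : ℂ)) * x i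

theorem wt_norm {m T : ℕ} {x : ℕ → ℂ} (hx : ∀ i < m, ‖x i‖ ≤ T) (hm : m ≤ T) (l : Fin m → Fin T) :
    ‖wt x l‖ ≤ ((T ^ 3 : ℕ) : ℝ) := by
  unfold wt
  refine (norm_sum_le _ _).trans ?_
  have h1 : ∀ i ∈ (Finset.univ : Finset (Fin m)), ‖(((l i : ℕ) : ℂ)) * x i‖ ≤ (T : ℝ) * T := by
    intro i _
    rw [norm_mul, Complex.norm_natCast]
    refine mul_le_mul ?_ (hx i i.2) (norm_nonneg _) (Nat.cast_nonneg _)
    exact_mod_cast (l i).2.le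
  refine (Finset.sum_le_card_nsmul _ _ _ h1).trans ?_
  rw [Finset.card_univ, Fintype.card_fin, nsmul_eq_mul]
  have h2 : (m : ℝ) ≤ T := by exact_mod_cast hm
  push_cast
  calc (m : ℝ) * (T * T) ≤ T * (T * T) := mul_le_mul_of_nonneg_right h2 (by positivity)
    _ = _ := by ring

theorem wt_sep {m T k : ℕ} {x : ℕ → ℂ} (hx : Sep T k m x) {l l' : Fin m → Fin T} (h : l ≠ l') :
    P2 (-((T ^ k : ℕ) : ℤ)) ≤ ‖wt x l - wt x l'‖ := by
  have h1 := hx (fun i => ((l i : ℕ) : ℤ) - ((l' i : ℕ) : ℤ)) (by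
    intro h'
    apply h
    funext i
    have h2 := congrFun h' i
    simp only [Pi.zero_apply] at h2
    exact Fin.ext (by omega)) (by
    intro i
    have h2 := (l i).2
    have h3 := (l' i).2
    show |((l i : ℕ) : ℤ) - ((l' i : ℕ) : ℤ)| ≤ T
    rw [abs_le]
    constructor <;> omega)
  have h2 : ∑ i, (((((l i : ℕ) : ℤ) - ((l' i : ℕ) : ℤ)) : ℤ) : ℂ) * x i = wt x l - wt x l' := by
    unfold wt
    rw [← Finset.sum_sub_distrib]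
    refine Finset.sum_congr rfl fun i _ => ?_
    push_cast
    ring
  rw [h2, ← P2_nat] at h1
  rw [P2_neg, inv_eq_one_div, div_le_iff₀ (P2_pos _)]
  exact h1

theorem wt_inj {m T k : ℕ} {x : ℕ → ℂ} (hx : Sep T k m x) :
    Function.Injective (wt x : (Fin m → Fin T) → ℂ) := by
  intro l l' h
  by_contra hne
  have h1 := wt_sep hx hne
  rw [h, sub_self, norm_zero] at h1
  exact absurd (P2_pos _) (not_lt.2 h1)

theorem card_le {m T : ℕ} (hm : m ≤ T) : T ^ m ≤ 2 ^ T ^ 2 := by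
  calc T ^ m ≤ (2 ^ T) ^ m := Nat.pow_le_pow_left (Nat.lt_two_pow_self).le _
    _ = 2 ^ (T * m) := by rw [pow_mul]
    _ ≤ 2 ^ (T ^ 2) := Nat.pow_le_pow_right (by omega) (by rw [pow_two]; exact Nat.mul_le_mul_left _ hm)

theorem sixteen {T : ℕ} (hT : 16 ≤ T) {a b : ℕ} (h : a < b) : 16 * T ^ a ≤ T ^ b := by
  calc 16 * T ^ a ≤ T * T ^ a := Nat.mul_le_mul_right _ hT
    _ = T ^ (a + 1) := by rw [pow_succ]; ring
    _ ≤ T ^ b := Nat.pow_le_pow_right (by omega) h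

/-- the auxiliary function -/
theorem aux {T h : ℕ} (hT : 16 ≤ T) (hh : 8 ≤ h) (hm : 2 * h ≤ T) {x : ℕ → ℂ}
    (hx : ∀ i < 2 * h, ‖x i‖ ≤ T) :
    ∃ p : (Fin (2 * h) → Fin T) → ℤ, p ≠ 0 ∧ (∀ l, |p l| ≤ ((2 ^ (T ^ 4) : ℕ) : ℤ)) ∧
      ∀ z : ℂ, ‖z‖ ≤ ((T ^ 3 : ℕ) : ℝ) → ‖∑ l, (p l : ℂ) * Complex.exp (wt x l * z)‖ ≤
        P2 ((T ^ 5 : ℕ) - (T ^ h : ℕ)) := by
  have hT1 : 1 ≤ T := by omega
  have hcardΛ : Fintype.card (Fin (2 * h) → Fin T) = T ^ (2 * h) := by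
    rw [Fintype.card_fun, Fintype.card_fin, Fintype.card_fin]
  have c1 := card_le hm
  obtain ⟨p, hp0, hpB, hp⟩ := small_sum (wt x : (Fin (2 * h) → Fin T) → ℂ) (T ^ 3) (T ^ 3) (T ^ h)
    (2 ^ (T ^ 4)) (2 ^ (5 * T ^ (h + 1))) (wt_norm hx hm) (by
      have e1 := sixteen hT (a := 6) (b := h) (by omega)
      have e2 : T ^ 3 * T ^ 3 = T ^ 6 := by rw [← pow_add]
      rw [e2]
      omega) Nat.one_le_two_pow (by
      rw [hcardΛ]
      have e3 : (3 : ℕ) ^ (T ^ 3) ≤ 2 ^ (2 * T ^ 3) := by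
        rw [pow_mul]
        exact Nat.pow_le_pow_left (by norm_num) _
      have e4 : T ^ (2 * h) * 2 ^ T ^ 4 * 3 ^ T ^ 3 ≤ 2 ^ (T ^ 2) * 2 ^ T ^ 4 * 2 ^ (2 * T ^ 3) :=
        Nat.mul_le_mul (Nat.mul_le_mul_right _ c1) e3
      have e5 : 2 * (T ^ (2 * h) * 2 ^ T ^ 4 * 3 ^ T ^ 3) * 2 ^ (5 * T ^ (h + 1)) + 1 ≤
          2 ^ (2 + (T ^ 2 + T ^ 4 + 2 * T ^ 3) + 5 * T ^ (h + 1)) := by
        have e6 : 2 * (T ^ (2 * h) * 2 ^ T ^ 4 * 3 ^ T ^ 3) * 2 ^ (5 * T ^ (h + 1)) ≤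
            2 * (2 ^ (T ^ 2) * 2 ^ T ^ 4 * 2 ^ (2 * T ^ 3)) * 2 ^ (5 * T ^ (h + 1)) :=
          Nat.mul_le_mul_right _ (Nat.mul_le_mul_left _ e4)
        have e7 : 2 * (2 ^ (T ^ 2) * 2 ^ T ^ 4 * 2 ^ (2 * T ^ 3)) * 2 ^ (5 * T ^ (h + 1)) =
            2 ^ (1 + (T ^ 2 + T ^ 4 + 2 * T ^ 3) + 5 * T ^ (h + 1)) := by
          rw [pow_add, pow_add, pow_add, pow_add]
          ring
        have e8 : 1 ≤ 2 ^ (1 + (T ^ 2 + T ^ 4 + 2 * T ^ 3) + 5 * T ^ (h + 1)) := Nat.one_le_two_pow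
        have e9 : 2 ^ (2 + (T ^ 2 + T ^ 4 + 2 * T ^ 3) + 5 * T ^ (h + 1)) =
            2 * 2 ^ (1 + (T ^ 2 + T ^ 4 + 2 * T ^ 3) + 5 * T ^ (h + 1)) := by
          rw [← pow_succ']
          congr 1
          omega
        omega
      have f1 := sixteen hT (a := 0) (b := h + 1) (by omega)
      have f2 := sixteen hT (a := 2) (b := h + 1) (by omega)
      have f3 := sixteen hT (a := 3) (b := h + 1) (by omega)
      have f4 := sixteen hT (a := 4) (b := h + 1) (by omega)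
      have f5 := sixteen hT (a := h + 1) (b := h + 2) (by omega)
      rw [pow_zero] at f1
      calc (2 * (T ^ (2 * h) * 2 ^ T ^ 4 * 3 ^ T ^ 3) * 2 ^ (5 * T ^ (h + 1)) + 1) ^ (2 * T ^ h)
          ≤ (2 ^ (2 + (T ^ 2 + T ^ 4 + 2 * T ^ 3) + 5 * T ^ (h + 1))) ^ (2 * T ^ h) :=
            Nat.pow_le_pow_left e5 _
        _ ≤ (2 ^ (T ^ (h + 2))) ^ (2 * T ^ h) :=
            Nat.pow_le_pow_left (Nat.pow_le_pow_right (by omega) (by omega)) _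
        _ = 2 ^ (T ^ (h + 2) * (2 * T ^ h)) := by rw [← pow_mul]
        _ ≤ 2 ^ (T ^ 4 * T ^ (2 * h)) := by
            refine Nat.pow_le_pow_right (by omega) ?_
            have g1 : T ^ (h + 2) * (2 * T ^ h) = 2 * T ^ (2 * h + 2) := by
              have : T ^ (2 * h + 2) = T ^ (h + 2) * T ^ h := by rw [← pow_add]; congr 1; omega
              rw [this]; ring
            have g2 : T ^ 4 * T ^ (2 * h) = T ^ (2 * h + 4) := by
              rw [← pow_add]; congr 1; omega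
            rw [g1, g2]
            have := sixteen hT (a := 2 * h + 2) (b := 2 * h + 4) (by omega)
            omega
        _ = (2 ^ T ^ 4) ^ (T ^ (2 * h)) := by rw [pow_mul]
        _ < (2 ^ T ^ 4 + 1) ^ (T ^ (2 * h)) := by
            refine Nat.pow_lt_pow_left (by omega) ?_
            have : 1 ≤ T ^ (2 * h) := Nat.one_le_pow _ _ hT1
            omega)
  refine ⟨p, hp0, hpB, fun z hz => (hp z hz).trans ?_⟩
  rw [hcardΛ]
  have hmax : max (T ^ 3) 1 = T ^ 3 := max_eq_left (Nat.one_le_pow _ _ hT1)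
  rw [hmax]
  -- first summand
  have a1 : ((T ^ h : ℕ) : ℝ) * ((T ^ 3 : ℕ) : ℝ) ^ (T ^ h) * (2 / ((2 ^ (5 * T ^ (h + 1)) : ℕ) : ℝ)) ≤
      P2 (-((T ^ h : ℕ) : ℤ)) := by
    have b1 : ((T ^ h : ℕ) : ℝ) ≤ P2 ((T ^ h : ℕ) : ℤ) := le_P2 _
    have b2 : ((T ^ 3 : ℕ) : ℝ) ^ (T ^ h) ≤ P2 ((3 * T ^ (h + 1) : ℕ) : ℤ) := by
      rw [P2_nat]
      have : (T ^ 3) ^ (T ^ h) ≤ 2 ^ (3 * T ^ (h + 1)) := by
        calc (T ^ 3) ^ (T ^ h) ≤ ((2 ^ T) ^ 3) ^ (T ^ h) :=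
              Nat.pow_le_pow_left (Nat.pow_le_pow_left (Nat.lt_two_pow_self).le _) _
          _ = 2 ^ (3 * T ^ (h + 1)) := by
              rw [← pow_mul, ← pow_mul, pow_succ]
              congr 1
              ring
      exact_mod_cast this
    have b3 : (2 / ((2 ^ (5 * T ^ (h + 1)) : ℕ) : ℝ)) = P2 (1 - ((5 * T ^ (h + 1) : ℕ) : ℤ)) := by
      rw [sub_eq_add_neg, P2_add, P2_neg, P2_one, P2_nat]
      push_cast
      rfl
    rw [b3]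
    calc ((T ^ h : ℕ) : ℝ) * ((T ^ 3 : ℕ) : ℝ) ^ (T ^ h) * P2 (1 - ((5 * T ^ (h + 1) : ℕ) : ℤ))
        ≤ (P2 ((T ^ h : ℕ) : ℤ) * P2 ((3 * T ^ (h + 1) : ℕ) : ℤ)) *
          P2 (1 - ((5 * T ^ (h + 1) : ℕ) : ℤ)) :=
          mul_le_mul_of_nonneg_right (mul_le_mul b1 b2 (by positivity) (P2_pos _).le) (P2_pos _).le
      _ = P2 (((T ^ h : ℕ) : ℤ) + ((3 * T ^ (h + 1) : ℕ) : ℤ) + (1 - ((5 * T ^ (h + 1) : ℕ) : ℤ))) := by
          rw [P2_add, P2_add]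
      _ ≤ _ := by
          refine P2_mono ?_
          have := sixteen hT (a := h) (b := h + 1) (by omega)
          have h1 : 1 ≤ T ^ h := Nat.one_le_pow _ _ hT1
          omega
  have a2 : ((T ^ (2 * h) : ℕ) : ℝ) * (((2 ^ T ^ 4 : ℕ) : ℝ) * (2 * (1 / 2 : ℝ) ^ (T ^ h))) ≤
      P2 ((T ^ 2 : ℕ) + ((T ^ 4 : ℕ) + (1 + -((T ^ h : ℕ) : ℤ)))) := by
    have b1 : ((T ^ (2 * h) : ℕ) : ℝ) ≤ P2 ((T ^ 2 : ℕ) : ℤ) := by
      rw [P2_nat]
      exact_mod_cast c1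
    have b2 : (((2 ^ T ^ 4 : ℕ) : ℝ)) = P2 ((T ^ 4 : ℕ) : ℤ) := by
      rw [P2_nat]; push_cast; rfl
    have b3 : (2 * (1 / 2 : ℝ) ^ (T ^ h)) = P2 (1 + -((T ^ h : ℕ) : ℤ)) := by
      rw [P2_add, P2_one, P2_neg, P2_nat, one_div, inv_pow]
    have b4 : P2 ((T ^ 2 : ℕ) + ((T ^ 4 : ℕ) + (1 + -((T ^ h : ℕ) : ℤ)))) =
        P2 ((T ^ 2 : ℕ) : ℤ) * (P2 ((T ^ 4 : ℕ) : ℤ) * P2 (1 + -((T ^ h : ℕ) : ℤ))) := by
      rw [← P2_add, ← P2_add]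
    rw [b2, b3, b4]
    exact mul_le_mul_of_nonneg_right b1 (mul_pos (P2_pos _) (P2_pos _)).le
  refine (add_le_add a1 a2).trans ?_
  have d1 : P2 (-((T ^ h : ℕ) : ℤ)) ≤ P2 ((T ^ 5 : ℕ) - (T ^ h : ℕ) - 1) := by
    refine P2_mono ?_
    have : 1 ≤ T ^ 5 := Nat.one_le_pow _ _ hT1
    omega
  have d2 : P2 ((T ^ 2 : ℕ) + ((T ^ 4 : ℕ) + (1 + -((T ^ h : ℕ) : ℤ)))) ≤
      P2 ((T ^ 5 : ℕ) - (T ^ h : ℕ) - 1) := by
    refine P2_mono ?_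
    have e1 := sixteen hT (a := 4) (b := 5) (by omega)
    have e2 := sixteen hT (a := 2) (b := 4) (by omega)
    have e3 := sixteen hT (a := 0) (b := 2) (by omega)
    rw [pow_zero] at e3
    omega
  have d3 : P2 ((T ^ 5 : ℕ) - (T ^ h : ℕ)) = 2 * P2 ((T ^ 5 : ℕ) - (T ^ h : ℕ) - 1) := by
    rw [← P2_one, ← P2_add]
    congr 1
    ring
  linarith

variable {R : ℕ}

/-- one term of the polynomials -/
noncomputable def gterm {m l : ℕ} (T : ℕ) (A : ℕ → ℕ → MvPolynomial (Fin R) ℤ)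
    (b : MvPolynomial (Fin R) ℤ) (u : Fin m → Fin T) (s : Fin l → Fin T) :
    MvPolynomial (Fin R) ℤ :=
  ∏ i : Fin m, ∏ j : Fin l, (A i j ^ ((u i : ℕ) * (s j : ℕ)) * b ^ (T ^ 2 - (u i : ℕ) * (s j : ℕ)))

theorem gterm_Sz {m l T : ℕ} {A : ℕ → ℕ → MvPolynomial (Fin R) ℤ}
    {b : MvPolynomial (Fin R) ℤ} (hA : ∀ i < m, ∀ j < l, Sz T (2 ^ T) (A i j)) (hb : Sz T (2 ^ T) b)
    (u : Fin m → Fin T) (s : Fin l → Fin T) :
    Sz (m * (l * T ^ 3)) (2 ^ (m * (l * T ^ 3))) (gterm T A b u s) := by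
  have h1 : ∀ (i : Fin m) (j : Fin l), Sz (T ^ 3) (2 ^ (T ^ 3))
      (A i j ^ ((u i : ℕ) * (s j : ℕ)) * b ^ (T ^ 2 - (u i : ℕ) * (s j : ℕ))) := by
    intro i j
    have h2 : (u i : ℕ) * (s j : ℕ) ≤ T ^ 2 := by
      rw [pow_two]; exact Nat.mul_le_mul (u i).2.le (s j).2.le
    refine (((hA i i.2 j j.2).pow _).mul (hb.pow _)).mono ?_ ?_
    · rw [← Nat.add_mul, Nat.add_sub_cancel' h2, ← pow_succ]
    · rw [← pow_mul, ← pow_mul, ← pow_add, ← Nat.mul_add, Nat.add_sub_cancel' h2, ← pow_succ']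
  have h2 : ∀ i : Fin m, Sz (l * T ^ 3) (2 ^ (l * T ^ 3)) (∏ j : Fin l,
      (A i j ^ ((u i : ℕ) * (s j : ℕ)) * b ^ (T ^ 2 - (u i : ℕ) * (s j : ℕ)))) := by
    intro i
    have h3 := Sz.prod_const (Finset.univ : Finset (Fin l)) _ (fun j _ => h1 i j)
    rw [Finset.card_univ, Fintype.card_fin, ← pow_mul] at h3
    exact h3.mono le_rfl (by rw [mul_comm])
  have h3 := Sz.prod_const (Finset.univ : Finset (Fin m)) _ (fun i _ => h2 i)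
  rw [Finset.card_univ, Fintype.card_fin, ← pow_mul] at h3
  exact h3.mono le_rfl (by rw [mul_comm])

theorem gterm_eval {m l T : ℕ} {A : ℕ → ℕ → MvPolynomial (Fin R) ℤ}
    {b : MvPolynomial (Fin R) ℤ} {t : Fin R → ℂ} {x y : ℕ → ℂ}
    (hE : ∀ i < m, ∀ j < l, aeval t b * Complex.exp (x i * y j) = aeval t (A i j))
    (u : Fin m → Fin T) (s : Fin l → Fin T) :
    aeval t (gterm T A b u s) = aeval t b ^ (m * (l * T ^ 2)) * Complex.exp (wt x u * wt y s) := by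
  unfold gterm
  rw [map_prod]
  have h1 : ∀ (i : Fin m) (j : Fin l),
      aeval t (A i j ^ ((u i : ℕ) * (s j : ℕ)) * b ^ (T ^ 2 - (u i : ℕ) * (s j : ℕ))) =
        aeval t b ^ (T ^ 2) * Complex.exp ((((u i : ℕ) : ℂ) * x i) * (((s j : ℕ) : ℂ) * y j)) := by
    intro i j
    have h2 : (u i : ℕ) * (s j : ℕ) ≤ T ^ 2 := by
      rw [pow_two]; exact Nat.mul_le_mul (u i).2.le (s j).2.le
    rw [map_mul, map_pow, map_pow, ← hE i i.2 j j.2, mul_pow, ← Complex.exp_nat_mul]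
    have h3 : aeval t b ^ T ^ 2 = aeval t b ^ ((u i : ℕ) * (s j : ℕ)) *
        aeval t b ^ (T ^ 2 - (u i : ℕ) * (s j : ℕ)) := by
      rw [← pow_add, Nat.add_sub_cancel' h2]
    rw [h3]
    have h4 : (((u i : ℕ) * (s j : ℕ) : ℕ) : ℂ) * (x i * y j) =
        (((u i : ℕ) : ℂ) * x i) * (((s j : ℕ) : ℂ) * y j) := by
      push_cast; ring
    rw [h4]
    ring
  have h2 : ∀ i : Fin m, aeval t (∏ j : Fin l,
      (A i j ^ ((u i : ℕ) * (s j : ℕ)) * b ^ (T ^ 2 - (u i : ℕ) * (s j : ℕ)))) =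
      aeval t b ^ (l * T ^ 2) * Complex.exp ((((u i : ℕ) : ℂ) * x i) * wt y s) := by
    intro i
    rw [map_prod, Finset.prod_congr rfl fun j _ => h1 i j, Finset.prod_mul_distrib,
      Finset.prod_const, Finset.card_univ, Fintype.card_fin, ← pow_mul, ← Complex.exp_sum,
      ← Finset.mul_sum, mul_comm (T ^ 2) l]
    rfl
  rw [Finset.prod_congr rfl fun i _ => h2 i, Finset.prod_mul_distrib,
    Finset.prod_const, Finset.card_univ, Fintype.card_fin, ← pow_mul, ← Complex.exp_sum,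
    ← Finset.sum_mul, mul_comm (l * T ^ 2) m]
  rfl

end Pool.Agent.Zk25.LT
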