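import Pool.Agent.Zk25.LT.Core

/-!
# The main argument at one scale: conclusion
-/

set_option autoImplicit false

namespace Pool.Agent.Zk25.LT

open MvPolynomial

variable {R : ℕ}

theorem expSum_bound {T h : ℕ} (hT : 16 ≤ T) (hm : 2 * h ≤ T) {x : ℕ → ℂ}
    (hx : ∀ i < 2 * h, ‖x i‖ ≤ T) {p : (Fin (2 * h) → Fin T) → ℤ}
    (hp : ∀ l, |p l| ≤ ((2 ^ (T ^ 4) : ℕ) : ℤ)) {z : ℂ} (hz : ‖z‖ ≤ ((T ^ 4 : ℕ) : ℝ)) :
    ‖∑ l, (p l : ℂ) * Complex.exp (wt x l * z)‖ ≤ P2 ((T ^ 8 : ℕ) : ℤ) := by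
  have h1 : ∀ l ∈ (Finset.univ : Finset (Fin (2 * h) → Fin T)),
      ‖(p l : ℂ) * Complex.exp (wt x l * z)‖ ≤ P2 ((T ^ 4 : ℕ) : ℤ) * P2 ((2 * T ^ 7 : ℕ) : ℤ) := by
    intro l _
    rw [norm_mul]
    refine mul_le_mul ?_ ?_ (norm_nonneg _) (P2_pos _).le
    · rw [Complex.norm_intCast, ← Int.cast_abs, P2_nat]
      exact_mod_cast hp l
    · rw [Complex.norm_exp, P2_nat]
      have h2 : (wt x l * z).re ≤ ((T ^ 7 : ℕ) : ℝ) := by
        refine (Complex.re_le_norm _).trans ?_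
        rw [norm_mul]
        refine (mul_le_mul (wt_norm hx hm l) hz (norm_nonneg _) (Nat.cast_nonneg _)).trans
          (le_of_eq ?_)
        rw [← Nat.cast_mul, ← pow_add]
      refine (Real.exp_le_exp.2 h2).trans ((exp_nat_le _).trans ?_)
      rw [pow_mul]
      exact pow_le_pow_left₀ (by norm_num) (by norm_num) _
  refine (norm_sum_le _ _).trans ((Finset.sum_le_card_nsmul _ _ _ h1).trans ?_)
  rw [Finset.card_univ, Fintype.card_fun, Fintype.card_fin, Fintype.card_fin, nsmul_eq_mul]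
  have h2 : ((T ^ (2 * h) : ℕ) : ℝ) ≤ P2 ((T ^ 2 : ℕ) : ℤ) := by
    rw [P2_nat]
    exact_mod_cast card_le hm
  calc ((T ^ (2 * h) : ℕ) : ℝ) * (P2 ((T ^ 4 : ℕ) : ℤ) * P2 ((2 * T ^ 7 : ℕ) : ℤ))
      ≤ P2 ((T ^ 2 : ℕ) : ℤ) * (P2 ((T ^ 4 : ℕ) : ℤ) * P2 ((2 * T ^ 7 : ℕ) : ℤ)) :=
        mul_le_mul_of_nonneg_right h2 (mul_pos (P2_pos _) (P2_pos _)).le
    _ = P2 (((T ^ 2 : ℕ) : ℤ) + (((T ^ 4 : ℕ) : ℤ) + ((2 * T ^ 7 : ℕ) : ℤ))) := by
        rw [← P2_add, ← P2_add]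
    _ ≤ _ := by
        refine P2_mono ?_
        have e1 := sixteen hT (a := 2) (b := 8) (by omega)
        have e2 := sixteen hT (a := 4) (b := 8) (by omega)
        have e3 := sixteen hT (a := 7) (b := 8) (by omega)
        omega

/-- the polynomials -/
noncomputable def gpoly {h l : ℕ} (T : ℕ) (A : ℕ → ℕ → MvPolynomial (Fin R) ℤ)
    (b : MvPolynomial (Fin R) ℤ) (p : (Fin (2 * h) → Fin T) → ℤ) (s : Fin l → Fin T) :
    MvPolynomial (Fin R) ℤ :=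
  ∑ u : Fin (2 * h) → Fin T, MvPolynomial.C (p u) * gterm T A b u s

theorem gpoly_Sz {T h l : ℕ} (hT : 16 ≤ T) (hsz : 2 * h * l + 2 * h + l ≤ T)
    {A : ℕ → ℕ → MvPolynomial (Fin R) ℤ} {b : MvPolynomial (Fin R) ℤ}
    (hA : ∀ i < 2 * h, ∀ j < l, Sz T (2 ^ T) (A i j)) (hb : Sz T (2 ^ T) b)
    {p : (Fin (2 * h) → Fin T) → ℤ} (hp : ∀ l, |p l| ≤ ((2 ^ (T ^ 4) : ℕ) : ℤ))
    (s : Fin l → Fin T) : Sz (T ^ 6) (2 ^ (T ^ 6)) (gpoly T A b p s) := by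
  have hN : 2 * h * (l * T ^ 3) ≤ T ^ 4 := by
    calc 2 * h * (l * T ^ 3) = (2 * h * l) * T ^ 3 := by ring
      _ ≤ T * T ^ 3 := Nat.mul_le_mul_right _ (by omega)
      _ = T ^ 4 := by ring
  have h1 : ∀ u ∈ (Finset.univ : Finset (Fin (2 * h) → Fin T)),
      Sz (T ^ 4) (2 ^ (T ^ 4) * 2 ^ (T ^ 4)) (MvPolynomial.C (p u) * gterm T A b u s) := by
    intro u _
    refine ((Sz.C (p u)).mul (gterm_Sz hA hb u s)).mono ?_ ?_
    · omega
    · refine Nat.mul_le_mul ?_ (Nat.pow_le_pow_right (by omega) hN)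
      have h2 := hp u
      rw [Int.abs_eq_natAbs] at h2
      exact_mod_cast h2
  have h2 := Sz.sum_const _ _ h1
  rw [Finset.card_univ, Fintype.card_fun, Fintype.card_fin, Fintype.card_fin] at h2
  have e1 := sixteen hT (a := 2) (b := 6) (by omega)
  have e2 := sixteen hT (a := 4) (b := 6) (by omega)
  refine h2.mono (by omega) ?_
  calc T ^ (2 * h) * (2 ^ T ^ 4 * 2 ^ T ^ 4) ≤ 2 ^ (T ^ 2) * (2 ^ T ^ 4 * 2 ^ T ^ 4) :=
        Nat.mul_le_mul_right _ (card_le (by omega))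
    _ = 2 ^ (T ^ 2 + (T ^ 4 + T ^ 4)) := by rw [← pow_add, ← pow_add]
    _ ≤ _ := Nat.pow_le_pow_right (by omega) (by omega)

theorem gpoly_eval {T h l : ℕ} {A : ℕ → ℕ → MvPolynomial (Fin R) ℤ} {b : MvPolynomial (Fin R) ℤ}
    {t : Fin R → ℂ} {x y : ℕ → ℂ}
    (hE : ∀ i < 2 * h, ∀ j < l, aeval t b * Complex.exp (x i * y j) = aeval t (A i j))
    (p : (Fin (2 * h) → Fin T) → ℤ) (s : Fin l → Fin T) :
    aeval t (gpoly T A b p s) = aeval t b ^ (2 * h * (l * T ^ 2)) *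
      ∑ u, (p u : ℂ) * Complex.exp (wt x u * wt y s) := by
  unfold gpoly
  rw [map_sum, Finset.mul_sum]
  refine Finset.sum_congr rfl fun u _ => ?_
  rw [map_mul, gterm_eval hE u s, algHom_C]
  simp only [algebraMap_int_eq, eq_intCast]
  ring

/-- **the main argument** -/
theorem core {T h l κ κ' κ₁ ν : ℕ} (hT : 16 ≤ T) (hsz : 2 * h * l + 2 * h + l ≤ T)
    (hh : 10 + κ₁ ≤ h) (hl : 2 * h + κ + 5 ≤ l) (hν : l + κ' + 10 ≤ ν) {t α : Fin R → ℂ}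
    {x y : ℕ → ℂ} {A : ℕ → ℕ → MvPolynomial (Fin R) ℤ} {b : MvPolynomial (Fin R) ℤ}
    (hx : ∀ i < 2 * h, ‖x i‖ ≤ T) (hy : ∀ j < l, ‖y j‖ ≤ T)
    (ht : ∀ i, ‖t i‖ ≤ T) (hα : ∀ i, ‖t i - α i‖ * 2 ^ (T ^ ν) ≤ 1)
    (hb : Sz T (2 ^ T) b) (hA : ∀ i < 2 * h, ∀ j < l, Sz T (2 ^ T) (A i j))
    (hb0 : 1 ≤ ‖aeval t b‖ * 2 ^ T)
    (hE : ∀ i < 2 * h, ∀ j < l, aeval t b * Complex.exp (x i * y j) = aeval t (A i j))
    (hLP : ∀ f : MvPolynomial (Fin R) ℤ, Sz (T ^ 6) (2 ^ (T ^ 6)) f → aeval α f ≠ 0 →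
      1 ≤ ‖aeval α f‖ * 2 ^ (T ^ κ₁))
    (sx : Sep T κ (2 * h) x) (sy : Sep T κ' l y) : False := by
  classical
  have hT1 : 1 ≤ T := by omega
  have hT0 : (1 : ℝ) ≤ T := by exact_mod_cast hT1
  obtain ⟨p, hp0, hpB, hp⟩ := aux hT (h := h) (by omega) (by omega) hx
  obtain ⟨F, hF⟩ : ∃ F : ℂ → ℂ, F = fun z => ∑ u, (p u : ℂ) * Complex.exp (wt x u * z) := ⟨_, rfl⟩
  obtain ⟨N, hN⟩ : ∃ N : ℕ, N = 2 * h * (l * T ^ 2) := ⟨_, rfl⟩
  have hN3 : N ≤ T ^ 3 := by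
    calc N = (2 * h * l) * T ^ 2 := by rw [hN]; ring
      _ ≤ T * T ^ 2 := Nat.mul_le_mul_right _ (by omega)
      _ = T ^ 3 := by ring
  have hev : ∀ s : Fin l → Fin T, aeval t (gpoly T A b p s) = aeval t b ^ N * F (wt y s) := by
    intro s
    rw [gpoly_eval hE p s, hF, hN]
  have hSz : ∀ s : Fin l → Fin T, Sz (T ^ 6) (2 ^ (T ^ 6)) (gpoly T A b p s) :=
    fun s => gpoly_Sz hT hsz hA hb hpB s
  -- the size of b
  have hbu : ‖aeval t b‖ ≤ P2 ((T + T ^ 2 : ℕ) : ℤ) := by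
    have h1 := norm_aeval_le hT0 ht hb
    refine h1.trans ?_
    rw [P2_nat, pow_add]
    push_cast
    refine mul_le_mul_of_nonneg_left ?_ (by positivity)
    have h2 : T ^ T ≤ 2 ^ (T ^ 2) := by
      calc T ^ T ≤ (2 ^ T) ^ T := Nat.pow_le_pow_left (Nat.lt_two_pow_self).le _
        _ = 2 ^ (T ^ 2) := by rw [← pow_mul, pow_two]
    exact_mod_cast h2
  have hbN : ‖aeval t b‖ ^ N ≤ P2 ((T ^ 6 : ℕ) : ℤ) := by
    refine (pow_le_pow_left₀ (norm_nonneg _) hbu N).trans ?_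
    rw [P2_pow]
    refine P2_mono ?_
    have h1 : (T + T ^ 2) * N ≤ T ^ 6 := by
      have e1 := sixteen hT (a := 1) (b := 2) (by omega)
      have e2 := sixteen hT (a := 2) (b := 3) (by omega)
      rw [pow_one] at e1
      calc (T + T ^ 2) * N ≤ T ^ 3 * T ^ 3 := Nat.mul_le_mul (by omega) hN3
        _ = T ^ 6 := by ring
    exact_mod_cast h1
  have hbl : ∀ z : ℝ, 0 ≤ z → z ≤ (‖aeval t b‖ ^ N * z) * P2 ((T ^ 4 : ℕ) : ℤ) := by
    intro z hz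
    have h1 : 1 ≤ (‖aeval t b‖ * 2 ^ T) ^ N := one_le_pow₀ hb0
    rw [mul_pow, ← P2_nat, P2_pow] at h1
    have h2 : P2 ((T : ℤ) * N) ≤ P2 ((T ^ 4 : ℕ) : ℤ) := by
      refine P2_mono ?_
      have h3 : T * N ≤ T ^ 4 := by
        calc T * N ≤ T * T ^ 3 := Nat.mul_le_mul_left _ hN3
          _ = T ^ 4 := by ring
      exact_mod_cast h3
    have h3 : 1 ≤ ‖aeval t b‖ ^ N * P2 ((T ^ 4 : ℕ) : ℤ) :=
      h1.trans (mul_le_mul_of_nonneg_left h2 (by positivity))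
    nlinarith
  -- the values at t
  have hGt : ∀ s : Fin l → Fin T, ‖aeval t (gpoly T A b p s)‖ ≤ P2 ((T ^ 7 : ℕ) - (T ^ h : ℕ)) := by
    intro s
    have h1 := hp (wt y s) (wt_norm hy (by omega) s)
    rw [hev, norm_mul, norm_pow]
    have h2 : ‖F (wt y s)‖ ≤ P2 ((T ^ 5 : ℕ) - (T ^ h : ℕ)) := by rw [hF]; exact h1
    refine (mul_le_mul hbN h2 (norm_nonneg _) (P2_pos _).le).trans ?_
    rw [← P2_add]
    refine P2_mono ?_
    have e1 := sixteen hT (a := 5) (b := 7) (by omega)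
    have e2 := sixteen hT (a := 6) (b := 7) (by omega)
    omega
  -- the difference
  have hαT : ∀ i, ‖t i - α i‖ ≤ P2 (-((T ^ ν : ℕ) : ℤ)) := by
    intro i
    rw [P2_neg, inv_eq_one_div, le_div_iff₀ (P2_pos _), P2_nat]
    exact hα i
  have hα2 : ∀ i, ‖α i‖ ≤ ((2 * T : ℕ) : ℝ) := by
    intro i
    have h1 : ‖t i - α i‖ ≤ 1 := by
      refine (hαT i).trans ?_
      rw [← P2_zero]
      exact P2_mono (by omega)
    have h2 : ‖α i‖ ≤ ‖t i‖ + ‖t i - α i‖ := by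
      have h3 : α i = t i - (t i - α i) := by ring
      calc ‖α i‖ = ‖t i - (t i - α i)‖ := by rw [← h3]
        _ ≤ _ := norm_sub_le _ _
    have h3 := ht i
    push_cast
    linarith
  have hdiff : ∀ s : Fin l → Fin T, ‖aeval t (gpoly T A b p s) - aeval α (gpoly T A b p s)‖ ≤
      P2 ((T ^ 8 : ℕ) - (T ^ ν : ℕ)) := by
    intro s
    have h1 := aeval_sub_le (A := ((2 * T : ℕ) : ℝ)) (δ := P2 (-((T ^ ν : ℕ) : ℤ)))
      (by push_cast; linarith) (z := t) (w := α) (fun i => (ht i).trans (by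
        push_cast; linarith)) hα2 hαT (P2_pos _).le (hSz s)
    refine h1.trans ?_
    have h2 : (((2 ^ (T ^ 6) : ℕ)) : ℝ) = P2 ((T ^ 6 : ℕ) : ℤ) := by
      rw [P2_nat]; push_cast; rfl
    have h3 : (((T ^ 6 : ℕ)) : ℝ) ≤ P2 ((T ^ 6 : ℕ) : ℤ) := le_P2 _
    have h4 : ((2 * T : ℕ) : ℝ) ^ (T ^ 6) ≤ P2 ((2 * T ^ 7 : ℕ) : ℤ) := by
      refine (pow_le_pow_left₀ (Nat.cast_nonneg _) (le_P2 (2 * T)) _).trans ?_
      rw [P2_pow]
      refine P2_mono (le_of_eq ?_)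
      push_cast
      ring
    rw [h2]
    calc P2 ((T ^ 6 : ℕ) : ℤ) * ((((T ^ 6 : ℕ)) : ℝ) * ((2 * T : ℕ) : ℝ) ^ (T ^ 6) *
          P2 (-((T ^ ν : ℕ) : ℤ)))
        ≤ P2 ((T ^ 6 : ℕ) : ℤ) * ((P2 ((T ^ 6 : ℕ) : ℤ) * P2 ((2 * T ^ 7 : ℕ) : ℤ)) *
          P2 (-((T ^ ν : ℕ) : ℤ))) := by
          refine mul_le_mul_of_nonneg_left (mul_le_mul_of_nonneg_right
            (mul_le_mul h3 h4 (by positivity) (P2_pos _).le) (P2_pos _).le) (P2_pos _).le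
      _ = P2 (((T ^ 6 : ℕ) : ℤ) + ((((T ^ 6 : ℕ) : ℤ) + ((2 * T ^ 7 : ℕ) : ℤ)) +
          (-((T ^ ν : ℕ) : ℤ)))) := by rw [← P2_add, ← P2_add, ← P2_add]
      _ ≤ _ := by
          refine P2_mono ?_
          have e1 := sixteen hT (a := 6) (b := 8) (by omega)
          have e2 := sixteen hT (a := 7) (b := 8) (by omega)
          omega
  -- vanishing at α
  have hGα : ∀ s : Fin l → Fin T, aeval α (gpoly T A b p s) = 0 := by
    intro s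
    by_contra hne
    have h1 := hLP _ (hSz s) hne
    rw [← P2_nat] at h1
    have h2 : ‖aeval α (gpoly T A b p s)‖ ≤ P2 ((T ^ 7 : ℕ) - (T ^ h : ℕ)) +
        P2 ((T ^ 8 : ℕ) - (T ^ ν : ℕ)) := by
      have h3 : aeval α (gpoly T A b p s) = aeval t (gpoly T A b p s) -
        (aeval t (gpoly T A b p s) - aeval α (gpoly T A b p s)) := by ring
      calc ‖aeval α (gpoly T A b p s)‖ = ‖aeval t (gpoly T A b p s) -
        (aeval t (gpoly T A b p s) - aeval α (gpoly T A b p s))‖ := by rw [← h3]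
        _ ≤ _ := (norm_sub_le _ _).trans (add_le_add (hGt s) (hdiff s))
    have h3 := h1.trans (mul_le_mul_of_nonneg_right h2 (P2_pos ((T ^ κ₁ : ℕ) : ℤ)).le)
    rw [add_mul, ← P2_add, ← P2_add] at h3
    have e0 := sixteen hT (a := 0) (b := h) (by omega)
    have e1 := sixteen hT (a := 7) (b := h) (by omega)
    have e2 := sixteen hT (a := κ₁) (b := h) (by omega)
    have e3 := sixteen hT (a := 8) (b := ν) (by omega)
    have e4 := sixteen hT (a := h) (b := ν) (by omega)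
    rw [pow_zero] at e0
    have h4 : P2 (((T ^ 7 : ℕ) : ℤ) - (T ^ h : ℕ) + (T ^ κ₁ : ℕ)) ≤ P2 (-2) :=
      P2_mono (by omega)
    have h5 : P2 (((T ^ 8 : ℕ) : ℤ) - (T ^ ν : ℕ) + (T ^ κ₁ : ℕ)) ≤ P2 (-2) :=
      P2_mono (by omega)
    have h6 : P2 (-2) = 1 / 4 := by unfold P2; norm_num
    rw [h6] at h4 h5
    linarith
  -- small values of F
  obtain ⟨ε, hε⟩ : ∃ ε : ℝ, ε = P2 ((T ^ 9 : ℕ) - (T ^ ν : ℕ)) := ⟨_, rfl⟩
  have hFs : ∀ s : Fin l → Fin T, ‖F (wt y s)‖ ≤ ε := by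
    intro s
    have h1 := hbl ‖F (wt y s)‖ (norm_nonneg _)
    have h2 := hdiff s
    rw [hGα, sub_zero, hev, norm_mul, norm_pow] at h2
    refine h1.trans ((mul_le_mul_of_nonneg_right h2 (P2_pos _).le).trans ?_)
    rw [← P2_add, hε]
    refine P2_mono ?_
    have e1 := sixteen hT (a := 8) (b := 9) (by omega)
    have e2 := sixteen hT (a := 4) (b := 9) (by omega)
    omega
  -- interpolation
  have hFdiff : Differentiable ℂ F := by rw [hF]; fun_prop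
  have hFw : ∀ w : ℂ, ‖w‖ ≤ 1 → ‖F w‖ ≤ P2 (1 - (T ^ l : ℕ)) := by
    intro w hw
    obtain ⟨Z, hZ⟩ : ∃ Z : Finset ℂ, Z = Finset.univ.image (wt y : (Fin l → Fin T) → ℂ) := ⟨_, rfl⟩
    have hZc : Z.card = T ^ l := by
      rw [hZ, Finset.card_image_of_injective _ (wt_inj sy), Finset.card_univ, Fintype.card_fun,
        Fintype.card_fin, Fintype.card_fin]
    have hZm : ∀ c ∈ Z, ∃ s : Fin l → Fin T, wt y s = c := by
      intro c hc
      rw [hZ] at hc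
      obtain ⟨s, _, hs⟩ := Finset.mem_image.1 hc
      exact ⟨s, hs⟩
    have h1 := interp F hFdiff Z (ε := ε) (G := P2 ((T ^ κ' : ℕ) + (T ^ 5 : ℕ)))
      (ρ := ((T ^ 3 : ℕ) : ℝ)) (R := ((T ^ 4 : ℕ) : ℝ)) (M := P2 ((T ^ 8 : ℕ) : ℤ))
      (by rw [← P2_zero]; exact P2_mono (by omega)) (Nat.cast_nonneg _)
      (by
        have e1 := sixteen hT (a := 3) (b := 4) (by omega)
        have e2 := sixteen hT (a := 0) (b := 3) (by omega)
        rw [pow_zero] at e2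
        have : 5 * T ^ 3 + 4 ≤ T ^ 4 := by omega
        exact_mod_cast this)
      (by
        intro c hc
        obtain ⟨s, rfl⟩ := hZm c hc
        exact wt_norm hy (by omega) s)
      (by
        intro c hc
        obtain ⟨s, rfl⟩ := hZm c hc
        exact hFs s)
      (by rw [hε]; exact (P2_pos _).le)
      (by
        intro c hc d hd hcd
        obtain ⟨s, rfl⟩ := hZm c hc
        obtain ⟨s', rfl⟩ := hZm d hd
        have hss : s ≠ s' := fun h => hcd (by rw [h])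
        have h2 := wt_sep sy hss
        have h3 : ‖wt y s - wt y s'‖⁻¹ ≤ P2 ((T ^ κ' : ℕ) : ℤ) := by
          rw [P2_neg] at h2
          exact inv_le_of_inv_le₀ (P2_pos _) h2
        have h4 : ((T ^ 4 : ℕ) : ℝ) + ((T ^ 3 : ℕ) : ℝ) ≤ P2 ((T ^ 5 : ℕ) : ℤ) := by
          rw [← Nat.cast_add]
          refine (le_P2 _).trans (P2_mono ?_)
          have e1 := sixteen hT (a := 4) (b := 5) (by omega)
          have e2 := sixteen hT (a := 3) (b := 5) (by omega)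
          omega
        rw [P2_add, mul_comm (P2 ((T ^ κ' : ℕ) : ℤ))]
        exact mul_le_mul h4 h3 (inv_nonneg.2 (norm_nonneg _)) (P2_pos _).le)
      (by
        intro z hz
        rw [hF]
        exact expSum_bound hT (by omega) hx hpB hz.le) hw
    refine h1.trans ?_
    rw [hZc]
    have b1 : ((T ^ l : ℕ) : ℝ) ≤ P2 ((T ^ l : ℕ) : ℤ) := le_P2 _
    have b2 : P2 (((T ^ κ' : ℕ) : ℤ) + (T ^ 5 : ℕ)) ^ (T ^ l) =
        P2 (((T ^ (κ' + l) : ℕ) : ℤ) + (T ^ (5 + l) : ℕ)) := by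
      rw [P2_pow]
      congr 1
      push_cast
      ring
    have b3 : (1 / 4 : ℝ) ^ (T ^ l) = P2 (-(2 * (T ^ l : ℕ) : ℤ)) := by
      have : (1 / 4 : ℝ) = P2 (-2) := by unfold P2; norm_num
      rw [this, P2_pow]
      congr 1
    have b4 : 2 * (((T ^ l : ℕ) : ℝ) * (ε * P2 (((T ^ κ' : ℕ) : ℤ) + (T ^ 5 : ℕ)) ^ (T ^ l))) ≤
        P2 (-((T ^ l : ℕ) : ℤ)) := by
      rw [b2, hε, ← P2_one]
      calc P2 1 * (((T ^ l : ℕ) : ℝ) * (P2 (((T ^ 9 : ℕ) : ℤ) - (T ^ ν : ℕ)) *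
            P2 (((T ^ (κ' + l) : ℕ) : ℤ) + (T ^ (5 + l) : ℕ))))
          ≤ P2 1 * (P2 ((T ^ l : ℕ) : ℤ) * (P2 (((T ^ 9 : ℕ) : ℤ) - (T ^ ν : ℕ)) *
            P2 (((T ^ (κ' + l) : ℕ) : ℤ) + (T ^ (5 + l) : ℕ)))) :=
            mul_le_mul_of_nonneg_left (mul_le_mul_of_nonneg_right b1
              (mul_pos (P2_pos _) (P2_pos _)).le) (P2_pos _).le
        _ = P2 (1 + (((T ^ l : ℕ) : ℤ) + ((((T ^ 9 : ℕ) : ℤ) - (T ^ ν : ℕ)) +
            (((T ^ (κ' + l) : ℕ) : ℤ) + (T ^ (5 + l) : ℕ))))) := by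
            rw [← P2_add, ← P2_add, ← P2_add]
        _ ≤ _ := by
            refine P2_mono ?_
            have e0 := sixteen hT (a := 0) (b := ν) (by omega)
            have e1 := sixteen hT (a := l) (b := ν) (by omega)
            have e2 := sixteen hT (a := 9) (b := ν) (by omega)
            have e3 := sixteen hT (a := κ' + l) (b := ν) (by omega)
            have e4 := sixteen hT (a := 5 + l) (b := ν) (by omega)
            rw [pow_zero] at e0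
            omega
    have b5 : P2 ((T ^ 8 : ℕ) : ℤ) * (1 / 4 : ℝ) ^ (T ^ l) ≤ P2 (-((T ^ l : ℕ) : ℤ)) := by
      rw [b3, ← P2_add]
      refine P2_mono ?_
      have e1 := sixteen hT (a := 8) (b := l) (by omega)
      omega
    have b6 : P2 (1 - (T ^ l : ℕ)) = 2 * P2 (-((T ^ l : ℕ) : ℤ)) := by
      rw [← P2_one, ← P2_add, sub_eq_add_neg]
    rw [b6]
    linarith
  -- extraction
  apply hp0
  funext u
  by_contra hu
  have h1 := extract (Λ := Fin (2 * h) → Fin T) (fun u => (p u : ℂ)) (wt x) (ε := P2 (1 - (T ^ l : ℕ)))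
    (W := ((T ^ 3 : ℕ) : ℝ)) (δ := P2 (-((T ^ κ : ℕ) : ℤ))) (Nat.cast_nonneg _)
    (wt_norm hx (by omega)) (P2_pos _).le (fun a c hac => wt_sep sx hac) (fun z hz => by
      have := hFw z hz
      rw [hF] at this
      exact this) u
  rw [Fintype.card_fun, Fintype.card_fin, Fintype.card_fin] at h1
  obtain ⟨n, hn⟩ : ∃ n : ℕ, n = T ^ (2 * h) := ⟨_, rfl⟩
  rw [← hn] at h1
  have hp1 : (1 : ℝ) ≤ ‖((p u : ℤ) : ℂ)‖ := by
    rw [Complex.norm_intCast, ← Int.cast_abs]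
    exact_mod_cast Int.one_le_abs hu
  have h2 : P2 (-((T ^ κ * n : ℕ) : ℤ)) ≤ ‖((p u : ℤ) : ℂ)‖ * P2 (-((T ^ κ : ℕ) : ℤ)) ^ (n - 1) := by
    have e1 : P2 (-((T ^ κ * n : ℕ) : ℤ)) ≤ P2 (-((T ^ κ : ℕ) : ℤ)) ^ (n - 1) := by
      rw [P2_pow]
      refine P2_mono ?_
      have e2 : T ^ κ * (n - 1) ≤ T ^ κ * n := Nat.mul_le_mul_left _ (Nat.sub_le _ _)
      have e3 : ((T ^ κ * (n - 1) : ℕ) : ℤ) ≤ ((T ^ κ * n : ℕ) : ℤ) := by exact_mod_cast e2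
      rw [neg_mul, ← Nat.cast_mul]
      omega
    refine e1.trans ?_
    have e4 : 0 ≤ P2 (-((T ^ κ : ℕ) : ℤ)) ^ (n - 1) := pow_nonneg (P2_pos _).le _
    nlinarith
  have h3 : (((n.factorial : ℕ)) : ℝ) ≤ P2 ((T ^ 2 * n : ℕ) : ℤ) := by
    rw [P2_nat]
    have e1 : n.factorial ≤ 2 ^ (T ^ 2 * n) := by
      refine (Nat.factorial_le_pow n).trans ?_
      calc n ^ n ≤ (2 ^ (T ^ 2)) ^ n := Nat.pow_le_pow_left (by rw [hn]; exact card_le (by omega)) _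
        _ = _ := by rw [pow_mul]
    exact_mod_cast e1
  have h4 : (1 + ((T ^ 3 : ℕ) : ℝ)) ^ (n - 1) ≤ P2 ((T ^ 4 * n : ℕ) : ℤ) := by
    have e1 : (1 + ((T ^ 3 : ℕ) : ℝ)) ≤ P2 ((T ^ 4 : ℕ) : ℤ) := by
      have e2 : (1 + ((T ^ 3 : ℕ) : ℝ)) = ((1 + T ^ 3 : ℕ) : ℝ) := by push_cast; ring
      rw [e2]
      refine (le_P2 _).trans (P2_mono ?_)
      have f1 := sixteen hT (a := 3) (b := 4) (by omega)
      have f2 := sixteen hT (a := 0) (b := 3) (by omega)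
      rw [pow_zero] at f2
      omega
    refine (pow_le_pow_left₀ (by positivity) e1 _).trans ?_
    rw [P2_pow]
    refine P2_mono ?_
    have e3 : T ^ 4 * (n - 1) ≤ T ^ 4 * n := Nat.mul_le_mul_left _ (Nat.sub_le _ _)
    exact_mod_cast e3
  have h5 : P2 (-((T ^ κ * n : ℕ) : ℤ)) ≤ (P2 ((T ^ 2 * n : ℕ) : ℤ) * P2 (1 - (T ^ l : ℕ))) *
      P2 ((T ^ 4 * n : ℕ) : ℤ) := by
    refine h2.trans (h1.trans ?_)
    exact mul_le_mul (mul_le_mul_of_nonneg_right h3 (P2_pos _).le) h4 (by positivity)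
      (mul_pos (P2_pos _) (P2_pos _)).le
  rw [← P2_add, ← P2_add] at h5
  have h6 : ¬ P2 (((T ^ 2 * n : ℕ) : ℤ) + (1 - (T ^ l : ℕ)) + (T ^ 4 * n : ℕ)) <
    P2 (-((T ^ κ * n : ℕ) : ℤ)) := not_lt.2 h5
  apply h6
  refine P2_lt ?_
  have g1 : T ^ 2 * n = T ^ (2 + 2 * h) := by rw [hn, ← pow_add]
  have g2 : T ^ 4 * n = T ^ (4 + 2 * h) := by rw [hn, ← pow_add]
  have g3 : T ^ κ * n = T ^ (κ + 2 * h) := by rw [hn, ← pow_add]
  rw [g1, g2, g3]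
  have e0 := sixteen hT (a := 0) (b := l) (by omega)
  have e1 := sixteen hT (a := 2 + 2 * h) (b := l) (by omega)
  have e2 := sixteen hT (a := 4 + 2 * h) (b := l) (by omega)
  have e3 := sixteen hT (a := κ + 2 * h) (b := l) (by omega)
  rw [pow_zero] at e0
  omega

end Pool.Agent.Zk25.LT
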