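import Mathlib

/-!
# Fields of bounded transcendence degree
-/

set_option autoImplicit false

namespace Pool.Agent.Zk25.LT

open MvPolynomial

theorem isAlg_of_subset {A B : Type*} [Field A] [Field B] [Algebra A ℂ] [Algebra B ℂ]
    (h : ∀ a : A, ∃ b : B, algebraMap B ℂ b = algebraMap A ℂ a) {g : ℂ} (hg : IsAlgebraic A g) :
    IsAlgebraic B g := by
  obtain ⟨p, hp0, hp⟩ := hg
  have h1 : p.map (algebraMap A ℂ) ∈ Polynomial.lifts (algebraMap B ℂ) := by
    rw [Polynomial.lifts_iff_coeff_lifts]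
    intro n
    rw [Polynomial.coeff_map]
    obtain ⟨b, hb⟩ := h (p.coeff n)
    exact ⟨b, hb⟩
  rw [Polynomial.mem_lifts] at h1
  obtain ⟨q, hq⟩ := h1
  refine ⟨q, ?_, ?_⟩
  · rintro rfl
    rw [Polynomial.map_zero] at hq
    exact hp0 ((Polynomial.map_eq_zero _).1 hq.symm)
  · rw [Polynomial.aeval_def, ← Polynomial.eval_map, hq, Polynomial.eval_map, ← Polynomial.aeval_def]
    exact hp

/-- a field of transcendence degree at most `r` is algebraic over a field with `r` generators -/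
theorem exists_basis (K : IntermediateField ℚ ℂ) {r : ℕ} (hr : Algebra.trdeg ℚ K ≤ r) :
    ∃ θ : Fin r → ℂ, ∀ g : ℂ, IsAlgebraic K g →
      IsAlgebraic (IntermediateField.adjoin ℚ (Set.range θ)) g := by
  classical
  obtain ⟨s, hs⟩ := exists_isTranscendenceBasis ℚ K
  have hcard : Cardinal.mk s ≤ Cardinal.mk (Fin r) := by
    rw [hs.cardinalMk_eq_trdeg, Cardinal.mk_fin]
    exact hr
  obtain ⟨e⟩ := (Cardinal.le_def _ _).1 hcard
  obtain ⟨θ, hθ⟩ : ∃ θ : Fin r → ℂ, ∀ a : s, θ (e a) = ((a : K) : ℂ) := by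
    refine ⟨fun i => if h : ∃ a : s, e a = i then ((h.choose : K) : ℂ) else 0, fun a => ?_⟩
    have h : ∃ a' : s, e a' = e a := ⟨a, rfl⟩
    simp only [dif_pos h]
    rw [e.injective h.choose_spec]
  obtain ⟨E, hE⟩ : ∃ E : IntermediateField ℚ ℂ, E = IntermediateField.adjoin ℚ (Set.range θ) :=
    ⟨_, rfl⟩
  have halg := hs.isAlgebraic_field
  have h1 : ∀ a : IntermediateField.adjoin ℚ (Set.range ((↑) : s → K)), ((a : K) : ℂ) ∈ E := by
    rintro ⟨a, ha⟩
    induction ha using IntermediateField.adjoin_induction with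
    | mem x hx =>
      obtain ⟨c, rfl⟩ := hx
      rw [hE]
      exact IntermediateField.subset_adjoin _ _ ⟨e c, hθ c⟩
    | algebraMap q =>
      have h2 : ((algebraMap ℚ K q : K) : ℂ) = algebraMap ℚ ℂ q := by simp
      show ((algebraMap ℚ K q : K) : ℂ) ∈ E
      rw [h2]
      exact E.algebraMap_mem q
    | add x y hx hy ihx ihy => exact E.add_mem ihx ihy
    | inv x hx ih => exact E.inv_mem ih
    | mul x y hx hy ihx ihy => exact E.mul_mem ihx ihy
  have hK : ∀ k : K, IsAlgebraic E (k : ℂ) := by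
    intro k
    let _ : Algebra (IntermediateField.adjoin ℚ (Set.range ((↑) : s → K))) ℂ :=
      ((algebraMap K ℂ).comp (algebraMap (IntermediateField.adjoin ℚ (Set.range ((↑) : s → K))) K)).toAlgebra
    refine isAlg_of_subset (A := IntermediateField.adjoin ℚ (Set.range ((↑) : s → K))) (B := E) ?_ ?_
    · intro a
      exact ⟨⟨((a : K) : ℂ), h1 a⟩, rfl⟩
    · obtain ⟨p, hp0, hp⟩ := halg.isAlgebraic k
      refine ⟨p, hp0, ?_⟩
      rw [Polynomial.aeval_def] at hp ⊢
      have h2 : (algebraMap (IntermediateField.adjoin ℚ (Set.range ((↑) : s → K))) ℂ) =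
        (algebraMap K ℂ).comp (algebraMap (IntermediateField.adjoin ℚ (Set.range ((↑) : s → K))) K) :=
        rfl
      have h3 : (k : ℂ) = algebraMap K ℂ k := rfl
      rw [h2, h3, ← Polynomial.hom_eval₂, hp, map_zero]
  refine ⟨θ, fun g hg => ?_⟩
  rw [← hE]
  have h2 : IsAlgebraic (algebraicClosure E ℂ) g := by
    refine isAlg_of_subset (A := K) ?_ hg
    intro k
    exact ⟨⟨(k : ℂ), mem_algebraicClosure_iff.2 (hK k)⟩, rfl⟩
  exact h2.restrictScalars E

theorem mem_cons {r : ℕ} (θ : Fin r → ℂ) (w g : ℂ)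
    (h : g ∈ IntermediateField.adjoin (IntermediateField.adjoin ℚ (Set.range θ)) ({w} : Set ℂ)) :
    g ∈ IntermediateField.adjoin ℚ (Set.range (Fin.cons w θ : Fin (r + 1) → ℂ)) := by
  have hle : IntermediateField.adjoin ℚ (Set.range θ) ≤
      IntermediateField.adjoin ℚ (Set.range (Fin.cons w θ : Fin (r + 1) → ℂ)) := by
    refine IntermediateField.adjoin.mono _ _ _ ?_
    rintro z ⟨i, rfl⟩
    exact ⟨i.succ, by rw [Fin.cons_succ]⟩
  have h1 : IntermediateField.adjoin (IntermediateField.adjoin ℚ (Set.range θ)) ({w} : Set ℂ) ≤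
      IntermediateField.extendScalars hle := by
    rw [IntermediateField.adjoin_le_iff]
    rintro z hz
    rw [Set.mem_singleton_iff] at hz
    refine IntermediateField.subset_adjoin ℚ _ ?_
    exact ⟨0, by rw [Fin.cons_zero, hz]⟩
  exact h1 h

/-- finitely many elements which are algebraic over a field with `r` generators lie in a field with
`r + 1` generators -/
theorem exists_gens {r : ℕ} (θ : Fin r → ℂ) (S : Finset ℂ)
    (hS : ∀ g ∈ S, IsAlgebraic (IntermediateField.adjoin ℚ (Set.range θ)) g) :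
    ∃ ω : ℂ, IsAlgebraic (IntermediateField.adjoin ℚ (Set.range θ)) ω ∧
      ∀ g ∈ S, g ∈ IntermediateField.adjoin ℚ (Set.range (Fin.cons ω θ : Fin (r + 1) → ℂ)) := by
  classical
  let E : IntermediateField ℚ ℂ := IntermediateField.adjoin ℚ (Set.range θ)
  have hfin : FiniteDimensional E (IntermediateField.adjoin E (S : Set ℂ)) :=
    IntermediateField.finiteDimensional_adjoin fun x hx => (hS x hx).isIntegral
  obtain ⟨ω, hω⟩ := Field.exists_primitive_element E (IntermediateField.adjoin E (S : Set ℂ))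
  refine ⟨(ω : ℂ), ?_, fun g hg => mem_cons θ _ g ?_⟩
  · exact (Algebra.IsAlgebraic.isAlgebraic (R := E) ω).algebraMap
  have h1 : g ∈ IntermediateField.adjoin E ({(ω : ℂ)} : Set ℂ) := by
    have h2 : (⟨g, IntermediateField.subset_adjoin E _ hg⟩ : IntermediateField.adjoin E (S : Set ℂ)) ∈
        IntermediateField.adjoin E {ω} := by rw [hω]; trivial
    have h3 : g ∈ (IntermediateField.adjoin E {ω}).map (IntermediateField.adjoin E (S : Set ℂ)).val :=
      ⟨_, h2, rfl⟩
    rw [IntermediateField.adjoin_map, Set.image_singleton] at h3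
    exact h3
  exact h1

/-- elements of a finitely generated field are quotients of integral polynomials in the generators -/
theorem ratfun {R : ℕ} (t : Fin R → ℂ) {g : ℂ} (hg : g ∈ IntermediateField.adjoin ℚ (Set.range t)) :
    ∃ A b : MvPolynomial (Fin R) ℤ, aeval t b ≠ 0 ∧ aeval t b * g = aeval t A := by
  induction hg using IntermediateField.adjoin_induction with
  | mem x hx =>
    obtain ⟨i, rfl⟩ := hx
    exact ⟨MvPolynomial.X i, 1, by simp, by simp⟩
  | algebraMap q =>
    refine ⟨MvPolynomial.C q.num, MvPolynomial.C (q.den : ℤ), ?_, ?_⟩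
    · rw [algHom_C]
      simp [q.den_ne_zero]
    · rw [algHom_C, algHom_C]
      simp only [algebraMap_int_eq, eq_intCast, Int.cast_natCast, eq_ratCast]
      have h1 : ((q.den : ℚ)) * q = q.num := by rw [mul_comm]; exact Rat.mul_den_eq_num q
      exact_mod_cast congrArg (fun a : ℚ => (a : ℂ)) h1
  | add x y hx hy ihx ihy =>
    obtain ⟨A, b, hb, h⟩ := ihx
    obtain ⟨A', b', hb', h'⟩ := ihy
    refine ⟨A * b' + A' * b, b * b', ?_, ?_⟩
    · rw [map_mul]; exact mul_ne_zero hb hb'
    · rw [map_add, map_mul, map_mul, map_mul, ← h, ← h']; ring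
  | inv x hx ih =>
    obtain ⟨A, b, hb, h⟩ := ih
    by_cases hx0 : x = 0
    · refine ⟨0, 1, by simp, ?_⟩
      rw [hx0]; simp
    · refine ⟨b, A, ?_, ?_⟩
      · rw [← h]; exact mul_ne_zero hb hx0
      · rw [← h, mul_assoc, mul_inv_cancel₀ hx0, mul_one]
  | mul x y hx hy ihx ihy =>
    obtain ⟨A, b, hb, h⟩ := ihx
    obtain ⟨A', b', hb', h'⟩ := ihy
    refine ⟨A * A', b * b', ?_, ?_⟩
    · rw [map_mul]; exact mul_ne_zero hb hb'
    · rw [map_mul, map_mul, ← h, ← h']; ring

/-- a common denominator -/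
theorem common {R : ℕ} (t : Fin R → ℂ) {ι : Type*} [Fintype ι] (g : ι → ℂ)
    (hg : ∀ i, g i ∈ IntermediateField.adjoin ℚ (Set.range t)) :
    ∃ (b : MvPolynomial (Fin R) ℤ) (A : ι → MvPolynomial (Fin R) ℤ), aeval t b ≠ 0 ∧
      ∀ i, aeval t b * g i = aeval t (A i) := by
  classical
  choose A b hb h using fun i => ratfun t (hg i)
  refine ⟨∏ i, b i, fun i => A i * ∏ j ∈ Finset.univ.erase i, b j, ?_, fun i => ?_⟩
  · rw [map_prod]
    exact Finset.prod_ne_zero_iff.2 fun i _ => hb i
  · have h1 : ∏ j, b j = b i * ∏ j ∈ Finset.univ.erase i, b j :=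
      (Finset.mul_prod_erase Finset.univ b (Finset.mem_univ i)).symm
    rw [h1, map_mul, map_mul, ← h i]
    ring

end Pool.Agent.Zk25.LT
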