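import Pool.Agent.Zk25.LT.Gap
import Pool.Agent.Zk25.LT.Fld

/-!
# The general criterion, with explicit bounds
-/

set_option autoImplicit false

namespace Pool.Agent.Zk25.LT

open MvPolynomial Filter

/-- the number of exponentials which is sufficient -/
def N₀ (R κ : ℕ) : ℕ := 3 ^ (R + 1) * (36 + 2 * R + 2 * κ + 7 * 3 ^ (R * (R + 1)))

theorem fin_contra {T R κ N : ℕ} (hN : N₀ R κ ≤ N) (hT : N * N + 2 * N + 16 ≤ T) (t : Fin R → ℂ)
    (ht : ∀ i, ‖t i‖ ≤ T) {x y : ℕ → ℂ} {A : ℕ → ℕ → MvPolynomial (Fin R) ℤ}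
    {b : MvPolynomial (Fin R) ℤ} (hx : ∀ i < N, ‖x i‖ ≤ T) (hy : ∀ j < N, ‖y j‖ ≤ T)
    (hb : Sz T (2 ^ T) b) (hA : ∀ i < N, ∀ j < N, Sz T (2 ^ T) (A i j))
    (hb0 : 1 ≤ ‖aeval t b‖ * 2 ^ T)
    (hE : ∀ i < N, ∀ j < N, aeval t b * Complex.exp (x i * y j) = aeval t (A i j))
    (sx : ∀ m ≤ N, Sep T κ m x) (sy : ∀ m ≤ N, Sep T κ m y) : False := by
  classical
  have hT16 : 16 ≤ T := by omega
  obtain ⟨E, hEd⟩ : ∃ E, E = 36 + 2 * R + 2 * κ + 7 * 3 ^ (R * (R + 1)) := ⟨_, rfl⟩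
  obtain ⟨aa, haa⟩ : ∃ aa : ℕ → ℕ, aa = fun j => 7 * 3 ^ (R * (R + 1 - j)) - 1 := ⟨_, rfl⟩
  obtain ⟨bb, hbb⟩ : ∃ bb : ℕ → ℕ, bb = fun j => 3 ^ j * E := ⟨_, rfl⟩
  obtain ⟨j, hj, ρ, e, hI, hD⟩ := gap (by omega : 1 ≤ T) t aa bb
  have h3 : ∀ m : ℕ, 1 ≤ 3 ^ m := fun m => Nat.one_le_pow _ _ (by omega)
  have ha6 : 6 ≤ aa (j + 1) := by
    rw [haa]
    have := h3 (R * (R + 1 - (j + 1)))
    show 6 ≤ 7 * 3 ^ (R * (R + 1 - (j + 1))) - 1
    omega
  have hup : up R (aa (j + 1)) = aa j := by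
    have e1 := up_eq R (aa (j + 1))
    have e2 : aa (j + 1) + 1 = 7 * 3 ^ (R * (R + 1 - (j + 1))) := by
      rw [haa]
      have := h3 (R * (R + 1 - (j + 1)))
      show 7 * 3 ^ (R * (R + 1 - (j + 1))) - 1 + 1 = _
      omega
    have e3 : aa j + 1 = 7 * 3 ^ (R * (R + 1 - j)) := by
      rw [haa]
      have := h3 (R * (R + 1 - j))
      show 7 * 3 ^ (R * (R + 1 - j)) - 1 + 1 = _
      omega
    have e4 : 3 ^ (R * (R + 1 - j)) = 3 ^ R * 3 ^ (R * (R + 1 - (j + 1))) := by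
      rw [← pow_add]
      congr 1
      have : R + 1 - j = (R + 1 - (j + 1)) + 1 := by omega
      rw [this]
      ring
    rw [e2] at e1
    rw [e4] at e3
    have e5 : 3 ^ R * (7 * 3 ^ (R * (R + 1 - (j + 1)))) = 7 * (3 ^ R * 3 ^ (R * (R + 1 - (j + 1)))) := by
      ring
    omega
  have hEb : E ≤ bb j := by
    rw [hbb]
    have := h3 j
    show E ≤ 3 ^ j * E
    nlinarith
  have hbb' : bb (j + 1) = 3 * bb j := by
    rw [hbb]
    show 3 ^ (j + 1) * E = 3 * (3 ^ j * E)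
    rw [pow_succ]
    ring
  have haj : aa j ≤ 7 * 3 ^ (R * (R + 1)) := by
    rw [haa]
    have : 3 ^ (R * (R + 1 - j)) ≤ 3 ^ (R * (R + 1)) :=
      Nat.pow_le_pow_right (by omega) (Nat.mul_le_mul_left _ (by omega))
    show 7 * 3 ^ (R * (R + 1 - j)) - 1 ≤ _
    omega
  have haj' : aa (j + 1) ≤ aa j := by rw [← hup]; exact le_up _ _
  -- parameters
  obtain ⟨κ₁, hκ₁⟩ : ∃ κ₁, κ₁ = bb j + R := ⟨_, rfl⟩
  obtain ⟨h, hh⟩ : ∃ h, h = 10 + κ₁ := ⟨_, rfl⟩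
  obtain ⟨l, hl⟩ : ∃ l, l = 2 * h + κ + 5 := ⟨_, rfl⟩
  obtain ⟨ν, hν⟩ : ∃ ν, ν = l + κ + 10 := ⟨_, rfl⟩
  have hlN : l ≤ N := by
    have e1 : l ≤ 3 * bb j := by omega
    have e2 : 3 * bb j ≤ N₀ R κ := by
      rw [← hbb', hbb]
      unfold N₀
      show 3 ^ (j + 1) * E ≤ _
      rw [hEd]
      exact Nat.mul_le_mul_right _ (Nat.pow_le_pow_right (by omega) (by omega))
    omega
  choose β hβ f hf1 hf2 hf3 using fun k => near_point hT16 hI haj' (b' := bb (j + 1))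
    (by omega) (ν := ν) (by omega) (hD k)
  have hs : ∀ i, ‖(t ∘ e) i‖ ≤ ((2 * T : ℕ) : ℝ) := by
    intro i
    have := ht (e i)
    have hT0 : (0 : ℝ) ≤ T := Nat.cast_nonneg _
    simp only [Function.comp_apply]
    push_cast
    linarith
  have hβ2 : ∀ k, ‖β k‖ ≤ ((2 * T : ℕ) : ℝ) := by
    intro k
    have h1 := hβ k
    have h2 : (1 : ℝ) ≤ 2 ^ (T ^ ν) := one_le_pow₀ (by norm_num)
    have h4 : ‖t k - β k‖ ≤ 1 := by
      have := norm_nonneg (t k - β k)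
      nlinarith
    have h5 : ‖β k‖ ≤ ‖t k‖ + ‖t k - β k‖ := by
      have h3 : β k = t k - (t k - β k) := by ring
      calc ‖β k‖ = ‖t k - (t k - β k)‖ := by rw [← h3]
        _ ≤ _ := norm_sub_le _ _
    have h6 := ht k
    have h7 : (16 : ℝ) ≤ T := by exact_mod_cast hT16
    push_cast
    linarith
  have hLP0 : LPt T (t ∘ e) (up R (aa (j + 1))) (bb j) := by
    rw [hup]
    intro g hg hg0
    exact hI g (by rintro rfl; simp at hg0) hg
  obtain ⟨n, p, ι, j', _, h2, _, h4⟩ := chain hT16 hs R (aa (j + 1)) le_rfl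
    (by rw [hup]; omega) hLP0 β hβ2 (fun k => ⟨f k, hf1 k, hf2 k, hf3 k⟩)
  have hLP : ∀ g : MvPolynomial (Fin R) ℤ, Sz (T ^ 6) (2 ^ (T ^ 6)) g → aeval β g ≠ 0 →
      1 ≤ ‖aeval β g‖ * 2 ^ (T ^ κ₁) := by
    intro g hg hg0
    have e1 : aeval p (rename j' g) = aeval β g := by
      rw [aeval_rename, h2]
    have e2 := (h4.mono (by omega) ha6) (rename j' g) (hg.rename _) (by rw [e1]; exact hg0)
    rw [e1] at e2
    rw [hκ₁]
    exact e2
  have hsz : 2 * h * l + 2 * h + l ≤ T := by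
    have e1 : 2 * h ≤ N := by omega
    have e2 : 2 * h * l ≤ N * N := Nat.mul_le_mul e1 hlN
    omega
  exact core (T := T) (h := h) (l := l) (κ := κ) (κ' := κ) (κ₁ := κ₁) (ν := ν)
    (t := t) (α := β) (x := x) (y := y) (A := A) (b := b) hT16 hsz (by omega) (by omega) (by omega)
    (fun i hi => hx i (by omega)) (fun i hi => hy i (by omega)) ht hβ hb
    (fun i hi j hj => hA i (by omega) j (by omega)) hb0
    (fun i hi j hj => hE i (by omega) j (by omega)) hLP (sx _ (by omega)) (sy _ hlN)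

theorem ev_norm (z : ℂ) : ∀ᶠ T : ℕ in atTop, ‖z‖ ≤ T :=
  (tendsto_natCast_atTop_atTop (R := ℝ)).eventually_ge_atTop _

theorem ev_Sz {σ : Type*} (f : MvPolynomial σ ℤ) : ∀ᶠ T : ℕ in atTop, Sz T (2 ^ T) f := by
  filter_upwards [eventually_ge_atTop f.totalDegree, eventually_ge_atTop (len f)] with T h1 h2
  exact ⟨h1, h2.trans (Nat.lt_two_pow_self).le⟩

/-- the conditions for the first `m` numbers follow from those for more numbers -/
theorem Sep.mono {T k m n : ℕ} {x : ℕ → ℂ} (h : Sep T k n x) (hmn : m ≤ n) : Sep T k m x := by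
  classical
  intro s hs hsT
  obtain ⟨s', hs'⟩ : ∃ s' : Fin n → ℤ, s' = fun i : Fin n => if h : (i : ℕ) < m then s ⟨i, h⟩ else 0 :=
    ⟨_, rfl⟩
  have h1 := h s' (by
    intro h0
    apply hs
    funext i
    have h2 := congrFun h0 ⟨i, i.2.trans_le hmn⟩
    rw [hs'] at h2
    simpa using h2) (by
    intro i
    rw [hs']
    by_cases hi : (i : ℕ) < m
    · simp only [hi, dif_pos]
      exact hsT _
    · simp only [hi, dif_neg, not_false_eq_true, abs_zero]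
      exact Int.natCast_nonneg _)
  have h2 : ∑ i, (s' i : ℂ) * x i = ∑ i, (s i : ℂ) * x i := by
    obtain ⟨g, hg⟩ : ∃ g : ℕ → ℂ, g = fun i => if h : i < m then (s ⟨i, h⟩ : ℂ) * x i else 0 :=
      ⟨_, rfl⟩
    have e1 : ∑ i, (s' i : ℂ) * x i = ∑ i : Fin n, g i := by
      refine Finset.sum_congr rfl fun i _ => ?_
      rw [hs', hg]
      by_cases hi : (i : ℕ) < m
      · simp only [hi, dif_pos]
      · simp only [hi, dif_neg, not_false_eq_true, Int.cast_zero, zero_mul]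
    have e2 : ∑ i, (s i : ℂ) * x i = ∑ i : Fin m, g i := by
      refine Finset.sum_congr rfl fun i _ => ?_
      rw [hg]
      simp only [i.2, dif_pos]
    rw [e1, e2, Fin.sum_univ_eq_sum_range g n, Fin.sum_univ_eq_sum_range g m]
    symm
    refine Finset.sum_subset (Finset.range_subset_range.2 hmn) fun i _ hi => ?_
    rw [hg]
    simp only [Finset.mem_range] at hi
    simp only [hi, dif_neg, not_false_eq_true]
  rwa [h2] at h1

/-- **the general criterion** -/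
theorem crit (r κ N : ℕ) (hN : N₀ (r + 1) κ ≤ N) (x y : ℕ → ℂ)
    (hs : ∀ T₀ : ℕ, ∃ T, T₀ ≤ T ∧ Sep T κ N x ∧ Sep T κ N y)
    (K : IntermediateField ℚ ℂ) (hK : Algebra.trdeg ℚ K ≤ r) :
    ∃ i < N, ∃ j < N, ¬ IsAlgebraic K (Complex.exp (x i * y j)) := by
  classical
  by_contra hcon
  push Not at hcon
  obtain ⟨θ, hθ⟩ := exists_basis K hK
  obtain ⟨ω, _, hω⟩ := exists_gens θ (Finset.univ.image fun p : Fin N × Fin N =>
    Complex.exp (x p.1 * y p.2)) (by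
      intro g hg
      obtain ⟨p, _, rfl⟩ := Finset.mem_image.1 hg
      exact hθ _ (hcon p.1 p.1.2 p.2 p.2.2))
  obtain ⟨t, ht⟩ : ∃ t : Fin (r + 1) → ℂ, t = Fin.cons ω θ := ⟨_, rfl⟩
  rw [← ht] at hω
  obtain ⟨b, A', hb, hA'⟩ := common t (fun p : Fin N × Fin N => Complex.exp (x p.1 * y p.2))
    (fun p => hω _ (Finset.mem_image_of_mem _ (Finset.mem_univ p)))
  obtain ⟨A, hA⟩ : ∃ A : ℕ → ℕ → MvPolynomial (Fin (r + 1)) ℤ, ∀ (i j : ℕ) (hi : i < N) (hj : j < N),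
      A i j = A' (⟨i, hi⟩, ⟨j, hj⟩) := by
    refine ⟨fun i j => if h : i < N ∧ j < N then A' (⟨i, h.1⟩, ⟨j, h.2⟩) else 0, ?_⟩
    intro i j hi hj
    simp only [dif_pos (And.intro hi hj)]
  have e1 : ∀ᶠ T : ℕ in atTop, ∀ i, ‖t i‖ ≤ T := eventually_all.2 fun i => ev_norm _
  have e2 : ∀ᶠ T : ℕ in atTop, ∀ i ∈ Finset.range N, ‖x i‖ ≤ T :=
    (Filter.eventually_all_finset _).2 fun i _ => ev_norm _
  have e3 : ∀ᶠ T : ℕ in atTop, ∀ i ∈ Finset.range N, ‖y i‖ ≤ T :=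
    (Filter.eventually_all_finset _).2 fun i _ => ev_norm _
  have e4 : ∀ᶠ T : ℕ in atTop, ∀ i ∈ Finset.range N, ∀ j ∈ Finset.range N,
      Sz T (2 ^ T) (A i j) :=
    (Filter.eventually_all_finset _).2 fun i _ => (Filter.eventually_all_finset _).2 fun j _ => ev_Sz _
  have e5 : ∀ᶠ T : ℕ in atTop, 1 ≤ ‖aeval t b‖ * 2 ^ T := by
    filter_upwards [ev_norm ((aeval t b)⁻¹)] with T hT
    have h1 : 0 < ‖aeval t b‖ := norm_pos_iff.2 hb
    have h2 : (T : ℝ) ≤ 2 ^ T := by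
      have := le_P2 T
      rwa [P2_nat] at this
    rw [norm_inv] at hT
    have h3 : ‖aeval t b‖⁻¹ ≤ 2 ^ T := hT.trans h2
    calc (1 : ℝ) = ‖aeval t b‖ * ‖aeval t b‖⁻¹ := (mul_inv_cancel₀ h1.ne').symm
      _ ≤ _ := mul_le_mul_of_nonneg_left h3 h1.le
  obtain ⟨T₀, hT₀⟩ := eventually_atTop.1 (((((e1.and e2).and e3).and e4).and e5).and
    ((ev_Sz b).and (eventually_ge_atTop (N * N + 2 * N + 16))))
  obtain ⟨T, hT, hsx, hsy⟩ := hs T₀
  obtain ⟨⟨⟨⟨⟨f1, f2⟩, f3⟩, f4⟩, f5⟩, f6, f7⟩ := hT₀ T hT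
  exact fin_contra hN f7 t f1 (fun i hi => f2 i (Finset.mem_range.2 hi))
    (fun i hi => f3 i (Finset.mem_range.2 hi)) f6
    (fun i hi j hj => f4 i (Finset.mem_range.2 hi) j (Finset.mem_range.2 hj)) f5
    (fun i hi j hj => by rw [hA i j hi hj]; exact hA' (⟨i, hi⟩, ⟨j, hj⟩))
    (fun m hm => hsx.mono hm) (fun m hm => hsy.mono hm)

end Pool.Agent.Zk25.LT
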