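import Mathlib

/-!
# A zero near a point with a small value
-/

set_option autoImplicit false

namespace Pool.Agent.Zk25.LT

theorem prod_ge_pow (s : Multiset ℝ) (c : ℝ) (hc : 0 ≤ c) (h : ∀ x ∈ s, c ≤ x) :
    c ^ Multiset.card s ≤ s.prod := by
  induction s using Multiset.induction_on with
  | empty => simp
  | cons a s ih =>
    rw [Multiset.card_cons, Multiset.prod_cons, pow_succ, mul_comm]
    have h1 := h a (Multiset.mem_cons_self a s)
    exact mul_le_mul h1 (ih fun x hx => h x (Multiset.mem_cons_of_mem hx)) (by positivity)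
      (hc.trans h1)

/-- there is a zero near a point with a small value -/
theorem near_root (p : Polynomial ℂ) (hp : p.natDegree ≠ 0) (τ : ℂ) :
    ∃ β : ℂ, p.eval β = 0 ∧ ‖p.leadingCoeff‖ * ‖τ - β‖ ^ p.natDegree ≤ ‖p.eval τ‖ := by
  classical
  have hsp : p.Splits := IsAlgClosed.splits p
  have hcard : Multiset.card p.roots = p.natDegree := hsp.natDegree_eq_card_roots.symm
  have hne : p.roots.toFinset.Nonempty := by
    rw [Finset.nonempty_iff_ne_empty, Ne, Multiset.toFinset_eq_empty]
    intro h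
    rw [h, Multiset.card_zero] at hcard
    exact hp hcard.symm
  obtain ⟨β, hβ, hmin⟩ := Finset.exists_min_image p.roots.toFinset (fun b => ‖τ - b‖) hne
  rw [Multiset.mem_toFinset] at hβ
  refine ⟨β, (Polynomial.isRoot_of_mem_roots hβ), ?_⟩
  have h1 : p.eval τ = p.leadingCoeff * (p.roots.map fun b => τ - b).prod := by
    exact hsp.eval_eq_prod_roots τ
  rw [h1, norm_mul]
  refine mul_le_mul_of_nonneg_left ?_ (norm_nonneg _)
  have h2 : ‖(p.roots.map fun b => τ - b).prod‖ = (p.roots.map fun b => ‖τ - b‖).prod := by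
    have h3 := map_multiset_prod (normHom : ℂ →*₀ ℝ) (p.roots.map fun b => τ - b)
    rw [Multiset.map_map] at h3
    exact h3
  rw [h2, ← hcard]
  have h4 := prod_ge_pow (p.roots.map fun b => ‖τ - b‖) ‖τ - β‖ (norm_nonneg _) (by
    intro x hx
    obtain ⟨b, hb, rfl⟩ := Multiset.mem_map.1 hx
    exact hmin b (Multiset.mem_toFinset.2 hb))
  rwa [Multiset.card_map] at h4

theorem two_pow_add {t a b : ℕ} (ht : 2 ≤ t) : t ^ a + t ^ b ≤ t ^ (a + b + 1) := by
  have h1 : t ^ a ≤ t ^ (a + b) := Nat.pow_le_pow_right (by omega) (by omega)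
  have h2 : t ^ b ≤ t ^ (a + b) := Nat.pow_le_pow_right (by omega) (by omega)
  calc t ^ a + t ^ b ≤ 2 * t ^ (a + b) := by omega
    _ ≤ t * t ^ (a + b) := Nat.mul_le_mul_right _ ht
    _ = t ^ (a + b + 1) := by rw [pow_succ]; ring

end Pool.Agent.Zk25.LT
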