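import Pool.Agent.Zk25.LT.Osl
import Pool.Agent.Zk25.LT.Near
import Pool.Agent.Zk25.LT.Core2

/-!
# The gap principle at one scale

For every bounded point `t` and every large scale `T` there is a point `α` which satisfies Liouville's
inequality with an exponent `b` and which approximates `t` with a much larger exponent.
-/

set_option autoImplicit false

namespace Pool.Agent.Zk25.LT

open MvPolynomial

/-- Liouville's inequality at one point and one scale -/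
def LPt (T : ℕ) {n : ℕ} (p : Fin n → ℂ) (a b : ℕ) : Prop :=
  ∀ g : MvPolynomial (Fin n) ℤ, Sz (T ^ a) (2 ^ (T ^ a)) g → aeval p g ≠ 0 →
    1 ≤ ‖aeval p g‖ * 2 ^ (T ^ b)

/-- the factor lost in one step -/
def Cst (D H A : ℕ) : ℕ := ((D + 1) * (hh D H * A ^ dd D)) * (H * A ^ D) ^ D

theorem osl' {r : ℕ} (α : Fin r → ℂ) (β : ℂ) {A : ℕ} (hA : 1 ≤ A) (hα : ∀ i, ‖α i‖ ≤ A) {D H : ℕ}
    (hD : 1 ≤ D) (hH : 1 ≤ H) {f g : MvPolynomial (Fin (r + 1)) ℤ} (hf : Sz D H f) (hg : Sz D H g)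
    (hf0 : (finSuccEquiv ℤ r f).map (ev α) ≠ 0)
    (hfβ : aeval (Fin.cons β α : Fin (r + 1) → ℂ) f = 0)
    (hg0 : aeval (Fin.cons β α : Fin (r + 1) → ℂ) g ≠ 0) :
    ∃ q : MvPolynomial (Fin r) ℤ, Sz (dd D) (hh D H) q ∧ aeval α q ≠ 0 ∧
      ‖aeval α q‖ ≤ ‖aeval (Fin.cons β α : Fin (r + 1) → ℂ) g‖ * (Cst D H A : ℕ) := by
  obtain ⟨q, h1, h2, h3⟩ := osl α β (A := A) (by exact_mod_cast hA) hα hD hH hf hg hf0 hfβ hg0
  refine ⟨q, h1, h2, h3.trans (le_of_eq ?_)⟩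
  unfold Cst
  push_cast
  ring

theorem map_ne_zero_of {r : ℕ} (α : Fin r → ℂ) (X : ℂ) {f : MvPolynomial (Fin (r + 1)) ℤ}
    (h : aeval (Fin.cons X α : Fin (r + 1) → ℂ) f ≠ 0) : (finSuccEquiv ℤ r f).map (ev α) ≠ 0 := by
  intro h0
  rw [aeval_cons, h0, Polynomial.eval_zero] at h
  exact h rfl

theorem exists_of_map_ne_zero {r : ℕ} (α : Fin r → ℂ) {f : MvPolynomial (Fin (r + 1)) ℤ}
    (h : (finSuccEquiv ℤ r f).map (ev α) ≠ 0) :
    ∃ X : ℂ, aeval (Fin.cons X α : Fin (r + 1) → ℂ) f ≠ 0 := by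
  by_contra hcon
  push Not at hcon
  apply h
  refine Polynomial.funext fun z => ?_
  rw [← aeval_cons, hcon z, Polynomial.eval_zero]

theorem hh_le {T a : ℕ} (hT : 16 ≤ T) : hh (T ^ a) (2 ^ (T ^ a)) ≤ 2 ^ (7 * T ^ (3 * a)) := by
  obtain ⟨D, hD⟩ : ∃ D, D = T ^ a := ⟨_, rfl⟩
  have hD1 : 1 ≤ D := by rw [hD]; exact Nat.one_le_pow _ _ (by omega)
  have hD3 : T ^ (3 * a) = D ^ 3 := by rw [hD, ← pow_mul, mul_comm]
  rw [← hD, hD3]
  have hD2 : D ≤ 2 ^ D := (Nat.lt_two_pow_self).le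
  have e1 : hG D (2 ^ D) ≤ 2 ^ (3 * D ^ 2 + 2 * D) := by
    unfold hG
    have a1 : D + 1 ≤ 2 ^ D := Nat.lt_two_pow_self
    have a2 : (2 ^ D) ^ (D + 1) = 2 ^ (D ^ 2 + D) := by rw [← pow_mul]; congr 1; ring
    have a3 : (D * 2 ^ D) ^ D ≤ 2 ^ (2 * D ^ 2) := by
      calc (D * 2 ^ D) ^ D ≤ (2 ^ D * 2 ^ D) ^ D := Nat.pow_le_pow_left (Nat.mul_le_mul_right _ hD2) _
        _ = 2 ^ (2 * D ^ 2) := by rw [← pow_add, ← pow_mul]; congr 1; ring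
    calc (D + 1) * ((2 ^ D) ^ (D + 1) * (D * 2 ^ D) ^ D)
        ≤ 2 ^ D * (2 ^ (D ^ 2 + D) * 2 ^ (2 * D ^ 2)) :=
          Nat.mul_le_mul a1 (Nat.mul_le_mul a2.le a3)
      _ = 2 ^ (3 * D ^ 2 + 2 * D) := by rw [← pow_add, ← pow_add]; congr 1; ring
  have e2 : 1 + hG D (2 ^ D) ≤ 2 ^ (3 * D ^ 2 + 2 * D + 1) := by
    have : 1 ≤ 2 ^ (3 * D ^ 2 + 2 * D) := Nat.one_le_two_pow
    have e : 2 ^ (3 * D ^ 2 + 2 * D + 1) = 2 * 2 ^ (3 * D ^ 2 + 2 * D) := by rw [pow_succ]; ring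
    omega
  unfold hh
  have e3 : D.factorial ≤ 2 ^ (D ^ 2) := by
    calc D.factorial ≤ D ^ D := Nat.factorial_le_pow D
      _ ≤ (2 ^ D) ^ D := Nat.pow_le_pow_left hD2 _
      _ = 2 ^ (D ^ 2) := by rw [← pow_mul, pow_two]
  calc D.factorial * (1 + hG D (2 ^ D)) ^ D ≤ 2 ^ (D ^ 2) * (2 ^ (3 * D ^ 2 + 2 * D + 1)) ^ D :=
        Nat.mul_le_mul e3 (Nat.pow_le_pow_left e2 _)
    _ = 2 ^ (D ^ 2 + (3 * D ^ 2 + 2 * D + 1) * D) := by rw [← pow_mul, ← pow_add]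
    _ ≤ 2 ^ (7 * D ^ 3) := by
        refine Nat.pow_le_pow_right (by omega) ?_
        have h1 : D ≤ D ^ 3 := by
          calc D = D ^ 1 := (pow_one D).symm
            _ ≤ D ^ 3 := Nat.pow_le_pow_right hD1 (by omega)
        have h2 : D ^ 2 ≤ D ^ 3 := Nat.pow_le_pow_right hD1 (by omega)
        have h3 : (3 * D ^ 2 + 2 * D + 1) * D = 3 * D ^ 3 + 2 * D ^ 2 + D := by ring
        rw [h3]
        omega

theorem dd_le {T a : ℕ} (hT : 16 ≤ T) : dd (T ^ a) ≤ 2 * T ^ (3 * a) := by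
  obtain ⟨D, hD⟩ : ∃ D, D = T ^ a := ⟨_, rfl⟩
  have hD1 : 1 ≤ D := by rw [hD]; exact Nat.one_le_pow _ _ (by omega)
  have hD3 : T ^ (3 * a) = D ^ 3 := by rw [hD, ← pow_mul, mul_comm]
  rw [← hD, hD3]
  unfold dd
  have h2 : D ^ 2 ≤ D ^ 3 := Nat.pow_le_pow_right hD1 (by omega)
  have h3 : D * (D * (D + 1)) = D ^ 3 + D ^ 2 := by ring
  omega

theorem cst_le {T a : ℕ} (hT : 16 ≤ T) :
    Cst (T ^ a) (2 ^ (T ^ a)) (2 * T) ≤ 2 ^ (T ^ (3 * a + 2)) := by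
  have h1 := hh_le (a := a) hT
  have h2 := dd_le (a := a) hT
  obtain ⟨D, hD⟩ : ∃ D, D = T ^ a := ⟨_, rfl⟩
  have hD1 : 1 ≤ D := by rw [hD]; exact Nat.one_le_pow _ _ (by omega)
  have hD3 : T ^ (3 * a) = D ^ 3 := by rw [hD, ← pow_mul, mul_comm]
  rw [hD3, ← hD] at h1 h2
  rw [← hD]
  unfold Cst
  have hB : 2 * T ≤ 2 ^ (2 * T) := (Nat.lt_two_pow_self).le
  have a1 : (2 * T) ^ dd D ≤ 2 ^ (2 * T * (2 * D ^ 3)) := by
    calc (2 * T) ^ dd D ≤ (2 * T) ^ (2 * D ^ 3) := Nat.pow_le_pow_right (by omega) h2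
      _ ≤ (2 ^ (2 * T)) ^ (2 * D ^ 3) := Nat.pow_le_pow_left hB _
      _ = _ := by rw [← pow_mul]
  have a2 : (2 ^ D * (2 * T) ^ D) ^ D ≤ 2 ^ ((D + 2 * T * D) * D) := by
    calc (2 ^ D * (2 * T) ^ D) ^ D ≤ (2 ^ D * (2 ^ (2 * T)) ^ D) ^ D :=
          Nat.pow_le_pow_left (Nat.mul_le_mul_left _ (Nat.pow_le_pow_left hB _)) _
      _ = _ := by rw [← pow_mul, ← pow_add, ← pow_mul]
  have a3 : D + 1 ≤ 2 ^ D := Nat.lt_two_pow_self
  calc (D + 1) * (hh D (2 ^ D) * (2 * T) ^ dd D) * (2 ^ D * (2 * T) ^ D) ^ D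
      ≤ 2 ^ D * (2 ^ (7 * D ^ 3) * 2 ^ (2 * T * (2 * D ^ 3))) * 2 ^ ((D + 2 * T * D) * D) :=
        Nat.mul_le_mul (Nat.mul_le_mul a3 (Nat.mul_le_mul h1 a1)) a2
    _ = 2 ^ (D + (7 * D ^ 3 + 2 * T * (2 * D ^ 3)) + (D + 2 * T * D) * D) := by
        rw [← pow_add, ← pow_add, ← pow_add]
    _ ≤ 2 ^ (T ^ (3 * a + 2)) := by
        refine Nat.pow_le_pow_right (by omega) ?_
        have h3 : T ^ (3 * a + 2) = T * T * D ^ 3 := by
          rw [pow_add, hD3]; ring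
        rw [h3]
        have h4 : D ≤ D ^ 3 := by
          calc D = D ^ 1 := (pow_one D).symm
            _ ≤ D ^ 3 := Nat.pow_le_pow_right hD1 (by omega)
        have h5 : D ^ 2 ≤ D ^ 3 := Nat.pow_le_pow_right hD1 (by omega)
        have h6 : (D + 2 * T * D) * D = (1 + 2 * T) * D ^ 2 := by ring
        have h7 : (1 + 2 * T) * D ^ 2 ≤ (1 + 2 * T) * D ^ 3 := Nat.mul_le_mul_left _ h5
        have h8 : D + (7 * D ^ 3 + 2 * T * (2 * D ^ 3)) + (1 + 2 * T) * D ^ 3 ≤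
            (9 + 6 * T) * D ^ 3 := by nlinarith
        have h9 : (9 + 6 * T) * D ^ 3 ≤ T * T * D ^ 3 := Nat.mul_le_mul_right _ (by nlinarith)
        rw [h6]
        omega

/-- one more algebraic coordinate -/
theorem LPt.step {T n a b : ℕ} (hT : 16 ≤ T) (hab : 3 * a + 2 ≤ b) {p : Fin n → ℂ}
    (hp : ∀ i, ‖p i‖ ≤ ((2 * T : ℕ) : ℝ)) (h : LPt T p (3 * a + 2) b) {β : ℂ}
    {f : MvPolynomial (Fin (n + 1)) ℤ} (hf : Sz (T ^ a) (2 ^ (T ^ a)) f)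
    (hf0 : (finSuccEquiv ℤ n f).map (ev p) ≠ 0)
    (hfβ : aeval (Fin.cons β p : Fin (n + 1) → ℂ) f = 0) :
    LPt T (Fin.cons β p : Fin (n + 1) → ℂ) a (b + 1) := by
  intro g hg hg0
  obtain ⟨q, h1, h2, h3⟩ := osl' p β (A := 2 * T) (by omega) hp (Nat.one_le_pow _ _ (by omega))
    Nat.one_le_two_pow hf hg hf0 hfβ hg0
  have e1 := hh_le (a := a) hT
  have e2 := dd_le (a := a) hT
  have e3 := sixteen hT (a := 3 * a) (b := 3 * a + 2) (by omega)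
  have h4 := h q (h1.mono (by omega) (e1.trans (Nat.pow_le_pow_right (by omega) (by omega)))) h2
  have h5 : ((Cst (T ^ a) (2 ^ (T ^ a)) (2 * T) : ℕ) : ℝ) ≤ 2 ^ (T ^ (3 * a + 2)) := by
    exact_mod_cast cst_le (a := a) hT
  have h6 : (2 : ℝ) ^ (T ^ (3 * a + 2)) * 2 ^ (T ^ b) ≤ 2 ^ (T ^ (b + 1)) := by
    rw [← pow_add]
    refine pow_le_pow_right₀ (by norm_num) ?_
    have f1 : T ^ (3 * a + 2) ≤ T ^ b := Nat.pow_le_pow_right (by omega) hab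
    have f2 := sixteen hT (a := b) (b := b + 1) (by omega)
    omega
  calc (1 : ℝ) ≤ ‖aeval p q‖ * 2 ^ (T ^ b) := h4
    _ ≤ (‖aeval (Fin.cons β p : Fin (n + 1) → ℂ) g‖ * (Cst (T ^ a) (2 ^ (T ^ a)) (2 * T) : ℕ)) *
        2 ^ (T ^ b) := mul_le_mul_of_nonneg_right h3 (by positivity)
    _ ≤ (‖aeval (Fin.cons β p : Fin (n + 1) → ℂ) g‖ * 2 ^ (T ^ (3 * a + 2))) * 2 ^ (T ^ b) :=
        mul_le_mul_of_nonneg_right (mul_le_mul_of_nonneg_left h5 (norm_nonneg _)) (by positivity)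
    _ = ‖aeval (Fin.cons β p : Fin (n + 1) → ℂ) g‖ * (2 ^ (T ^ (3 * a + 2)) * 2 ^ (T ^ b)) := by ring
    _ ≤ _ := mul_le_mul_of_nonneg_left h6 (norm_nonneg _)

/-- the sizes needed for `q` steps -/
def up : ℕ → ℕ → ℕ
  | 0, a => a
  | q + 1, a => up q (3 * a + 2)

theorem up_eq (q : ℕ) : ∀ a, up q a + 1 = 3 ^ q * (a + 1) := by
  induction q with
  | zero => intro a; simp [up]
  | succ q ih =>
    intro a
    show up q (3 * a + 2) + 1 = _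
    rw [ih, pow_succ]
    ring

theorem le_up (q a : ℕ) : a ≤ up q a := by
  have h1 := up_eq q a
  have h2 : 1 ≤ 3 ^ q := Nat.one_le_pow _ _ (by omega)
  nlinarith

theorem LPt.mono {T n a a' b : ℕ} (hT : 1 ≤ T) {p : Fin n → ℂ} (h : LPt T p a' b) (ha : a ≤ a') :
    LPt T p a b := fun g hg hg0 => h g (hg.mono (Nat.pow_le_pow_right hT ha)
      (Nat.pow_le_pow_right (by omega) (Nat.pow_le_pow_right hT ha))) hg0

/-- several algebraic coordinates -/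
theorem chain {T ρ : ℕ} (hT : 16 ≤ T) {s : Fin ρ → ℂ} (hs : ∀ i, ‖s i‖ ≤ ((2 * T : ℕ) : ℝ))
    {a₀ b : ℕ} (q : ℕ) : ∀ (a : ℕ), a₀ ≤ a → up q a ≤ b → LPt T s (up q a) b →
    ∀ β : Fin q → ℂ, (∀ k, ‖β k‖ ≤ ((2 * T : ℕ) : ℝ)) →
    (∀ k, ∃ f : MvPolynomial (Fin (ρ + 1)) ℤ, Sz (T ^ a₀) (2 ^ (T ^ a₀)) f ∧
      (finSuccEquiv ℤ ρ f).map (ev s) ≠ 0 ∧ aeval (Fin.cons (β k) s : Fin (ρ + 1) → ℂ) f = 0) →
    ∃ (n : ℕ) (p : Fin n → ℂ) (ι : Fin ρ → Fin n) (j : Fin q → Fin n), p ∘ ι = s ∧ p ∘ j = β ∧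
      (∀ i, ‖p i‖ ≤ ((2 * T : ℕ) : ℝ)) ∧ LPt T p a (b + q) := by
  induction q with
  | zero =>
    intro a _ _ h β _ _
    exact ⟨ρ, s, id, Fin.elim0, rfl, by funext k; exact k.elim0, hs, h⟩
  | succ q ih =>
    intro a ha hab h β hβ hf
    have hab' : up q (3 * a + 2) ≤ b := hab
    have hle := le_up q (3 * a + 2)
    obtain ⟨n, p, ι, j, h1, h2, h3, h4⟩ := ih (3 * a + 2) (by omega) hab' h (fun k => β k.succ)
      (fun k => hβ k.succ) (fun k => hf k.succ)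
    obtain ⟨f, f1, f2, f3⟩ := hf 0
    obtain ⟨f', hf'⟩ : ∃ f' : MvPolynomial (Fin (n + 1)) ℤ, f' =
      rename (Fin.cons 0 (Fin.succ ∘ ι) : Fin (ρ + 1) → Fin (n + 1)) f := ⟨_, rfl⟩
    have hev : ∀ z : ℂ, aeval (Fin.cons z p : Fin (n + 1) → ℂ) f' =
        aeval (Fin.cons z s : Fin (ρ + 1) → ℂ) f := by
      intro z
      rw [hf', aeval_rename]
      congr 1
      congr 1
      funext i
      refine Fin.cases ?_ (fun i => ?_) i
      · rfl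
      · have := congrFun h1 i
        exact this
    obtain ⟨z, hz⟩ := exists_of_map_ne_zero s f2
    refine ⟨n + 1, Fin.cons (β 0) p, Fin.succ ∘ ι, Fin.cons 0 (Fin.succ ∘ j), ?_, ?_, ?_, ?_⟩
    · funext i
      exact congrFun h1 i
    · funext k
      refine Fin.cases ?_ (fun k => ?_) k
      · rfl
      · exact congrFun h2 k
    · intro i
      refine Fin.cases ?_ (fun i => ?_) i
      · exact hβ 0
      · exact h3 i
    · refine LPt.step hT (by omega) h3 h4 (f := f') ?_ (map_ne_zero_of p z (by rw [hev]; exact hz))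
        (by rw [hev]; exact f3)
      rw [hf']
      exact (f1.rename _).mono (Nat.pow_le_pow_right (by omega) ha)
        (Nat.pow_le_pow_right (by omega) (Nat.pow_le_pow_right (by omega) ha))

/-- quantitative algebraic independence -/
def Ind (T : ℕ) {R : ℕ} (t : Fin R → ℂ) (ρ : ℕ) (e : Fin ρ → Fin R) (a b : ℕ) : Prop :=
  ∀ f : MvPolynomial (Fin ρ) ℤ, f ≠ 0 → Sz (T ^ a) (2 ^ (T ^ a)) f →
    1 ≤ ‖aeval (t ∘ e) f‖ * 2 ^ (T ^ b)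

theorem Ind.injective {T R ρ a b : ℕ} (hT : 1 ≤ T) {t : Fin R → ℂ} {e : Fin ρ → Fin R}
    (h : Ind T t ρ e a b) : Function.Injective e := by
  intro i j hij
  by_contra hne
  have h1 : 1 ≤ T ^ a := Nat.one_le_pow _ _ hT
  have h2 := h (MvPolynomial.X i - MvPolynomial.X j) (by
    rw [sub_ne_zero]
    intro h'
    exact hne (MvPolynomial.X_injective h')) (by
    rw [sub_eq_add_neg]
    refine ((Sz.X i).add (Sz.X j).neg).mono h1 ?_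
    calc 1 + 1 = 2 ^ 1 := rfl
      _ ≤ _ := Nat.pow_le_pow_right (by omega) h1)
  rw [map_sub, aeval_X, aeval_X] at h2
  have h3 : (t ∘ e) i - (t ∘ e) j = 0 := by
    simp only [Function.comp_apply]
    rw [hij, sub_self]
  rw [h3, norm_zero, zero_mul] at h2
  linarith

theorem Ind.le {T R ρ a b : ℕ} (hT : 1 ≤ T) {t : Fin R → ℂ} {e : Fin ρ → Fin R}
    (h : Ind T t ρ e a b) : ρ ≤ R := by
  have := Fintype.card_le_of_injective e (h.injective hT)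
  simpa using this

theorem ind_zero {T R a b : ℕ} (t : Fin R → ℂ) : Ind T t 0 Fin.elim0 a b := by
  intro f hf _
  obtain ⟨c, rfl⟩ : ∃ c : ℤ, f = MvPolynomial.C c := ⟨_, (MvPolynomial.eq_C_of_isEmpty f)⟩
  have h1 : aeval (t ∘ Fin.elim0) (MvPolynomial.C c : MvPolynomial (Fin 0) ℤ) = (c : ℂ) := by
    rw [algHom_C]; simp
  rw [h1]
  have h2 : c ≠ 0 := by
    rintro rfl
    simp at hf
  have h3 : (1 : ℝ) ≤ ‖(c : ℂ)‖ := by
    rw [Complex.norm_intCast, ← Int.cast_abs]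
    exact_mod_cast Int.one_le_abs h2
  have h4 : (1 : ℝ) ≤ 2 ^ (T ^ b) := one_le_pow₀ (by norm_num)
  nlinarith

/-- the gap -/
theorem gap {T R : ℕ} (hT : 1 ≤ T) (t : Fin R → ℂ) (a b : ℕ → ℕ) :
    ∃ j ≤ R, ∃ (ρ : ℕ) (e : Fin ρ → Fin R), Ind T t ρ e (a j) (b j) ∧
      ∀ k : Fin R, ¬ Ind T t (ρ + 1) (Fin.cons k e) (a (j + 1)) (b (j + 1)) := by
  classical
  by_contra hcon
  push Not at hcon
  have key : ∀ j ≤ R + 1, ∃ (ρ : ℕ) (e : Fin ρ → Fin R), j ≤ ρ ∧ Ind T t ρ e (a j) (b j) := by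
    intro j
    induction j with
    | zero => exact fun _ => ⟨0, Fin.elim0, le_rfl, ind_zero t⟩
    | succ j ih =>
      intro hj
      obtain ⟨ρ, e, h1, h2⟩ := ih (by omega)
      obtain ⟨k, hk⟩ := hcon j (by omega) ρ e h2
      exact ⟨ρ + 1, Fin.cons k e, by omega, hk⟩
  obtain ⟨ρ, e, h1, h2⟩ := key (R + 1) le_rfl
  have := h2.le hT
  omega

/-- a point near `t` -/
theorem near_point {T R ρ a b a' b' ν : ℕ} (hT : 16 ≤ T) {t : Fin R → ℂ} {e : Fin ρ → Fin R}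
    (hI : Ind T t ρ e a b) (haa : a' ≤ a) (hbb : b + 1 ≤ b') (hν : ν + a' + 1 ≤ b') {k : Fin R}
    (hk : ¬ Ind T t (ρ + 1) (Fin.cons k e) a' b') :
    ∃ β : ℂ, ‖t k - β‖ * 2 ^ (T ^ ν) ≤ 1 ∧ ∃ f : MvPolynomial (Fin (ρ + 1)) ℤ,
      Sz (T ^ a') (2 ^ (T ^ a')) f ∧ (finSuccEquiv ℤ ρ f).map (ev (t ∘ e)) ≠ 0 ∧
      aeval (Fin.cons β (t ∘ e) : Fin (ρ + 1) → ℂ) f = 0 := by
  classical
  unfold Ind at hk
  push Not at hk
  obtain ⟨f, hf0, hfS, hfv⟩ := hk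
  obtain ⟨s, hs⟩ : ∃ s : Fin ρ → ℂ, s = t ∘ e := ⟨_, rfl⟩
  have hcomp : (t ∘ (Fin.cons k e : Fin (ρ + 1) → Fin R)) = Fin.cons (t k) s := by
    funext i
    refine Fin.cases ?_ (fun i => ?_) i
    · rfl
    · rw [hs]; rfl
  rw [hcomp] at hfv
  obtain ⟨p, hp⟩ : ∃ p : Polynomial ℂ, p = (finSuccEquiv ℤ ρ f).map (ev s) := ⟨_, rfl⟩
  have hpe : ∀ z : ℂ, p.eval z = aeval (Fin.cons z s : Fin (ρ + 1) → ℂ) f := by
    intro z
    rw [hp, aeval_cons]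
  have hpow : ∀ {c c' : ℕ}, c ≤ c' → T ^ c ≤ T ^ c' := fun h => Nat.pow_le_pow_right (by omega) h
  have hcoe : ∀ i, (finSuccEquiv ℤ ρ f).coeff i ≠ 0 → 1 ≤ ‖p.coeff i‖ * 2 ^ (T ^ b) := by
    intro i hi
    have h1 := hI _ hi ((hfS.coeff i).mono (hpow haa) (Nat.pow_le_pow_right (by omega) (hpow haa)))
    rw [hp, Polynomial.coeff_map, ev_apply, hs]
    exact h1
  have hq0 : finSuccEquiv ℤ ρ f ≠ 0 := by
    intro h0
    exact hf0 ((map_eq_zero_iff _ (finSuccEquiv ℤ ρ).injective).1 h0)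
  have hlc := hcoe _ (Polynomial.leadingCoeff_ne_zero.2 hq0)
  have hlc0 : p.coeff (finSuccEquiv ℤ ρ f).natDegree ≠ 0 := by
    intro h0
    rw [h0, norm_zero, zero_mul] at hlc
    linarith
  have hp0 : p ≠ 0 := by
    intro h0
    rw [h0, Polynomial.coeff_zero] at hlc0
    exact hlc0 rfl
  have hnd : p.natDegree = (finSuccEquiv ℤ ρ f).natDegree := by
    refine le_antisymm ?_ (Polynomial.le_natDegree_of_ne_zero hlc0)
    rw [hp]
    exact Polynomial.natDegree_map_le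
  have hlc1 : 1 ≤ ‖p.leadingCoeff‖ * 2 ^ (T ^ b) := by
    rw [Polynomial.leadingCoeff, hnd]
    exact hlc
  have hsm : ‖p.eval (t k)‖ * 2 ^ (T ^ b') < 1 := by rw [hpe]; exact hfv
  have hbT : (2 : ℝ) ^ (T ^ b) ≤ 2 ^ (T ^ b') := pow_le_pow_right₀ (by norm_num) (hpow (by omega))
  have hdeg : p.natDegree ≠ 0 := by
    intro h0
    have h1 := Polynomial.eq_C_of_natDegree_eq_zero h0
    have h2 : p.eval (t k) = p.leadingCoeff := by
      rw [Polynomial.leadingCoeff, h0]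
      conv_lhs => rw [h1]
      rw [Polynomial.eval_C]
    rw [h2] at hsm
    have h3 := mul_le_mul_of_nonneg_left hbT (norm_nonneg p.leadingCoeff)
    linarith
  obtain ⟨β, hβ, hle⟩ := near_root p hdeg (t k)
  refine ⟨β, ?_, f, hfS, by rw [← hs, ← hp]; exact hp0, by rw [← hs, ← hpe]; exact hβ⟩
  by_contra hcon
  rw [not_le] at hcon
  have hd : p.natDegree ≤ T ^ a' := by
    rw [hnd]
    exact hfS.natDegree
  have h9 : (1 : ℝ) ≤ (‖t k - β‖ * 2 ^ (T ^ ν)) ^ p.natDegree := one_le_pow₀ hcon.le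
  rw [mul_pow, ← pow_mul] at h9
  have h10 : (2 : ℝ) ^ (T ^ ν * p.natDegree) ≤ 2 ^ (T ^ (ν + a')) := by
    refine pow_le_pow_right₀ (by norm_num) ?_
    rw [pow_add]
    exact Nat.mul_le_mul_left _ hd
  have h11 : (1 : ℝ) ≤ ‖t k - β‖ ^ p.natDegree * 2 ^ (T ^ (ν + a')) :=
    h9.trans (mul_le_mul_of_nonneg_left h10 (by positivity))
  have h12 : (1 : ℝ) ≤ ‖p.eval (t k)‖ * (2 ^ (T ^ b) * 2 ^ (T ^ (ν + a'))) := by
    calc (1 : ℝ) ≤ (‖p.leadingCoeff‖ * 2 ^ (T ^ b)) *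
          (‖t k - β‖ ^ p.natDegree * 2 ^ (T ^ (ν + a'))) := by nlinarith
      _ = (‖p.leadingCoeff‖ * ‖t k - β‖ ^ p.natDegree) *
          (2 ^ (T ^ b) * 2 ^ (T ^ (ν + a'))) := by ring
      _ ≤ _ := mul_le_mul_of_nonneg_right hle (by positivity)
  have h13 : (2 : ℝ) ^ (T ^ b) * 2 ^ (T ^ (ν + a')) ≤ 2 ^ (T ^ b') := by
    rw [← pow_add]
    refine pow_le_pow_right₀ (by norm_num) ?_
    have e1 := sixteen hT (a := b) (b := b') (by omega)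
    have e2 := sixteen hT (a := ν + a') (b := b') (by omega)
    omega
  have h14 := mul_le_mul_of_nonneg_left h13 (norm_nonneg (p.eval (t k)))
  linarith

end Pool.Agent.Zk25.LT
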