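import Pool.Agent.Zk25.LT.Expl

/-!
# Good scales for one complex number
-/

set_option autoImplicit false

namespace Pool.Agent.Zk25.LT

open MvPolynomial Filter

/-- bounded by a polynomial -/
def PBd (f : ℕ → ℕ) : Prop := ∃ c k : ℕ, ∀ n, f n ≤ (n + c + 2) ^ k

theorem PBd.const (a : ℕ) : PBd (fun _ => a) :=
  ⟨a, 1, fun n => by rw [pow_one]; show a ≤ n + a + 2; omega⟩

theorem PBd.id : PBd (fun n => n) :=
  ⟨0, 1, fun n => by rw [pow_one]; show n ≤ n + 0 + 2; omega⟩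

theorem PBd.mono {f g : ℕ → ℕ} (hf : PBd f) (h : ∀ n, g n ≤ f n) : PBd g := by
  obtain ⟨c, k, hk⟩ := hf
  exact ⟨c, k, fun n => (h n).trans (hk n)⟩

theorem PBd.mul {f g : ℕ → ℕ} (hf : PBd f) (hg : PBd g) : PBd (fun n => f n * g n) := by
  obtain ⟨c, k, hk⟩ := hf
  obtain ⟨c', k', hk'⟩ := hg
  refine ⟨c + c', k + k', fun n => ?_⟩
  rw [pow_add]
  exact Nat.mul_le_mul ((hk n).trans (Nat.pow_le_pow_left (by omega) _))
    ((hk' n).trans (Nat.pow_le_pow_left (by omega) _))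

theorem PBd.add {f g : ℕ → ℕ} (hf : PBd f) (hg : PBd g) : PBd (fun n => f n + g n) := by
  obtain ⟨c, k, hk⟩ := hf
  obtain ⟨c', k', hk'⟩ := hg
  refine ⟨c + c', k + k' + 1, fun n => ?_⟩
  have h1 : f n ≤ (n + (c + c') + 2) ^ k := (hk n).trans (Nat.pow_le_pow_left (by omega) _)
  have h2 : g n ≤ (n + (c + c') + 2) ^ k' := (hk' n).trans (Nat.pow_le_pow_left (by omega) _)
  exact (Nat.add_le_add h1 h2).trans (two_pow_add (by omega))

theorem PBd.pow {f : ℕ → ℕ} (hf : PBd f) (j : ℕ) : PBd (fun n => f n ^ j) := by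
  obtain ⟨c, k, hk⟩ := hf
  refine ⟨c, k * j, fun n => ?_⟩
  rw [pow_mul]
  exact Nat.pow_le_pow_left (hk n) _

theorem PBd.succ {f : ℕ → ℕ} (hf : PBd f) : PBd (fun n => f (n + 1)) := by
  obtain ⟨c, k, hk⟩ := hf
  refine ⟨c + 1, k, fun n => (hk (n + 1)).trans (Nat.pow_le_pow_left (by omega) _)⟩

theorem PBd.lt_two_pow {f : ℕ → ℕ} (hf : PBd f) : ∀ᶠ n in atTop, f n < 2 ^ n := by
  obtain ⟨c, k, hk⟩ := hf
  have h1 := tendsto_pow_const_div_const_pow_of_one_lt k (r := (2 : ℝ)) (by norm_num)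
  have h2 : ∀ᶠ m : ℕ in atTop, ((m : ℝ)) ^ k / 2 ^ m < (1 / 2 ^ (c + 2) : ℝ) :=
    h1.eventually_lt_const (by positivity)
  have h3 : Tendsto (fun n : ℕ => n + (c + 2)) atTop atTop := tendsto_add_atTop_nat (c + 2)
  filter_upwards [h3.eventually h2] with n hn
  rw [div_lt_div_iff₀ (by positivity) (by positivity), one_mul, pow_add (2 : ℝ) n (c + 2)] at hn
  have h4 : (((n + c + 2 : ℕ)) : ℝ) ^ k < 2 ^ n := by
    have h5 : ((n + (c + 2) : ℕ) : ℝ) ^ k * 2 ^ (c + 2) < 2 ^ n * 2 ^ (c + 2) := hn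
    have h6 := lt_of_mul_lt_mul_right h5 (by positivity)
    have h7 : n + (c + 2) = n + c + 2 := by ring
    rwa [h7] at h6
  have h5 : (n + c + 2) ^ k < 2 ^ n := by exact_mod_cast h4
  exact (hk n).trans_lt h5

theorem PBd.le_pow {f : ℕ → ℕ} (hf : PBd f) : ∃ k : ℕ, ∀ᶠ n in atTop, f n ≤ n ^ k := by
  obtain ⟨c, k, hk⟩ := hf
  refine ⟨2 * k, ?_⟩
  filter_upwards [eventually_ge_atTop (c + 2)] with n hn
  refine (hk n).trans ?_
  rw [pow_mul]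
  refine Nat.pow_le_pow_left ?_ _
  nlinarith

theorem PBd.hh {H : ℕ → ℕ} (hH : PBd H) (D : ℕ) : PBd (fun n => LT.hh D (H n)) := by
  unfold LT.hh hG
  exact (PBd.const _).mul (((PBd.const 1).add ((PBd.const _).mul ((hH.pow _).mul
    (((PBd.const D).mul hH).pow _)))).pow _)

theorem one_le_zero (α : Fin 0 → ℂ) (f : MvPolynomial (Fin 0) ℤ) (hf : aeval α f ≠ 0) :
    1 ≤ ‖aeval α f‖ := by
  obtain ⟨c, rfl⟩ : ∃ c : ℤ, f = MvPolynomial.C c := ⟨_, (MvPolynomial.eq_C_of_isEmpty f)⟩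
  have h1 : aeval α (MvPolynomial.C c : MvPolynomial (Fin 0) ℤ) = (c : ℂ) := by
    rw [algHom_C]; simp
  rw [h1] at hf ⊢
  have h2 : c ≠ 0 := by
    rintro rfl
    simp at hf
  rw [Complex.norm_intCast, ← Int.cast_abs]
  exact_mod_cast Int.one_le_abs h2

theorem cons_one (z : ℂ) (α : Fin 0 → ℂ) : (Fin.cons z α : Fin 1 → ℂ) = fun _ => z := by
  funext i
  fin_cases i
  rfl

theorem PBd.cst {H : ℕ → ℕ} (hH : PBd H) (D A : ℕ) : PBd (fun n => Cst D (H n) A) := by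
  unfold Cst
  exact ((PBd.const _).mul ((hH.hh D).mul (PBd.const _))).mul ((hH.mul (PBd.const _)).pow _)

/-- the distance of two algebraic numbers -/
theorem two_alg {X β β' : ℂ} {D H A : ℕ} (hD : 1 ≤ D) (hH : 2 ≤ H) (hA : 1 ≤ A) (hβA : ‖β‖ ≤ A)
    {f f' : MvPolynomial (Fin 1) ℤ} (hf : Sz D H f) (hf' : Sz D H f')
    (hfX : aeval (fun _ => X) f ≠ 0) (hfX' : aeval (fun _ => X) f' ≠ 0)
    (hfβ : aeval (fun _ => β) f = 0) (hfβ' : aeval (fun _ => β') f' = 0) (hne : β' ≠ β) :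
    1 ≤ ‖β' - β‖ * ((Cst D H A * Cst (D + dd D) (H + hh D H) A : ℕ) : ℝ) := by
  obtain ⟨α, hα⟩ : ∃ α : Fin 1 → ℂ, α = fun _ => β := ⟨_, rfl⟩
  have hF : ∀ z : ℂ, aeval (Fin.cons z α : Fin 2 → ℂ) (rename (fun _ : Fin 1 => (0 : Fin 2)) f') =
      aeval (fun _ => z) f' := by
    intro z
    rw [aeval_rename]
    rfl
  have hg : aeval (Fin.cons β' α : Fin 2 → ℂ) (MvPolynomial.X 0 - MvPolynomial.X 1 :
      MvPolynomial (Fin 2) ℤ) = β' - β := by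
    rw [map_sub, aeval_X, aeval_X, hα]
    rfl
  obtain ⟨q, h1, h2, h3⟩ := osl' α β' hA (fun i => by rw [hα]; exact hβA) hD (by omega : 1 ≤ H)
    (f := rename (fun _ : Fin 1 => (0 : Fin 2)) f') (g := MvPolynomial.X 0 - MvPolynomial.X 1)
    (hf'.rename _) (by
      rw [sub_eq_add_neg]
      exact ((Sz.X 0).add (Sz.X 1).neg).mono hD hH) (map_ne_zero_of α X (by rw [hF]; exact hfX'))
    (by rw [hF]; exact hfβ') (by rw [hg]; exact sub_ne_zero.2 hne)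
  rw [hg] at h3
  obtain ⟨α0, hα0⟩ : ∃ α0 : Fin 0 → ℂ, α0 = Fin.elim0 := ⟨_, rfl⟩
  have hc : ∀ z : ℂ, (Fin.cons z α0 : Fin 1 → ℂ) = fun _ => z := fun z => cons_one z α0
  obtain ⟨q', h4, h5, h6⟩ := osl' α0 β hA (fun i => i.elim0) (D := D + dd D) (H := H + hh D H)
    (by omega) (by omega) (f := f) (g := q) (hf.mono (by omega) (by omega))
    (h1.mono (by omega) (by omega)) (map_ne_zero_of α0 X (by rw [hc]; exact hfX))
    (by rw [hc]; exact hfβ) (by rw [hc, ← hα]; exact h2)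
  rw [hc, ← hα] at h6
  have h7 := one_le_zero α0 q' h5
  calc (1 : ℝ) ≤ ‖aeval α q‖ * (Cst (D + dd D) (H + hh D H) A : ℕ) := h7.trans h6
    _ ≤ (‖β' - β‖ * (Cst D H A : ℕ)) * (Cst (D + dd D) (H + hh D H) A : ℕ) :=
      mul_le_mul_of_nonneg_right h3 (Nat.cast_nonneg _)
    _ = _ := by push_cast; ring

/-- a root near a point where the value is small -/
theorem root_near {X : ℂ} {D T H : ℕ} {f : MvPolynomial (Fin 1) ℤ} (hf : Sz D H f)
    (hfX : aeval (fun _ => X) f ≠ 0) (hsm : ‖aeval (fun _ => X) f‖ * 2 ^ T < 1) :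
    ∃ β : ℂ, aeval (fun _ => β) f = 0 ∧ ‖X - β‖ ^ D * 2 ^ T < 1 := by
  obtain ⟨α0, hα0⟩ : ∃ α0 : Fin 0 → ℂ, α0 = Fin.elim0 := ⟨_, rfl⟩
  have hc : ∀ z : ℂ, (Fin.cons z α0 : Fin 1 → ℂ) = fun _ => z := fun z => cons_one z α0
  obtain ⟨p, hp⟩ : ∃ p : Polynomial ℂ, p = (finSuccEquiv ℤ 0 f).map (ev α0) := ⟨_, rfl⟩
  have hpe : ∀ z : ℂ, p.eval z = aeval (fun _ => z) f := by
    intro z
    rw [hp, ← hc, aeval_cons]
  have h2T : (1 : ℝ) ≤ 2 ^ T := one_le_pow₀ (by norm_num)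
  have hcoe : ∀ k, p.coeff k ≠ 0 → 1 ≤ ‖p.coeff k‖ := by
    intro k hk
    rw [hp, Polynomial.coeff_map] at hk ⊢
    exact one_le_zero α0 _ hk
  have hp0 : p ≠ 0 := by
    rintro h0
    apply hfX
    rw [← hpe, h0, Polynomial.eval_zero]
  have hdeg : p.natDegree ≠ 0 := by
    intro h0
    have h1 := Polynomial.eq_C_of_natDegree_eq_zero h0
    have h2 : p.coeff 0 ≠ 0 := by
      intro h3
      rw [h3, Polynomial.C_0] at h1
      exact hp0 h1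
    have h3 := hcoe 0 h2
    have h4 : aeval (fun _ => X) f = p.coeff 0 := by
      rw [← hpe, h1, Polynomial.eval_C]
      simp
    rw [h4] at hsm
    nlinarith
  have hlc : 1 ≤ ‖p.leadingCoeff‖ := hcoe _ (Polynomial.leadingCoeff_ne_zero.2 hp0)
  obtain ⟨β, hβ, hle⟩ := near_root p hdeg X
  refine ⟨β, by rw [← hpe]; exact hβ, ?_⟩
  rw [hpe] at hle
  have h5 : ‖X - β‖ ^ p.natDegree * 2 ^ T < 1 := by
    have h6 : ‖X - β‖ ^ p.natDegree ≤ ‖aeval (fun _ => X) f‖ := by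
      refine le_trans ?_ hle
      have : 0 ≤ ‖X - β‖ ^ p.natDegree := by positivity
      nlinarith
    exact (mul_le_mul_of_nonneg_right h6 (by positivity)).trans_lt hsm
  have h6 : ‖X - β‖ ≤ 1 := by
    by_contra hcon
    rw [not_le] at hcon
    have : 1 ≤ ‖X - β‖ ^ p.natDegree := one_le_pow₀ hcon.le
    nlinarith
  have h7 : p.natDegree ≤ D := by
    rw [hp]
    exact Polynomial.natDegree_map_le.trans hf.natDegree
  have h8 : ‖X - β‖ ^ D ≤ ‖X - β‖ ^ p.natDegree := pow_le_pow_of_le_one (norm_nonneg _) h6 h7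
  exact (mul_le_mul_of_nonneg_right h8 (by positivity)).trans_lt h5

/-- a good scale for `X` -/
def Good (X : ℂ) (D T : ℕ) : Prop :=
  ∀ f : MvPolynomial (Fin 1) ℤ, Sz D (T ^ D) f → aeval (fun _ => X) f ≠ 0 →
    1 ≤ ‖aeval (fun _ => X) f‖ * 2 ^ T

theorem Good.mono {X : ℂ} {D D' T : ℕ} (hT : 1 ≤ T) (h : Good X D' T) (hD : D ≤ D') : Good X D T :=
  fun f hf hf0 => h f (hf.mono hD (Nat.pow_le_pow_right hT hD)) hf0

/-- there are arbitrarily large good scales -/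
theorem exists_good (X : ℂ) (D T₀ : ℕ) : ∃ T, T₀ ≤ T ∧ Good X D T := by
  -- it is enough to treat large `D`
  suffices h : ∀ D : ℕ, 1 ≤ D → ∃ T, T₀ + 1 ≤ T ∧ Good X D T by
    obtain ⟨T, h1, h2⟩ := h (D + 1) (by omega)
    exact ⟨T, by omega, h2.mono (by omega) (by omega)⟩
  intro D hD
  by_contra hcon
  have hcon' : ∀ T, T₀ + 1 ≤ T → ∃ f : MvPolynomial (Fin 1) ℤ, ∃ β : ℂ, Sz D (T ^ D) f ∧
      aeval (fun _ => X) f ≠ 0 ∧ aeval (fun _ => β) f = 0 ∧ ‖X - β‖ ^ D * 2 ^ T < 1 := by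
    intro T hT
    by_contra h
    apply hcon
    refine ⟨T, hT, fun f hf hf0 => ?_⟩
    by_contra h1
    rw [not_le] at h1
    obtain ⟨β, hβ1, hβ2⟩ := root_near hf hf0 h1
    exact h ⟨f, β, hf, hf0, hβ1, hβ2⟩
  have hcon'' : ∀ T : ℕ, ∃ f : MvPolynomial (Fin 1) ℤ, ∃ β : ℂ, T₀ + 1 ≤ T → (Sz D (T ^ D) f ∧
      aeval (fun _ => X) f ≠ 0 ∧ aeval (fun _ => β) f = 0 ∧ ‖X - β‖ ^ D * 2 ^ T < 1) := by
    intro T
    by_cases h : T₀ + 1 ≤ T
    · obtain ⟨f, β, h1⟩ := hcon' T h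
      exact ⟨f, β, fun _ => h1⟩
    · exact ⟨0, 0, fun h' => absurd h' h⟩
  choose f β hfβ using hcon''
  obtain ⟨A, hA⟩ : ∃ A : ℕ, A = ⌈‖X‖⌉₊ + 1 := ⟨_, rfl⟩
  have hβA : ∀ T, T₀ + 1 ≤ T → ‖β T‖ ≤ A := by
    intro T hT
    obtain ⟨_, _, _, h4⟩ := hfβ T hT
    have h2T : (1 : ℝ) ≤ 2 ^ T := one_le_pow₀ (by norm_num)
    have h5 : ‖X - β T‖ ≤ 1 := by
      by_contra hc
      rw [not_le] at hc
      have : 1 ≤ ‖X - β T‖ ^ D := one_le_pow₀ hc.le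
      nlinarith
    have h6 : ‖β T‖ ≤ ‖X‖ + ‖X - β T‖ := by
      have h3 : β T = X - (X - β T) := by ring
      calc ‖β T‖ = ‖X - (X - β T)‖ := by rw [← h3]
        _ ≤ _ := norm_sub_le _ _
    have h7 := Nat.le_ceil ‖X‖
    rw [hA]
    push_cast
    linarith
  obtain ⟨B, hB⟩ : ∃ B : ℕ → ℕ, B = fun T => (2 * (Cst D ((T + 1) ^ D + 2) A *
    Cst (D + dd D) (((T + 1) ^ D + 2) + hh D ((T + 1) ^ D + 2)) A)) ^ D := ⟨_, rfl⟩
  have hBp : PBd B := by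
    rw [hB]
    have h1 : PBd (fun T => (T + 1) ^ D + 2) := ((PBd.id.succ).pow D).add (PBd.const 2)
    exact ((PBd.const 2).mul ((h1.cst D A).mul ((h1.add (h1.hh D)).cst (D + dd D) A))).pow D
  obtain ⟨T₁, hT₁⟩ := eventually_atTop.1 hBp.lt_two_pow
  have hstep : ∀ T, T₀ + 1 + T₁ ≤ T → β (T + 1) = β T := by
    intro T hT
    by_contra hne
    obtain ⟨a1, a2, a3, a4⟩ := hfβ T (by omega)
    obtain ⟨b1, b2, b3, b4⟩ := hfβ (T + 1) (by omega)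
    have h1 := two_alg (X := X) (β := β T) (β' := β (T + 1)) (D := D) (H := (T + 1) ^ D + 2) (A := A)
      hD (by omega) (by rw [hA]; omega) (hβA T (by omega)) (f := f T) (f' := f (T + 1))
      (a1.mono le_rfl ((Nat.pow_le_pow_left (Nat.le_succ T) D).trans (Nat.le_add_right _ 2)))
      (b1.mono le_rfl (Nat.le_add_right _ 2)) a2 b2 a3 b3 hne
    obtain ⟨d, hd⟩ : ∃ d : ℝ, d = max ‖X - β T‖ ‖X - β (T + 1)‖ := ⟨_, rfl⟩
    have hd0 : 0 ≤ d := by rw [hd]; exact le_max_of_le_left (norm_nonneg _)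
    have hdd : d ^ D * 2 ^ T < 1 := by
      rcases max_choice ‖X - β T‖ ‖X - β (T + 1)‖ with h | h
      · rw [hd, h]; exact a4
      · rw [hd, h]
        refine lt_of_le_of_lt ?_ b4
        refine mul_le_mul_of_nonneg_left ?_ (by positivity)
        exact pow_le_pow_right₀ (by norm_num) (by omega)
    have h2 : ‖β (T + 1) - β T‖ ≤ 2 * d := by
      have e : β (T + 1) - β T = (X - β T) - (X - β (T + 1)) := by ring
      rw [e]
      refine (norm_sub_le _ _).trans ?_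
      have e1 : ‖X - β T‖ ≤ d := by rw [hd]; exact le_max_left _ _
      have e2 : ‖X - β (T + 1)‖ ≤ d := by rw [hd]; exact le_max_right _ _
      linarith
    obtain ⟨Q, hQ⟩ : ∃ Q : ℕ, Q = Cst D ((T + 1) ^ D + 2) A *
      Cst (D + dd D) (((T + 1) ^ D + 2) + hh D ((T + 1) ^ D + 2)) A := ⟨_, rfl⟩
    rw [← hQ] at h1
    have h3 : (1 : ℝ) ≤ (2 * d) * Q := h1.trans (mul_le_mul_of_nonneg_right h2 (Nat.cast_nonneg _))
    have h4 : (1 : ℝ) ≤ d ^ D * ((2 * Q : ℕ) : ℝ) ^ D := by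
      rw [← mul_pow]
      refine one_le_pow₀ ?_
      push_cast
      linarith
    have h5 : (2 * Q) ^ D < 2 ^ T := by
      have := hT₁ T (by omega)
      rw [hB] at this
      rw [hQ]
      exact this
    have h6 : ((2 * Q : ℕ) : ℝ) ^ D ≤ 2 ^ T := by exact_mod_cast h5.le
    have h7 := mul_le_mul_of_nonneg_left h6 (pow_nonneg hd0 D)
    linarith
  obtain ⟨T₂, hT₂⟩ : ∃ T₂, T₂ = T₀ + 1 + T₁ := ⟨_, rfl⟩
  have hconst : ∀ j, β (T₂ + j) = β T₂ := by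
    intro j
    induction j with
    | zero => rfl
    | succ j ih => rw [← ih, ← hstep (T₂ + j) (by omega)]; rfl
  obtain ⟨a1, a2, a3, a4⟩ := hfβ T₂ (by omega)
  have hne : X ≠ β T₂ := by
    intro h
    rw [h] at a2
    exact a2 a3
  have hpos : 0 < ‖X - β T₂‖ ^ D := pow_pos (norm_pos_iff.2 (sub_ne_zero.2 hne)) D
  obtain ⟨j, hj⟩ := ((tendsto_pow_atTop_atTop_of_one_lt (r := (2 : ℝ)) (by norm_num)).eventually_gt_atTop
    (1 / ‖X - β T₂‖ ^ D)).exists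
  obtain ⟨_, _, _, b4⟩ := hfβ (T₂ + j) (by omega)
  rw [hconst j] at b4
  have h1 : 1 < ‖X - β T₂‖ ^ D * 2 ^ j := by
    rw [div_lt_iff₀ hpos] at hj
    linarith
  have h2 : (2 : ℝ) ^ j ≤ 2 ^ (T₂ + j) := pow_le_pow_right₀ (by norm_num) (by omega)
  have h3 := mul_le_mul_of_nonneg_left h2 hpos.le
  linarith

end Pool.Agent.Zk25.LT
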