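import Pool.Agent.Zk25.LT.Good

/-!
# Linear forms in numbers which are algebraic over `ℚ(X)` at good scales of `X`
-/

set_option autoImplicit false

namespace Pool.Agent.Zk25.LT

open MvPolynomial Filter

theorem alg_poly {r : ℕ} (θ : Fin r → ℂ) {ω : ℂ}
    (h : IsAlgebraic (IntermediateField.adjoin ℚ (Set.range θ)) ω) :
    ∃ f : MvPolynomial (Fin (r + 1)) ℤ, (finSuccEquiv ℤ r f).map (ev θ) ≠ 0 ∧
      aeval (Fin.cons ω θ : Fin (r + 1) → ℂ) f = 0 := by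
  classical
  obtain ⟨p, hp0, hp⟩ := h
  obtain ⟨n, hn⟩ : ∃ n, n = p.natDegree := ⟨_, rfl⟩
  obtain ⟨b, A, hb, hA⟩ := common θ (fun k : Fin (n + 1) => ((p.coeff k :
    IntermediateField.adjoin ℚ (Set.range θ)) : ℂ)) (fun k => (p.coeff k).2)
  obtain ⟨A', hA'⟩ : ∃ A' : ℕ → MvPolynomial (Fin r) ℤ, ∀ (k : ℕ) (hk : k < n + 1),
      A' k = A ⟨k, hk⟩ := by
    refine ⟨fun k => if hk : k < n + 1 then A ⟨k, hk⟩ else 0, ?_⟩
    intro k hk
    simp only [dif_pos hk]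
  obtain ⟨F, hF⟩ : ∃ F : Polynomial (MvPolynomial (Fin r) ℤ), F =
    ∑ k ∈ Finset.range (n + 1), Polynomial.monomial k (A' k) := ⟨_, rfl⟩
  have hFm : F.map (ev θ) = Polynomial.C (aeval θ b) *
      p.map (algebraMap (IntermediateField.adjoin ℚ (Set.range θ)) ℂ) := by
    ext j
    rw [Polynomial.coeff_map, hF, Polynomial.finsetSum_coeff, Polynomial.coeff_C_mul,
      Polynomial.coeff_map]
    simp only [Polynomial.coeff_monomial]
    by_cases hj : j < n + 1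
    · rw [Finset.sum_ite_eq' (Finset.range (n + 1)) j (fun k => A' k),
        if_pos (Finset.mem_range.2 hj), hA' j hj, ev_apply]
      exact (hA ⟨j, hj⟩).symm
    · rw [Finset.sum_ite_eq' (Finset.range (n + 1)) j (fun k => A' k),
        if_neg (by rwa [Finset.mem_range]), map_zero,
        Polynomial.coeff_eq_zero_of_natDegree_lt (by omega : p.natDegree < j), map_zero, mul_zero]
  refine ⟨(finSuccEquiv ℤ r).symm F, ?_, ?_⟩
  · rw [AlgEquiv.apply_symm_apply, hFm]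
    refine mul_ne_zero (Polynomial.C_ne_zero.2 hb) ?_
    exact (Polynomial.map_ne_zero_iff (FaithfulSMul.algebraMap_injective _ _)).2 hp0
  · rw [aeval_cons, AlgEquiv.apply_symm_apply, hFm, Polynomial.eval_mul, Polynomial.eval_map,
      ← Polynomial.aeval_def, hp, mul_zero]

/-- linear forms at good scales -/
theorem sep_good (X c : ℂ) (hc : c ≠ 0) {m : ℕ} (x : Fin m → ℂ) (hx : LinearIndependent ℚ x)
    (hX : ∀ i, IsAlgebraic (IntermediateField.adjoin ℚ ({X} : Set ℂ)) (x i)) :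
    ∃ D₀ T₀ : ℕ, ∀ D T, D₀ ≤ D → T₀ ≤ T → Good X D T → ∀ s : Fin m → ℤ, s ≠ 0 →
      (∀ i, |s i| ≤ T) → 1 ≤ ‖∑ i, (s i : ℂ) * (c * x i)‖ * 2 ^ (T ^ 2) := by
  classical
  obtain ⟨θ, hθ⟩ : ∃ θ : Fin 1 → ℂ, θ = fun _ => X := ⟨_, rfl⟩
  have hr : ({X} : Set ℂ) = Set.range θ := by rw [hθ]; exact (Set.range_const).symm
  rw [hr] at hX
  obtain ⟨ω, hω, hωx⟩ := exists_gens θ (Finset.univ.image x) (by
    intro g hg
    obtain ⟨i, _, rfl⟩ := Finset.mem_image.1 hg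
    exact hX i)
  obtain ⟨f, hf0, hf⟩ := alg_poly θ hω
  obtain ⟨b, A, hb, hA⟩ := common (Fin.cons ω θ : Fin 2 → ℂ) x
    (fun i => hωx _ (Finset.mem_image_of_mem _ (Finset.mem_univ i)))
  obtain ⟨t, ht⟩ : ∃ t : Fin 2 → ℂ, t = Fin.cons ω θ := ⟨_, rfl⟩
  rw [← ht] at hf hb hA
  -- constants
  obtain ⟨D₁, hD₁⟩ : ∃ D₁ : ℕ, D₁ = f.totalDegree + ∑ i, (A i).totalDegree + 1 := ⟨_, rfl⟩
  obtain ⟨H, hH⟩ : ∃ H : ℕ → ℕ, H = fun T => len f + (∑ i, T * len (A i)) + 1 := ⟨_, rfl⟩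
  obtain ⟨B, hB⟩ : ∃ B : ℕ, B = ⌈‖X‖⌉₊ + 1 := ⟨_, rfl⟩
  obtain ⟨Q, hQ⟩ : ∃ Q : ℕ, Q = ⌈‖aeval t b‖ / ‖c‖⌉₊ := ⟨_, rfl⟩
  have hHP : PBd H := by
    rw [hH]
    refine ((PBd.const (len f)).add ?_).add (PBd.const 1)
    have h1 := (PBd.id).mul (PBd.const (∑ i, len (A i)))
    refine h1.mono fun n => le_of_eq ?_
    rw [Finset.mul_sum]
  obtain ⟨k, hk⟩ := (hHP.hh D₁).le_pow
  have hCst := ((PBd.const Q).mul (hHP.cst D₁ B)).lt_two_pow
  obtain ⟨T₀, hT₀⟩ := eventually_atTop.1 ((hk.and hCst).and (eventually_ge_atTop 2))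
  refine ⟨dd D₁ + k, T₀, fun D T hD hT hgood s hs hsT => ?_⟩
  obtain ⟨⟨h1, h2⟩, h3⟩ := hT₀ T hT
  obtain ⟨g, hg⟩ : ∃ g : MvPolynomial (Fin 2) ℤ, g = ∑ i, MvPolynomial.C (s i) * A i := ⟨_, rfl⟩
  have hge : aeval t g = aeval t b * ∑ i, (s i : ℂ) * x i := by
    rw [hg, map_sum, Finset.mul_sum]
    refine Finset.sum_congr rfl fun i _ => ?_
    rw [map_mul, algHom_C, ← hA i]
    simp only [algebraMap_int_eq, eq_intCast]
    ring
  have hsx : ∑ i, (s i : ℂ) * x i ≠ 0 := by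
    intro h0
    apply hs
    funext i
    have h4 := (Fintype.linearIndependent_iff.1 hx) (fun i => (s i : ℚ)) (by
      rw [← h0]
      refine Finset.sum_congr rfl fun i _ => ?_
      rw [Rat.smul_def]
      push_cast
      rfl) i
    exact_mod_cast h4
  have hg0 : aeval t g ≠ 0 := by rw [hge]; exact mul_ne_zero hb hsx
  have hgS : Sz D₁ (H T) g := by
    rw [hg]
    have h4 : ∀ i ∈ (Finset.univ : Finset (Fin m)), Sz D₁ (T * len (A i))
        (MvPolynomial.C (s i) * A i) := by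
      intro i _
      have h5 : Sz (A i).totalDegree (len (A i)) (A i) := ⟨le_rfl, le_rfl⟩
      refine ((Sz.C (s i)).mul h5).mono ?_ (Nat.mul_le_mul_right _ ?_)
      · have h6 : (A i).totalDegree ≤ ∑ i, (A i).totalDegree :=
          Finset.single_le_sum (f := fun i => (A i).totalDegree) (fun _ _ => Nat.zero_le _)
            (Finset.mem_univ i)
        omega
      · have h6 := hsT i
        rw [Int.abs_eq_natAbs] at h6
        exact_mod_cast h6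
    refine (Sz.sum _ _ _ h4).mono le_rfl ?_
    rw [hH]
    show ∑ i, T * len (A i) ≤ len f + (∑ i, T * len (A i)) + 1
    omega
  have hfS : Sz D₁ (H T) f := by
    refine ⟨by omega, ?_⟩
    rw [hH]
    show len f ≤ len f + (∑ i, T * len (A i)) + 1
    omega
  have hB1 : 1 ≤ B := by omega
  have hθB : ∀ i, ‖θ i‖ ≤ B := by
    intro i
    rw [hθ, hB]
    have := Nat.le_ceil ‖X‖
    push_cast
    linarith
  obtain ⟨q, q1, q2, q3⟩ := osl' θ ω hB1 hθB (by omega : 1 ≤ D₁) (H := H T) (by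
    rw [hH]
    exact Nat.le_add_left _ _) hfS hgS hf0 (by rw [← ht]; exact hf) (by rw [← ht]; exact hg0)
  rw [← ht] at q3
  have q4 := hgood q (q1.mono (by omega) (h1.trans (Nat.pow_le_pow_right (by omega) (by omega))))
    (by rw [hθ] at q2; exact q2)
  rw [← hθ] at q4
  have hc0 : 0 < ‖c‖ := norm_pos_iff.2 hc
  have e1 : ‖aeval t g‖ = (‖aeval t b‖ / ‖c‖) * ‖∑ i, (s i : ℂ) * (c * x i)‖ := by
    have e2 : ∑ i, (s i : ℂ) * (c * x i) = c * ∑ i, (s i : ℂ) * x i := by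
      rw [Finset.mul_sum]
      refine Finset.sum_congr rfl fun i _ => ?_
      ring
    rw [hge, e2, norm_mul, norm_mul]
    field_simp
  have e2 : ‖aeval t g‖ ≤ Q * ‖∑ i, (s i : ℂ) * (c * x i)‖ := by
    rw [e1]
    refine mul_le_mul_of_nonneg_right ?_ (norm_nonneg _)
    rw [hQ]
    exact Nat.le_ceil _
  have e3 : ((Q * Cst D₁ (H T) B : ℕ) : ℝ) ≤ 2 ^ T := by exact_mod_cast h2.le
  obtain ⟨S, hS⟩ : ∃ S : ℝ, S = ‖∑ i, (s i : ℂ) * (c * x i)‖ := ⟨_, rfl⟩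
  have hS0 : 0 ≤ S := by rw [hS]; exact norm_nonneg _
  rw [← hS] at e2 ⊢
  calc (1 : ℝ) ≤ ‖aeval θ q‖ * 2 ^ T := q4
    _ ≤ (‖aeval t g‖ * (Cst D₁ (H T) B : ℕ)) * 2 ^ T :=
      mul_le_mul_of_nonneg_right q3 (by positivity)
    _ ≤ ((Q * S) * (Cst D₁ (H T) B : ℕ)) * 2 ^ T :=
      mul_le_mul_of_nonneg_right (mul_le_mul_of_nonneg_right e2 (Nat.cast_nonneg _)) (by positivity)
    _ = S * (((Q * Cst D₁ (H T) B : ℕ) : ℝ) * 2 ^ T) := by push_cast; ring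
    _ ≤ S * (2 ^ T * 2 ^ T) :=
      mul_le_mul_of_nonneg_left (mul_le_mul_of_nonneg_right e3 (by positivity)) hS0
    _ ≤ S * 2 ^ (T ^ 2) := by
      refine mul_le_mul_of_nonneg_left ?_ hS0
      rw [← pow_add]
      exact pow_le_pow_right₀ (by norm_num) (by nlinarith)


end Pool.Agent.Zk25.LT
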