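import Pool.Agent.Zk25.LT.Trf

/-!
# Many integral relations, and the induction step
-/

set_option autoImplicit false

namespace Pool.Agent.Zk25.LT

open Filter

/-- many integral relations -/
theorem many {F : Type*} [Field F] [CharZero F] {N k m : ℕ} (hkm : k * m ≤ N) (v : Fin N → Fin k → F)
    (hv : ∀ j, Module.finrank ℚ (Submodule.span ℚ (Set.range fun i => v i j)) < m) :
    ∃ c : Fin k → Fin N → ℤ, LinearIndependent ℚ (fun s i => (c s i : ℚ)) ∧
      ∀ s j, ∑ i, (c s i : F) * v i j = 0 := by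
  classical
  obtain ⟨W, hW⟩ : ∃ W : Fin k → Submodule ℚ F, W = fun j => Submodule.span ℚ (Set.range fun i => v i j) :=
    ⟨_, rfl⟩
  have hWfin : ∀ j, FiniteDimensional ℚ (W j) := fun j => by
    rw [hW]
    exact FiniteDimensional.span_of_finite ℚ (Set.finite_range _)
  have hvW : ∀ (a : Fin N → ℚ) (j : Fin k), ∑ i, a i • v i j ∈ W j := by
    intro a j
    rw [hW]
    exact Submodule.sum_mem _ fun i _ => Submodule.smul_mem _ _ (Submodule.subset_span ⟨i, rfl⟩)
  obtain ⟨L, hL⟩ : ∃ L : (Fin N → ℚ) →ₗ[ℚ] ((j : Fin k) → W j), ∀ a j,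
      ((L a j : W j) : F) = ∑ i, a i • v i j := by
    refine ⟨LinearMap.pi fun j => LinearMap.codRestrict (W j)
      (Fintype.linearCombination ℚ (fun i => v i j)) (fun a => ?_), fun a j => ?_⟩
    · rw [Fintype.linearCombination_apply]
      exact hvW a j
    · rw [LinearMap.pi_apply, LinearMap.codRestrict_apply, Fintype.linearCombination_apply]
  have h1 := L.finrank_range_add_finrank_ker
  rw [Module.finrank_fintype_fun_eq_card, Fintype.card_fin] at h1
  have h2 : Module.finrank ℚ (LinearMap.range L) ≤ ∑ j, Module.finrank ℚ (W j) := by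
    rw [← Module.finrank_pi_fintype ℚ]
    exact Submodule.finrank_le _
  have h3 : ∑ j, (Module.finrank ℚ (W j) + 1) ≤ ∑ _j : Fin k, m := by
    refine Finset.sum_le_sum fun j _ => ?_
    have := hv j
    rw [hW]
    exact this
  rw [Finset.sum_add_distrib] at h3
  simp only [Finset.sum_const, Finset.card_univ, Fintype.card_fin, smul_eq_mul, mul_one] at h3
  have h4 : k ≤ Module.finrank ℚ (LinearMap.ker L) := by omega
  obtain ⟨f, hf⟩ := exists_linearIndependent_of_le_finrank h4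
  obtain ⟨a, ha⟩ : ∃ a : Fin k → Fin N → ℚ, a = fun s => (f s : Fin N → ℚ) := ⟨_, rfl⟩
  have ha1 : LinearIndependent ℚ a := by
    rw [ha]
    exact hf.map' (LinearMap.ker L).subtype (Submodule.ker_subtype _)
  have ha2 : ∀ s j, ∑ i, a s i • v i j = 0 := by
    intro s j
    rw [ha, ← hL]
    have e1 : L (f s : Fin N → ℚ) = 0 := (f s).2
    rw [e1]
    rfl
  obtain ⟨M, hM⟩ : ∃ M : ℕ, M = ∏ p : Fin k × Fin N, (a p.1 p.2).den := ⟨_, rfl⟩
  have hM0 : M ≠ 0 := by
    rw [hM]
    exact Finset.prod_ne_zero_iff.2 fun p _ => (a p.1 p.2).den_ne_zero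
  have hint : ∀ s i, ∃ c : ℤ, (c : ℚ) = (M : ℚ) * a s i := by
    intro s i
    refine ⟨(∏ p ∈ Finset.univ.erase ((s, i) : Fin k × Fin N), ((a p.1 p.2).den : ℤ)) * (a s i).num, ?_⟩
    rw [hM, ← Finset.mul_prod_erase Finset.univ _ (Finset.mem_univ ((s, i) : Fin k × Fin N))]
    push_cast
    have := Rat.mul_den_eq_num (a s i)
    rw [← this]
    ring
  choose c hc using hint
  refine ⟨c, ?_, fun s j => ?_⟩
  · have hMQ : (M : ℚ) ≠ 0 := by exact_mod_cast hM0
    have e1 := ha1.units_smul (fun _ => Units.mk0 (M : ℚ) hMQ)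
    have e2 : (fun s i => (c s i : ℚ)) = (fun _ : Fin k => Units.mk0 (M : ℚ) hMQ) • a := by
      funext s i
      rw [hc]
      rfl
    rw [e2]
    exact e1
  · have e1 : ∀ i, (c s i : F) * v i j = (M : F) * (a s i • v i j) := by
      intro i
      have e2 : (c s i : F) = (M : F) * ((a s i : ℚ) : F) := by
        have e3 := congrArg (fun q : ℚ => (q : F)) (hc s i)
        push_cast at e3
        exact e3
      rw [e2, Rat.smul_def]
      ring
    rw [Finset.sum_congr rfl fun i _ => e1 i, ← Finset.mul_sum, ha2, mul_zero]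

/-- combinations of independent numbers -/
theorem comb_indep {N k : ℕ} {x : Fin N → ℂ} (hx : LinearIndependent ℚ x) {c : Fin k → Fin N → ℤ}
    (hc : LinearIndependent ℚ (fun s i => (c s i : ℚ))) :
    LinearIndependent ℚ (fun s => ∑ i, (c s i : ℂ) * x i) := by
  have h1 := hc.map' (Fintype.linearCombination ℚ x) (by
    rw [LinearMap.ker_eq_bot]
    exact linearIndependent_iff_injective_fintypeLinearCombination.1 hx)
  have h2 : (Fintype.linearCombination ℚ x ∘ fun s i => (c s i : ℚ)) =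
      fun s => ∑ i, (c s i : ℂ) * x i := by
    funext s
    simp only [Function.comp_apply, Fintype.linearCombination_apply]
    refine Finset.sum_congr rfl fun i _ => ?_
    rw [Rat.smul_def]
    push_cast
    rfl
  rw [← h2]
  exact h1

/-- a field which is algebraic over a field with `r` generators -/
theorem trdeg_le_of {L : IntermediateField ℚ ℂ} {r : ℕ} (τ : Fin r → ℂ)
    (h : ∀ g ∈ L, IsAlgebraic (IntermediateField.adjoin ℚ (Set.range τ)) g) :
    Algebra.trdeg ℚ L ≤ r := by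
  classical
  obtain ⟨E, hE⟩ : ∃ E : IntermediateField ℚ ℂ, E = IntermediateField.adjoin ℚ (Set.range τ) :=
    ⟨_, rfl⟩
  rw [← hE] at h
  have h1 : Algebra.trdeg ℚ E ≤ r := by
    have e1 := trdeg_adjoin_le (k := ℚ) (Finset.univ.image τ)
    rw [Finset.coe_image, Finset.coe_univ, Set.image_univ, ← hE] at e1
    refine e1.trans ?_
    have e2 : (Finset.univ.image τ).card ≤ r := by
      refine Finset.card_image_le.trans ?_
      simp
    exact_mod_cast e2
  have hf1 : FaithfulSMul E (algebraicClosure E ℂ) :=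
    (faithfulSMul_iff_algebraMap_injective _ _).2 (algebraMap E (algebraicClosure E ℂ)).injective
  have hf2 : FaithfulSMul ℚ E :=
    (faithfulSMul_iff_algebraMap_injective _ _).2 (algebraMap ℚ E).injective
  have h2 : Algebra.trdeg ℚ E + Algebra.trdeg E (algebraicClosure E ℂ) =
    Algebra.trdeg ℚ (algebraicClosure E ℂ) := trdeg_add_eq ℚ E
  have h3 : Algebra.trdeg E (algebraicClosure E ℂ) = 0 :=
    trdeg_eq_zero_iff.2 (algebraicClosure.isAlgebraic E ℂ)
  have h4 : Algebra.trdeg ℚ L ≤ Algebra.trdeg ℚ (algebraicClosure E ℂ) := by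
    obtain ⟨f, hf⟩ : ∃ f : L →+* algebraicClosure E ℂ, ∀ z, ((f z : algebraicClosure E ℂ) : ℂ) = z := by
      refine ⟨{ toFun := fun z => ⟨z, mem_algebraicClosure_iff.2 (h z z.2)⟩, map_one' := rfl,
                map_mul' := fun _ _ => rfl, map_zero' := rfl, map_add' := fun _ _ => rfl },
        fun z => rfl⟩
    refine trdeg_le_of_injective f.toRatAlgHom ?_
    intro a b hab
    have e1 : f a = f b := hab
    exact Subtype.ext (by rw [← hf a, ← hf b, e1])
  refine h4.trans ?_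
  rw [← h2, h3, add_zero]
  exact h1

/-- the statement which is proved by induction -/
def Tr (r N : ℕ) : Prop :=
  ∀ x y : Fin N → ℂ, LinearIndependent ℚ x → LinearIndependent ℚ y →
    ∀ K : IntermediateField ℚ ℂ, Algebra.trdeg ℚ K ≤ r →
      ∃ i j, ¬ IsAlgebraic K (Complex.exp (x i * y j))

theorem half {r k n N R : ℕ} (IH : Tr r k) (hN : k * (n + (r + 1)) ≤ N) {x y : Fin N → ℂ}
    (hx : LinearIndependent ℚ x) (hy : LinearIndependent ℚ y) (t : Fin R → ℂ)
    (τ : Fin (r + 1) → ℂ) (hτ : ∀ j, τ j ∈ IntermediateField.adjoin ℚ (Set.range t))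
    (hL : ∀ g ∈ IntermediateField.adjoin ℚ (Set.range t),
      IsAlgebraic (IntermediateField.adjoin ℚ (Set.range τ)) g)
    (hθ : ∀ i j, Complex.exp (x i * y j) ∈ IntermediateField.adjoin ℚ (Set.range t))
    (k₀ : Fin R) (hk₀ : ¬ IsAlgebraic ℚ (t k₀))
    (hfreq : ∃ᶠ T : ℕ in atTop, Ind T t 1 (Fin.cons k₀ Fin.elim0) (sa R 1) (sb R 1) ∧
      ∀ I : Fin n → Fin N, Function.Injective I → ∃ s : Fin n → ℤ, s ≠ 0 ∧ (∀ i, |s i| ≤ T) ∧
        ‖∑ i, (s i : ℂ) * x (I i)‖ * 2 ^ (T ^ (KK R + 3)) ≤ 1) : False := by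
  classical
  obtain ⟨L, hLdef⟩ : ∃ L, L = IntermediateField.adjoin ℚ (Set.range t) := ⟨_, rfl⟩
  have hult := ultra t k₀ hk₀ _ hfreq
  rw [← hLdef] at hult hL hθ
  simp only [← hLdef] at hτ
  obtain ⟨F, iF, cF, D, φ, hφ1, hφ2⟩ := hult
  obtain ⟨θ, hθ'⟩ : ∃ θ : Fin N → Fin N → L, ∀ i j, ((θ i j : L) : ℂ) = Complex.exp (x i * y j) :=
    ⟨fun i j => ⟨_, hθ i j⟩, fun _ _ => rfl⟩
  have hθ0 : ∀ i j, φ (θ i j) ≠ 0 := by
    intro i j
    rw [map_ne_zero]
    intro h0
    have := hθ' i j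
    rw [h0] at this
    exact Complex.exp_ne_zero _ this.symm
  obtain ⟨τL, hτL⟩ : ∃ τL : Fin (r + 1) → L, ∀ j, ((τL j : L) : ℂ) = τ j :=
    ⟨fun j => ⟨τ j, hτ j⟩, fun _ => rfl⟩
  -- all elements of the field are algebraic over the first numbers
  have halg : ∀ g : L, IsAlgebraic (IntermediateField.adjoin ℚ (Set.range fun j => φ (τL j))) (φ g) := by
    intro g
    refine transfer L.val.toRingHom φ τL g ?_
    have e1 := hL g g.2
    have e2 : (fun j => L.val.toRingHom (τL j)) = τ := funext hτL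
    rw [e2]
    exact e1
  -- few independent logarithmic derivatives
  have hfin : ∀ j, Module.finrank ℚ (Submodule.span ℚ (Set.range fun i =>
      D (φ (θ i j)) / φ (θ i j))) < n + (r + 1) := by
    intro j
    refine AX.finrank_lt _ _ ?_
    intro J hJ hli
    obtain ⟨χ, hχ0, hχ⟩ := AX.ax (n := n) (r := r + 1) D (fun m => φ (θ (J m) j)) (fun m => hθ0 _ _)
      (fun j => φ (τL j)) (fun m => halg _) (by
        intro I hI
        obtain ⟨a, ha0, ha, hs⟩ := hφ2 n (fun i => x (J (I i))) (y j) (fun i => θ (J (I i)) j)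
          (fun i => hθ' _ _) (fun T hT => hT (J ∘ I) (hJ.comp hI))
        exact ⟨a, ha0, ha, hs⟩) (by simp)
    apply hχ0
    have e1 := Fintype.linearIndependent_iff.1 hli (fun m => (χ m : ℚ)) (by
      rw [← hχ]
      refine Finset.sum_congr rfl fun m _ => ?_
      rw [Rat.smul_def]
      push_cast
      rfl)
    funext m
    have := e1 m
    exact_mod_cast this
  have hkN : k ≤ N := by
    have : k * 1 ≤ k * (n + (r + 1)) := Nat.mul_le_mul_left _ (by omega)
    omega
  obtain ⟨c, hc1, hc2⟩ := many hN (fun i (j : Fin k) => D (φ (θ i (Fin.castLE hkN j))) /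
    φ (θ i (Fin.castLE hkN j))) (fun j => hfin _)
  -- the kernel of the derivation
  obtain ⟨K₀, hK₀⟩ := consts D φ
  -- its transcendence degree
  have htL : t k₀ ∈ L := by
    rw [hLdef]
    exact IntermediateField.subset_adjoin _ _ ⟨k₀, rfl⟩
  have hKL : K₀ ≤ L := by
    intro z hz
    obtain ⟨g, rfl, _⟩ := (hK₀ z).1 hz
    exact g.2
  have htrL : Algebra.trdeg ℚ L ≤ ((r + 1 : ℕ) : Cardinal) := trdeg_le_of τ hL
  have h5 : Algebra.trdeg ℚ K₀ ≤ (r : Cardinal) := by
    let _ : Algebra K₀ L := (IntermediateField.inclusion hKL).toRingHom.toAlgebra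
    have htow : IsScalarTower ℚ K₀ L := IsScalarTower.of_algebraMap_eq fun q => rfl
    refine trdeg_lt_of htrL ?_
    intro hal
    have e1 := hal.isAlgebraic (⟨t k₀, htL⟩ : L)
    have e2 := hφ1 ⟨t k₀, htL⟩ rfl
    let _ : Algebra K₀ F := (φ.comp (algebraMap K₀ L)).toAlgebra
    have e3 : IsAlgebraic K₀ (φ ⟨t k₀, htL⟩) := by
      obtain ⟨p, hp0, hp⟩ := e1
      refine ⟨p, hp0, ?_⟩
      rw [Polynomial.aeval_def] at hp ⊢
      have h2 : (algebraMap K₀ F) = φ.comp (algebraMap K₀ L) := rfl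
      rw [h2, ← Polynomial.hom_eval₂, hp, map_zero]
    have e4 := AX.der_alg (K := K₀) D (fun g => by
      obtain ⟨g', hg1, hg2⟩ := (hK₀ g).1 g.2
      have e5 : algebraMap K₀ L g = g' := Subtype.ext hg1.symm
      show D (φ (algebraMap K₀ L g)) = 0
      rw [e5, hg2]) e3
    rw [e4] at e2
    exact zero_ne_one e2
  obtain ⟨s, j, hsj⟩ := IH (fun s => ∑ i, (c s i : ℂ) * x i) (fun j => y (Fin.castLE hkN j))
    (comb_indep hx hc1) (hy.comp _ (Fin.castLE_injective hkN)) K₀ h5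
  apply hsj
  obtain ⟨g, hg⟩ : ∃ g : L, g = ∏ i, θ i (Fin.castLE hkN j) ^ (c s i) := ⟨_, rfl⟩
  have hg1 : ((g : L) : ℂ) = Complex.exp ((∑ i, (c s i : ℂ) * x i) * y (Fin.castLE hkN j)) := by
    rw [hg]
    have e1 : ((∏ i, θ i (Fin.castLE hkN j) ^ (c s i) : L) : ℂ) =
      L.val (∏ i, θ i (Fin.castLE hkN j) ^ (c s i)) := rfl
    rw [e1, map_prod, Finset.sum_mul, Complex.exp_sum]
    refine Finset.prod_congr rfl fun i _ => ?_
    rw [map_zpow₀, mul_assoc, Complex.exp_int_mul, ← hθ']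
    rfl
  have hg2 : D (φ g) = 0 := by
    have e1 := AX.ld_prod D Finset.univ (fun i => φ (θ i (Fin.castLE hkN j)) ^ (c s i))
      (fun i _ => zpow_ne_zero _ (hθ0 _ _))
    have e2 : ∏ i, φ (θ i (Fin.castLE hkN j)) ^ (c s i) = φ g := by
      rw [hg, map_prod]
      exact Finset.prod_congr rfl fun i _ => (map_zpow₀ φ _ _).symm
    rw [e2] at e1
    have e3 : ∑ i, D (φ (θ i (Fin.castLE hkN j)) ^ (c s i)) / φ (θ i (Fin.castLE hkN j)) ^ (c s i) =
        0 := by
      rw [← hc2 s j]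
      exact Finset.sum_congr rfl fun i _ => AX.ld_zpow D (hθ0 _ _) _
    rw [e3] at e1
    have e4 : φ g ≠ 0 := by
      rw [← e2]
      exact Finset.prod_ne_zero_iff.2 fun i _ => zpow_ne_zero _ (hθ0 _ _)
    exact (div_eq_zero_iff.1 e1).resolve_right e4
  rw [← hg1]
  exact isAlgebraic_algebraMap (⟨(g : ℂ), (hK₀ _).2 ⟨g, rfl, hg2⟩⟩ : K₀)

end Pool.Agent.Zk25.LT
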