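import Mathlib

/-!
# Length and degree of polynomials with integral coefficients
-/

set_option autoImplicit false

namespace Pool.Agent.Zk25.LT

open MvPolynomial

variable {σ : Type*}

/-- the sum of the absolute values of the coefficients -/
noncomputable def len (f : MvPolynomial σ ℤ) : ℕ := ∑ m ∈ f.support, (f.coeff m).natAbs

theorem len_of_subset {f : MvPolynomial σ ℤ} {S : Finset (σ →₀ ℕ)} (h : f.support ⊆ S) :
    len f = ∑ m ∈ S, (f.coeff m).natAbs := by
  unfold len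
  refine Finset.sum_subset h fun m _ hm => ?_
  rw [MvPolynomial.notMem_support_iff.1 hm]
  rfl

theorem len_zero : len (0 : MvPolynomial σ ℤ) = 0 := by
  simp [len]

theorem len_monomial (m : σ →₀ ℕ) (c : ℤ) : len (monomial m c) = c.natAbs := by
  classical
  rw [len_of_subset (S := {m}) support_monomial_subset]
  simp

theorem len_C (c : ℤ) : len (C c : MvPolynomial σ ℤ) = c.natAbs := len_monomial 0 c

theorem len_one : len (1 : MvPolynomial σ ℤ) = 1 := by
  have h := len_C (σ := σ) 1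
  simpa using h

theorem len_X (i : σ) : len (X i : MvPolynomial σ ℤ) = 1 := len_monomial _ 1

theorem len_neg (f : MvPolynomial σ ℤ) : len (-f) = len f := by
  unfold len
  rw [MvPolynomial.support_neg]
  simp

theorem len_add_le (f g : MvPolynomial σ ℤ) : len (f + g) ≤ len f + len g := by
  classical
  rw [len_of_subset (S := f.support ∪ g.support) MvPolynomial.support_add,
    len_of_subset (S := f.support ∪ g.support) (Finset.subset_union_left (s₂ := g.support)),
    len_of_subset (f := g) (S := f.support ∪ g.support)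
      (Finset.subset_union_right (s₁ := f.support)), ← Finset.sum_add_distrib]
  refine Finset.sum_le_sum fun m _ => ?_
  rw [coeff_add]
  exact Int.natAbs_add_le _ _

theorem len_sum_le {ι : Type*} (s : Finset ι) (f : ι → MvPolynomial σ ℤ) :
    len (∑ i ∈ s, f i) ≤ ∑ i ∈ s, len (f i) := by
  classical
  induction s using Finset.induction_on with
  | empty => simp [len_zero]
  | insert a s ha ih =>
    rw [Finset.sum_insert ha, Finset.sum_insert ha]
    exact (len_add_le _ _).trans (Nat.add_le_add_left ih _)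

theorem len_mul_le (f g : MvPolynomial σ ℤ) : len (f * g) ≤ len f * len g := by
  classical
  have h : f * g = ∑ m ∈ f.support, ∑ k ∈ g.support,
      monomial (m + k) (f.coeff m * g.coeff k) := by
    conv_lhs => rw [f.as_sum, g.as_sum, Finset.sum_mul_sum]
    refine Finset.sum_congr rfl fun m _ => Finset.sum_congr rfl fun k _ => ?_
    rw [monomial_mul]
  rw [h]
  refine (len_sum_le _ _).trans ?_
  unfold len
  rw [Finset.sum_mul_sum]
  refine Finset.sum_le_sum fun m _ => (len_sum_le _ _).trans ?_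
  refine Finset.sum_le_sum fun k _ => ?_
  rw [len_monomial, Int.natAbs_mul]

/-- the total degree is at most `d` and the length at most `h` -/
def Sz (d h : ℕ) (f : MvPolynomial σ ℤ) : Prop := f.totalDegree ≤ d ∧ len f ≤ h

theorem Sz.mono {d h d' h' : ℕ} {f : MvPolynomial σ ℤ} (hf : Sz d h f) (hd : d ≤ d')
    (hh : h ≤ h') : Sz d' h' f := ⟨hf.1.trans hd, hf.2.trans hh⟩

theorem Sz.zero (d h : ℕ) : Sz d h (0 : MvPolynomial σ ℤ) := by
  constructor
  · simp
  · simp [len_zero]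

theorem Sz.one : Sz 0 1 (1 : MvPolynomial σ ℤ) := ⟨by simp, len_one.le⟩

theorem Sz.C (c : ℤ) : Sz 0 c.natAbs (MvPolynomial.C c : MvPolynomial σ ℤ) :=
  ⟨(totalDegree_C c).le, (len_C c).le⟩

theorem Sz.X (i : σ) : Sz 1 1 (MvPolynomial.X i : MvPolynomial σ ℤ) :=
  ⟨by simp, (len_X i).le⟩

theorem Sz.neg {d h : ℕ} {f : MvPolynomial σ ℤ} (hf : Sz d h f) : Sz d h (-f) :=
  ⟨by rw [totalDegree_neg]; exact hf.1, by rw [len_neg]; exact hf.2⟩

theorem Sz.add {d h h' : ℕ} {f g : MvPolynomial σ ℤ} (hf : Sz d h f) (hg : Sz d h' g) :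
    Sz d (h + h') (f + g) :=
  ⟨(totalDegree_add _ _).trans (max_le hf.1 hg.1), (len_add_le _ _).trans (Nat.add_le_add hf.2 hg.2)⟩

theorem Sz.mul {d h d' h' : ℕ} {f g : MvPolynomial σ ℤ} (hf : Sz d h f) (hg : Sz d' h' g) :
    Sz (d + d') (h * h') (f * g) :=
  ⟨(totalDegree_mul _ _).trans (Nat.add_le_add hf.1 hg.1),
    (len_mul_le _ _).trans (Nat.mul_le_mul hf.2 hg.2)⟩

theorem Sz.sum {ι : Type*} (s : Finset ι) {d : ℕ} (h : ι → ℕ) (f : ι → MvPolynomial σ ℤ)
    (hf : ∀ i ∈ s, Sz d (h i) (f i)) : Sz d (∑ i ∈ s, h i) (∑ i ∈ s, f i) := by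
  classical
  induction s using Finset.induction_on with
  | empty => exact Sz.zero _ _
  | insert a s ha ih =>
    rw [Finset.sum_insert ha, Finset.sum_insert ha]
    exact (hf a (Finset.mem_insert_self _ _)).add
      (ih fun i hi => hf i (Finset.mem_insert_of_mem hi))

theorem Sz.sum_const {ι : Type*} (s : Finset ι) {d h : ℕ} (f : ι → MvPolynomial σ ℤ)
    (hf : ∀ i ∈ s, Sz d h (f i)) : Sz d (s.card * h) (∑ i ∈ s, f i) := by
  have h1 := Sz.sum s (fun _ => h) f hf
  rwa [Finset.sum_const, smul_eq_mul] at h1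

theorem Sz.prod {ι : Type*} (s : Finset ι) (d h : ι → ℕ) (f : ι → MvPolynomial σ ℤ)
    (hf : ∀ i ∈ s, Sz (d i) (h i) (f i)) : Sz (∑ i ∈ s, d i) (∏ i ∈ s, h i) (∏ i ∈ s, f i) := by
  classical
  induction s using Finset.induction_on with
  | empty => exact Sz.one
  | insert a s ha ih =>
    rw [Finset.sum_insert ha, Finset.prod_insert ha, Finset.prod_insert ha]
    exact (hf a (Finset.mem_insert_self _ _)).mul
      (ih fun i hi => hf i (Finset.mem_insert_of_mem hi))

theorem Sz.prod_const {ι : Type*} (s : Finset ι) {d h : ℕ} (f : ι → MvPolynomial σ ℤ)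
    (hf : ∀ i ∈ s, Sz d h (f i)) : Sz (s.card * d) (h ^ s.card) (∏ i ∈ s, f i) := by
  have h1 := Sz.prod s (fun _ => d) (fun _ => h) f hf
  rwa [Finset.sum_const, smul_eq_mul, Finset.prod_const] at h1

theorem Sz.pow {d h : ℕ} {f : MvPolynomial σ ℤ} (hf : Sz d h f) (n : ℕ) :
    Sz (n * d) (h ^ n) (f ^ n) := by
  induction n with
  | zero => simpa using Sz.one (σ := σ)
  | succ n ih =>
    have h1 := ih.mul hf
    rw [pow_succ, pow_succ, Nat.succ_mul]
    exact h1

theorem Sz.zsmul_unit {d h : ℕ} {f : MvPolynomial σ ℤ} (hf : Sz d h f) (u : ℤˣ) :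
    Sz d h (u • f) := by
  rcases Int.units_eq_one_or u with rfl | rfl
  · simpa using hf
  · simpa using hf.neg

theorem Sz.det {m d h : ℕ} {A : Matrix (Fin m) (Fin m) (MvPolynomial σ ℤ)}
    (hA : ∀ i j, Sz d h (A i j)) : Sz (m * d) (m.factorial * h ^ m) A.det := by
  classical
  rw [Matrix.det_apply]
  have h1 := Sz.sum_const (Finset.univ : Finset (Equiv.Perm (Fin m))) (d := m * d) (h := h ^ m)
    (fun τ => Equiv.Perm.sign τ • ∏ i, A (τ i) i) (fun τ _ => by
      have h2 := Sz.prod_const (Finset.univ : Finset (Fin m)) (fun i => A (τ i) i)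
        (fun i _ => hA (τ i) i)
      rw [Finset.card_univ, Fintype.card_fin] at h2
      exact h2.zsmul_unit _)
  rwa [Finset.card_univ, Fintype.card_perm, Fintype.card_fin] at h1

theorem Sz.matrix_pow {m d h : ℕ} {A : Matrix (Fin m) (Fin m) (MvPolynomial σ ℤ)}
    (hA : ∀ i j, Sz d h (A i j)) (n : ℕ) : ∀ i j, Sz (n * d) ((max m 1 * h) ^ n) ((A ^ n) i j) := by
  classical
  induction n with
  | zero =>
    intro i j
    rw [pow_zero, pow_zero, Nat.zero_mul]
    by_cases hij : i = j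
    · rw [hij, Matrix.one_apply_eq]; exact Sz.one
    · rw [Matrix.one_apply_ne hij]; exact Sz.zero _ _
  | succ n ih =>
    intro i j
    rw [pow_succ A, Matrix.mul_apply]
    have h1 := Sz.sum_const (Finset.univ : Finset (Fin m)) (d := n * d + d)
      (h := (max m 1 * h) ^ n * h) (fun k => (A ^ n) i k * A k j)
      (fun k _ => (ih i k).mul (hA k j))
    rw [Finset.card_univ, Fintype.card_fin] at h1
    refine h1.mono (by rw [Nat.succ_mul]) ?_
    rw [pow_succ]
    have h2 : m ≤ max m 1 := le_max_left _ _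
    calc m * ((max m 1 * h) ^ n * h) ≤ max m 1 * ((max m 1 * h) ^ n * h) := Nat.mul_le_mul_right _ h2
      _ = (max m 1 * h) ^ n * (max m 1 * h) := by ring

/-! ### Evaluation -/

/-- the value of a monomial -/
noncomputable def mval (z : σ → ℂ) (m : σ →₀ ℕ) : ℂ := m.prod fun i k => z i ^ k

theorem aeval_eq_sum (z : σ → ℂ) (f : MvPolynomial σ ℤ) :
    aeval z f = ∑ m ∈ f.support, ((f.coeff m : ℤ) : ℂ) * mval z m := by
  rw [MvPolynomial.aeval_def, MvPolynomial.eval₂_eq]
  rfl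

theorem mval_add (z : σ → ℂ) (m k : σ →₀ ℕ) : mval z (m + k) = mval z m * mval z k := by
  classical
  unfold mval
  exact Finsupp.prod_add_index' (fun _ => pow_zero _) (fun _ _ _ => pow_add _ _ _)

/-- the degree of a monomial -/
def mdeg (m : σ →₀ ℕ) : ℕ := m.sum fun _ k => k

theorem mdeg_add (m k : σ →₀ ℕ) : mdeg (m + k) = mdeg m + mdeg k := by
  classical
  unfold mdeg
  exact Finsupp.sum_add_index' (fun _ => rfl) (fun _ _ _ => rfl)

theorem mval_bound {A : ℝ} (hA : 1 ≤ A) {z : σ → ℂ} (hz : ∀ i, ‖z i‖ ≤ A) (m : σ →₀ ℕ) :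
    ‖mval z m‖ ≤ A ^ mdeg m := by
  classical
  induction m using Finsupp.induction_linear with
  | zero => simp [mval, mdeg]
  | add f g hf hg =>
    rw [mval_add, mdeg_add, pow_add, norm_mul]
    exact mul_le_mul hf hg (norm_nonneg _) (by positivity)
  | single a b =>
    have h1 : mval z (Finsupp.single a b) = z a ^ b := by
      unfold mval; exact Finsupp.prod_single_index (pow_zero _)
    have h2 : mdeg (Finsupp.single a b) = b := by
      unfold mdeg; exact Finsupp.sum_single_index rfl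
    rw [h1, h2, norm_pow]
    exact pow_le_pow_left₀ (norm_nonneg _) (hz a) b

theorem pow_sub_bound {A δ : ℝ} (hA : 1 ≤ A) {a b : ℂ} (ha : ‖a‖ ≤ A) (hb : ‖b‖ ≤ A)
    (hab : ‖a - b‖ ≤ δ) (n : ℕ) : ‖a ^ n - b ^ n‖ ≤ n * A ^ n * δ := by
  have hδ : 0 ≤ δ := (norm_nonneg _).trans hab
  induction n with
  | zero => simp
  | succ n ih =>
    have e : a ^ (n + 1) - b ^ (n + 1) = a ^ n * (a - b) + (a ^ n - b ^ n) * b := by ring
    rw [e]
    refine (norm_add_le _ _).trans ?_
    rw [norm_mul, norm_mul, norm_pow]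
    have h1 : ‖a‖ ^ n * ‖a - b‖ ≤ A ^ n * δ :=
      mul_le_mul (pow_le_pow_left₀ (norm_nonneg _) ha n) hab (norm_nonneg _) (by positivity)
    have h2 : ‖a ^ n - b ^ n‖ * ‖b‖ ≤ (n * A ^ n * δ) * A :=
      mul_le_mul ih hb (norm_nonneg _) (by positivity)
    have h3 : A ^ n * δ ≤ A ^ (n + 1) * δ := by
      refine mul_le_mul_of_nonneg_right (pow_le_pow_right₀ hA (Nat.le_succ n)) hδ
    push_cast
    calc _ ≤ A ^ n * δ + n * A ^ n * δ * A := add_le_add h1 h2
      _ ≤ A ^ (n + 1) * δ + n * A ^ n * δ * A := by linarith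
      _ = _ := by ring

theorem mval_sub_bound {A δ : ℝ} (hA : 1 ≤ A) {z w : σ → ℂ} (hz : ∀ i, ‖z i‖ ≤ A)
    (hw : ∀ i, ‖w i‖ ≤ A) (hδ : ∀ i, ‖z i - w i‖ ≤ δ) (hδ0 : 0 ≤ δ) (m : σ →₀ ℕ) :
    ‖mval z m - mval w m‖ ≤ mdeg m * A ^ mdeg m * δ := by
  classical
  induction m using Finsupp.induction_linear with
  | zero => simp [mval, mdeg]
  | add f g hf hg =>
    rw [mval_add, mval_add, mdeg_add]
    have e : mval z f * mval z g - mval w f * mval w g =
        mval z f * (mval z g - mval w g) + (mval z f - mval w f) * mval w g := by ring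
    rw [e]
    refine (norm_add_le _ _).trans ?_
    rw [norm_mul, norm_mul]
    have h1 : ‖mval z f‖ * ‖mval z g - mval w g‖ ≤ A ^ mdeg f * (mdeg g * A ^ mdeg g * δ) :=
      mul_le_mul (mval_bound hA hz f) hg (norm_nonneg _) (by positivity)
    have h2 : ‖mval z f - mval w f‖ * ‖mval w g‖ ≤ (mdeg f * A ^ mdeg f * δ) * A ^ mdeg g :=
      mul_le_mul hf (mval_bound hA hw g) (norm_nonneg _) (by positivity)
    refine (add_le_add h1 h2).trans (le_of_eq ?_)
    push_cast
    rw [pow_add]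
    ring
  | single a b =>
    have h1 : ∀ z : σ → ℂ, mval z (Finsupp.single a b) = z a ^ b := fun z => by
      unfold mval; exact Finsupp.prod_single_index (pow_zero _)
    have h2 : mdeg (Finsupp.single a b) = b := by
      unfold mdeg; exact Finsupp.sum_single_index rfl
    rw [h1, h1, h2]
    exact pow_sub_bound hA (hz a) (hw a) (hδ a) b

theorem mdeg_le {f : MvPolynomial σ ℤ} {m : σ →₀ ℕ} (hm : m ∈ f.support) :
    mdeg m ≤ f.totalDegree := le_totalDegree hm

theorem norm_aeval_le {A : ℝ} (hA : 1 ≤ A) {z : σ → ℂ} (hz : ∀ i, ‖z i‖ ≤ A) {d h : ℕ}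
    {f : MvPolynomial σ ℤ} (hf : Sz d h f) : ‖aeval z f‖ ≤ h * A ^ d := by
  rw [aeval_eq_sum]
  refine (norm_sum_le _ _).trans ?_
  have h1 : ∀ m ∈ f.support, ‖((f.coeff m : ℤ) : ℂ) * mval z m‖ ≤ ((f.coeff m).natAbs : ℝ) * A ^ d := by
    intro m hm
    rw [norm_mul, Complex.norm_intCast]
    have h2 : ((|f.coeff m| : ℤ) : ℝ) = ((f.coeff m).natAbs : ℝ) := by
      rw [Int.abs_eq_natAbs]; simp
    rw [← Int.cast_abs, h2]
    refine mul_le_mul_of_nonneg_left ?_ (Nat.cast_nonneg _)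
    exact (mval_bound hA hz m).trans (pow_le_pow_right₀ hA ((mdeg_le hm).trans hf.1))
  refine (Finset.sum_le_sum h1).trans ?_
  rw [← Finset.sum_mul]
  refine mul_le_mul_of_nonneg_right ?_ (by positivity)
  have h3 : ((len f : ℕ) : ℝ) ≤ h := Nat.cast_le.2 hf.2
  refine le_trans (le_of_eq ?_) h3
  unfold len
  push_cast
  rfl

theorem aeval_sub_le {A δ : ℝ} (hA : 1 ≤ A) {z w : σ → ℂ} (hz : ∀ i, ‖z i‖ ≤ A)
    (hw : ∀ i, ‖w i‖ ≤ A) (hδ : ∀ i, ‖z i - w i‖ ≤ δ) (hδ0 : 0 ≤ δ) {d h : ℕ}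
    {f : MvPolynomial σ ℤ} (hf : Sz d h f) :
    ‖aeval z f - aeval w f‖ ≤ h * (d * A ^ d * δ) := by
  rw [aeval_eq_sum, aeval_eq_sum, ← Finset.sum_sub_distrib]
  refine (norm_sum_le _ _).trans ?_
  have h1 : ∀ m ∈ f.support, ‖((f.coeff m : ℤ) : ℂ) * mval z m - ((f.coeff m : ℤ) : ℂ) * mval w m‖ ≤
      ((f.coeff m).natAbs : ℝ) * (d * A ^ d * δ) := by
    intro m hm
    rw [← mul_sub, norm_mul, Complex.norm_intCast]
    have h2 : ((|f.coeff m| : ℤ) : ℝ) = ((f.coeff m).natAbs : ℝ) := by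
      rw [Int.abs_eq_natAbs]; simp
    rw [← Int.cast_abs, h2]
    refine mul_le_mul_of_nonneg_left ?_ (Nat.cast_nonneg _)
    refine (mval_sub_bound hA hz hw hδ hδ0 m).trans ?_
    have h3 : mdeg m ≤ d := (mdeg_le hm).trans hf.1
    have h4 : (mdeg m : ℝ) ≤ d := Nat.cast_le.2 h3
    refine mul_le_mul_of_nonneg_right ?_ hδ0
    exact mul_le_mul h4 (pow_le_pow_right₀ hA h3) (by positivity) (Nat.cast_nonneg _)
  refine (Finset.sum_le_sum h1).trans ?_
  rw [← Finset.sum_mul]
  refine mul_le_mul_of_nonneg_right ?_ (by positivity)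
  have h3 : ((len f : ℕ) : ℝ) ≤ h := Nat.cast_le.2 hf.2
  refine le_trans (le_of_eq ?_) h3
  unfold len
  push_cast
  rfl

end Pool.Agent.Zk25.LT
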