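import Pool.Agent.Zk25.LT.GoodSep

/-!
# Linear forms in logarithms of algebraic numbers (the trivial bound)
-/

set_option autoImplicit false

namespace Pool.Agent.Zk25.LT

open MvPolynomial Filter

theorem lpt_zero {T a b : ℕ} (θ : Fin 0 → ℂ) : LPt T θ a b := by
  intro g _ hg0
  have h1 := one_le_zero θ g hg0
  have h4 : (1 : ℝ) ≤ 2 ^ (T ^ b) := one_le_pow₀ (by norm_num)
  nlinarith

/-- linear forms in logarithms at all large scales -/
theorem sep_log {m : ℕ} (y : Fin m → ℂ) (hy : LinearIndependent ℚ y)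
    (hyl : ∀ i, IsAlgebraic ℚ (Complex.exp (y i))) :
    ∃ T₀ : ℕ, ∀ T, T₀ ≤ T → ∀ s : Fin m → ℤ, s ≠ 0 →
      (∀ i, |s i| ≤ T) → 1 ≤ ‖∑ i, (s i : ℂ) * y i‖ * 2 ^ (T ^ 10) := by
  classical
  obtain ⟨θ, hθ⟩ : ∃ θ : Fin 0 → ℂ, θ = Fin.elim0 := ⟨_, rfl⟩
  obtain ⟨z, hz⟩ : ∃ z : Fin m × Bool → ℂ, z = fun p => Complex.exp (if p.2 then y p.1 else - y p.1) :=
    ⟨_, rfl⟩
  have hza : ∀ p, IsAlgebraic (IntermediateField.adjoin ℚ (Set.range θ)) (z p) := by
    intro p
    have h1 : IsAlgebraic ℚ (z p) := by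
      rw [hz]
      by_cases hp : p.2
      · simp only [hp, if_true]
        exact hyl p.1
      · simp only [hp]
        rw [if_neg (by simp), Complex.exp_neg]
        exact (hyl p.1).inv
    refine isAlg_of_subset (A := ℚ) ?_ h1
    intro a
    exact ⟨algebraMap ℚ _ a, rfl⟩
  obtain ⟨ω, hω, hωz⟩ := exists_gens θ (Finset.univ.image z) (by
    intro g hg
    obtain ⟨i, _, rfl⟩ := Finset.mem_image.1 hg
    exact hza i)
  obtain ⟨f, hf0, hf⟩ := alg_poly θ hω
  obtain ⟨b, A, hb, hA⟩ := common (Fin.cons ω θ : Fin 1 → ℂ) z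
    (fun i => hωz _ (Finset.mem_image_of_mem _ (Finset.mem_univ i)))
  obtain ⟨t, ht⟩ : ∃ t : Fin 1 → ℂ, t = Fin.cons ω θ := ⟨_, rfl⟩
  rw [← ht] at hf hb hA
  -- constants
  obtain ⟨d, hd⟩ : ∃ d : ℕ, d = b.totalDegree + ∑ i, (A i).totalDegree + 1 := ⟨_, rfl⟩
  obtain ⟨H, hH⟩ : ∃ H : ℕ, H = len b + (∑ i, len (A i)) + 1 := ⟨_, rfl⟩
  obtain ⟨Q, hQ⟩ : ∃ Q : ℕ, Q = ⌈‖aeval t b‖⌉₊ := ⟨_, rfl⟩
  have hbS : Sz d H b := ⟨by omega, by omega⟩
  have hAS : ∀ p, Sz d H (A p) := by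
    intro p
    have h6 : (A p).totalDegree ≤ ∑ i, (A i).totalDegree :=
      Finset.single_le_sum (f := fun i => (A i).totalDegree) (fun _ _ => Nat.zero_le _)
        (Finset.mem_univ p)
    have h7 : len (A p) ≤ ∑ i, len (A i) :=
      Finset.single_le_sum (f := fun i => len (A i)) (fun _ _ => Nat.zero_le _)
        (Finset.mem_univ p)
    exact ⟨by omega, by omega⟩
  have hT₀ : ∀ᶠ T : ℕ in atTop, 16 + d * m + (H * m + 1) + Q * m + f.totalDegree + len f ≤ T :=
    eventually_ge_atTop _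
  obtain ⟨T₀, hT₀⟩ := eventually_atTop.1 (hT₀.and (ev_norm ω))
  refine ⟨T₀, fun T hT s hs hsT => ?_⟩
  obtain ⟨h1, h2⟩ := hT₀ T hT
  have hT16 : 16 ≤ T := by omega
  have hT1 : 1 ≤ T := by omega
  -- Liouville's inequality for ω
  have hLP : LPt T t 2 9 := by
    rw [ht]
    refine LPt.step hT16 (a := 2) (b := 8) (by omega) (fun i => i.elim0) (lpt_zero θ) (f := f) ?_ hf0
      (by rw [← ht]; exact hf)
    have e1 : T ≤ T ^ 2 := by nlinarith
    have e2 : T ^ 2 ≤ 2 ^ (T ^ 2) := (Nat.lt_two_pow_self).le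
    exact ⟨by omega, by omega⟩
  -- the number z
  obtain ⟨w, hw⟩ : ∃ w : ℂ, w = ∑ i, (s i : ℂ) * y i := ⟨_, rfl⟩
  have hw0 : w ≠ 0 := by
    intro h0
    apply hs
    funext i
    have h4 := (Fintype.linearIndependent_iff.1 hy) (fun i => (s i : ℚ)) (by
      rw [← h0, hw]
      refine Finset.sum_congr rfl fun i _ => ?_
      rw [Rat.smul_def]
      push_cast
      rfl) i
    exact_mod_cast h4
  rw [← hw]
  have hbig : (1 : ℝ) ≤ 2 ^ (T ^ 10) := one_le_pow₀ (by norm_num)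
  by_cases hw1 : 1 ≤ ‖w‖
  · nlinarith
  rw [not_le] at hw1
  by_cases hexp : Complex.exp w = 1
  · exfalso
    obtain ⟨k, hk⟩ := Complex.exp_eq_one_iff.1 hexp
    have hk0 : k ≠ 0 := by
      rintro rfl
      apply hw0
      rw [hk]
      simp
    have e1 : ‖w‖ = |(k : ℝ)| * (2 * Real.pi) := by
      rw [hk, norm_mul, Complex.norm_intCast]
      congr 1
      rw [norm_mul, norm_mul, Complex.norm_I]
      simp [Real.pi_pos.le]
    have e2 : (1 : ℝ) ≤ |(k : ℝ)| := by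
      rw [← Int.cast_abs]
      exact_mod_cast Int.one_le_abs hk0
    have e3 := Real.pi_gt_three
    nlinarith
  -- the polynomial
  obtain ⟨P, hP⟩ : ∃ P : Fin m → MvPolynomial (Fin 1) ℤ, P = fun i => A (i, decide (0 ≤ s i)) :=
    ⟨_, rfl⟩
  have hPe : ∀ i, aeval t (P i ^ (s i).natAbs * b ^ (T - (s i).natAbs)) =
      aeval t b ^ T * Complex.exp ((s i : ℂ) * y i) := by
    intro i
    have h3 : (s i).natAbs ≤ T := by
      have := hsT i
      rw [Int.abs_eq_natAbs] at this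
      exact_mod_cast this
    have h4 : aeval t (P i) = aeval t b * z (i, decide (0 ≤ s i)) := by
      rw [hP]
      exact (hA _).symm
    have h5 : z (i, decide (0 ≤ s i)) ^ (s i).natAbs = Complex.exp ((s i : ℂ) * y i) := by
      rw [hz]
      simp only [decide_eq_true_eq]
      by_cases hsi : 0 ≤ s i
      · rw [if_pos hsi, ← Complex.exp_nat_mul]
        congr 1
        have : (((s i).natAbs : ℕ) : ℤ) = s i := Int.natAbs_of_nonneg hsi
        have h6 : (((s i).natAbs : ℕ) : ℂ) = (s i : ℂ) := by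
          rw [← Int.cast_natCast, this]
        rw [h6]
      · rw [if_neg hsi, ← Complex.exp_nat_mul]
        congr 1
        have : (((s i).natAbs : ℕ) : ℤ) = - s i := Int.ofNat_natAbs_of_nonpos (by omega)
        have h6 : (((s i).natAbs : ℕ) : ℂ) = -(s i : ℂ) := by
          rw [← Int.cast_natCast, this, Int.cast_neg]
        rw [h6]
        ring
    rw [map_mul, map_pow, map_pow, h4, mul_pow, h5]
    have h6 : aeval t b ^ T = aeval t b ^ (s i).natAbs * aeval t b ^ (T - (s i).natAbs) := by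
      rw [← pow_add, Nat.add_sub_cancel' h3]
    rw [h6]
    ring
  obtain ⟨g, hg⟩ : ∃ g : MvPolynomial (Fin 1) ℤ, g =
    (∏ i, (P i ^ (s i).natAbs * b ^ (T - (s i).natAbs))) + -(b ^ (m * T)) := ⟨_, rfl⟩
  have hge : aeval t g = aeval t b ^ (m * T) * (Complex.exp w - 1) := by
    rw [hg, map_add, map_neg, map_prod, Finset.prod_congr rfl fun i _ => hPe i,
      Finset.prod_mul_distrib, Finset.prod_const, Finset.card_univ, Fintype.card_fin, ← pow_mul,
      ← Complex.exp_sum, ← hw, map_pow, mul_comm T m]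
    ring
  have hg0 : aeval t g ≠ 0 := by
    rw [hge]
    exact mul_ne_zero (pow_ne_zero _ hb) (sub_ne_zero.2 hexp)
  have hgS : Sz (T ^ 2) (2 ^ (T ^ 2)) g := by
    have h3 : ∀ i ∈ (Finset.univ : Finset (Fin m)), Sz (T * d) (H ^ T)
        (P i ^ (s i).natAbs * b ^ (T - (s i).natAbs)) := by
      intro i _
      have h3 : (s i).natAbs ≤ T := by
        have := hsT i
        rw [Int.abs_eq_natAbs] at this
        exact_mod_cast this
      have h4 : Sz d H (P i) := by rw [hP]; exact hAS _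
      refine ((h4.pow _).mul (hbS.pow _)).mono ?_ ?_
      · rw [← Nat.add_mul, Nat.add_sub_cancel' h3]
      · rw [← pow_add, Nat.add_sub_cancel' h3]
    have h4 := Sz.prod_const _ _ h3
    rw [Finset.card_univ, Fintype.card_fin, ← pow_mul] at h4
    have h5 : Sz (m * (T * d)) (H ^ (m * T)) (b ^ (m * T)) :=
      (hbS.pow (m * T)).mono (by rw [mul_assoc]) le_rfl
    rw [hg]
    refine (h4.add h5.neg).mono ?_ ?_
    · have : m * (T * d) = (d * m) * T := by ring
      rw [this, pow_two]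
      exact Nat.mul_le_mul_right _ (by omega)
    · have e1 : H ^ (T * m) ≤ 2 ^ (H * (T * m)) := by
        calc H ^ (T * m) ≤ (2 ^ H) ^ (T * m) := Nat.pow_le_pow_left (Nat.lt_two_pow_self).le _
          _ = _ := (pow_mul _ _ _).symm
      have e2 : H ^ (m * T) ≤ 2 ^ (H * (T * m)) := by
        rw [mul_comm m T]
        exact e1
      have e3 : 2 ^ (H * (T * m)) + 2 ^ (H * (T * m)) ≤ 2 ^ (T ^ 2) := by
        rw [← two_mul, ← pow_succ']
        refine Nat.pow_le_pow_right (by omega) ?_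
        have h6 : H * (T * m) + 1 ≤ (H * m + 1) * T := by nlinarith
        refine h6.trans ?_
        rw [pow_two]
        exact Nat.mul_le_mul_right _ (by omega)
      omega
  have h3 := hLP g hgS hg0
  rw [hge, norm_mul, norm_pow] at h3
  have h4 : ‖Complex.exp w - 1‖ ≤ 2 * ‖w‖ := Complex.norm_exp_sub_one_le hw1.le
  have h5 : ‖aeval t b‖ ^ (m * T) ≤ 2 ^ (T ^ 2) := by
    have e1 : ‖aeval t b‖ ≤ Q := by rw [hQ]; exact Nat.le_ceil _
    have e2 : ‖aeval t b‖ ^ (m * T) ≤ (Q : ℝ) ^ (m * T) := pow_le_pow_left₀ (norm_nonneg _) e1 _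
    have e3 : Q ^ (m * T) ≤ 2 ^ (T ^ 2) := by
      calc Q ^ (m * T) ≤ (2 ^ Q) ^ (m * T) := Nat.pow_le_pow_left (Nat.lt_two_pow_self).le _
        _ = 2 ^ (Q * m * T) := by rw [← pow_mul, mul_assoc]
        _ ≤ 2 ^ (T ^ 2) := by
          refine Nat.pow_le_pow_right (by omega) ?_
          rw [pow_two]
          exact Nat.mul_le_mul_right _ (by omega)
    refine e2.trans ?_
    exact_mod_cast e3
  have h6 : (1 : ℝ) ≤ (2 ^ (T ^ 2) * (2 * ‖w‖)) * 2 ^ (T ^ 9) :=
    h3.trans (mul_le_mul_of_nonneg_right (mul_le_mul h5 h4 (norm_nonneg _) (by positivity))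
      (by positivity))
  have h7 : (2 : ℝ) ^ (T ^ 2) * 2 * 2 ^ (T ^ 9) ≤ 2 ^ (T ^ 10) := by
    rw [← pow_succ, ← pow_add]
    refine pow_le_pow_right₀ (by norm_num) ?_
    have f1 := sixteen hT16 (a := 2) (b := 10) (by omega)
    have f2 := sixteen hT16 (a := 9) (b := 10) (by omega)
    have f3 := sixteen hT16 (a := 0) (b := 10) (by omega)
    rw [pow_zero] at f3
    omega
  calc (1 : ℝ) ≤ (2 ^ (T ^ 2) * (2 * ‖w‖)) * 2 ^ (T ^ 9) := h6
    _ = ‖w‖ * (2 ^ (T ^ 2) * 2 * 2 ^ (T ^ 9)) := by ring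
    _ ≤ _ := mul_le_mul_of_nonneg_left h7 (norm_nonneg _)

end Pool.Agent.Zk25.LT
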