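import Pool.Agent.Zk25.LT.Half
import Pool.Agent.Zk25.LT.Logs

/-!
# The theorem without the technical hypothesis
-/

set_option autoImplicit false

namespace Pool.Agent.Zk25.LT

open Filter

/-- no small integral linear relations -/
def SepF (T k : ℕ) {n : ℕ} (x : Fin n → ℂ) : Prop :=
  ∀ s : Fin n → ℤ, s ≠ 0 → (∀ i, |s i| ≤ T) → 1 ≤ ‖∑ i, (s i : ℂ) * x i‖ * 2 ^ (T ^ k)

theorem exists_ext {n : ℕ} (x : Fin n → ℂ) : ∃ x' : ℕ → ℂ, ∀ i : Fin n, x' i = x i :=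
  ⟨fun i => if h : i < n then x ⟨i, h⟩ else 0, fun i => by simp only [i.2, dif_pos]⟩

theorem critF (r κ n : ℕ) (hn : N₀ (r + 1) κ ≤ n) (x y : Fin n → ℂ)
    (hs : ∃ᶠ T in atTop, SepF T κ x ∧ SepF T κ y)
    (K : IntermediateField ℚ ℂ) (hK : Algebra.trdeg ℚ K ≤ r) :
    ∃ i j, ¬ IsAlgebraic K (Complex.exp (x i * y j)) := by
  obtain ⟨x', hx'⟩ := exists_ext x
  obtain ⟨y', hy'⟩ := exists_ext y
  rw [frequently_atTop] at hs
  obtain ⟨i, hi, j, hj, h⟩ := crit r κ n hn x' y' (by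
    intro T₀
    obtain ⟨T, hT, h1, h2⟩ := hs T₀
    refine ⟨T, hT, ?_, ?_⟩
    · intro s hs hsT
      have := h1 s hs hsT
      simp only [hx']
      exact this
    · intro s hs hsT
      have := h2 s hs hsT
      simp only [hy']
      exact this) K hK
  refine ⟨⟨i, hi⟩, ⟨j, hj⟩, ?_⟩
  rw [← hx', ← hy']
  exact h

theorem sep_alg {N : ℕ} {x : Fin N → ℂ} (hx : LinearIndependent ℚ x) {y : ℂ} (hy : y ≠ 0)
    (h : ∀ i, IsAlgebraic ℚ (Complex.exp (x i * y))) :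
    ∀ᶠ T in atTop, SepF T 11 x := by
  obtain ⟨T₀, hT₀⟩ := sep_log (fun i => x i * y) (by
    have h1 := hx.map' (LinearMap.mulRight ℚ y) (by
      rw [LinearMap.ker_eq_bot]
      intro a b hab
      exact mul_right_cancel₀ hy hab)
    exact h1) h
  filter_upwards [eventually_ge_atTop T₀, eventually_ge_atTop 16, ev_norm y] with T h1 h2 h3
  intro s hs hsT
  have h4 := hT₀ T h1 s hs hsT
  have h5 : ∑ i, (s i : ℂ) * (x i * y) = (∑ i, (s i : ℂ) * x i) * y := by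
    rw [Finset.sum_mul]
    exact Finset.sum_congr rfl fun i _ => (mul_assoc _ _ _).symm
  rw [h5, norm_mul] at h4
  have h6 : ‖y‖ * 2 ^ (T ^ 10) ≤ 2 ^ (T ^ 11) := by
    have e1 : (T : ℝ) ≤ 2 ^ T := by exact_mod_cast (Nat.lt_two_pow_self).le
    calc ‖y‖ * 2 ^ (T ^ 10) ≤ 2 ^ T * 2 ^ (T ^ 10) :=
          mul_le_mul_of_nonneg_right (h3.trans e1) (by positivity)
      _ = 2 ^ (T + T ^ 10) := by rw [pow_add]
      _ ≤ 2 ^ (T ^ 11) := by
          refine pow_le_pow_right₀ (by norm_num) ?_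
          have s1 := sixteen h2 (a := 1) (b := 11) (by omega)
          have s2 := sixteen h2 (a := 10) (b := 11) (by omega)
          rw [pow_one] at s1
          omega
  calc (1 : ℝ) ≤ ‖∑ i, (s i : ℂ) * x i‖ * ‖y‖ * 2 ^ (T ^ 10) := h4
    _ = ‖∑ i, (s i : ℂ) * x i‖ * (‖y‖ * 2 ^ (T ^ 10)) := by ring
    _ ≤ _ := mul_le_mul_of_nonneg_left h6 (norm_nonneg _)

theorem alg_case {N : ℕ} (hN : N₀ 1 11 ≤ N) {x y : Fin N → ℂ} (hx : LinearIndependent ℚ x)
    (hy : LinearIndependent ℚ y) (h : ∀ i j, IsAlgebraic ℚ (Complex.exp (x i * y j))) : False := by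
  have hpos : 0 < N := by
    have : 0 < N₀ 1 11 := by unfold N₀; norm_num
    omega
  have h1 := sep_alg hx (hy.ne_zero ⟨0, hpos⟩) (fun i => h i _)
  have h2 := sep_alg hy (hx.ne_zero ⟨0, hpos⟩) (fun j => by rw [mul_comm]; exact h _ j)
  obtain ⟨i, j, hij⟩ := critF 0 11 N hN x y (h1.and h2).frequently ⊥ (by
    rw [Nat.cast_zero]
    refine le_of_eq ?_
    rw [trdeg_eq_zero_iff]
    infer_instance)
  apply hij
  exact (h i j).extendScalars (algebraMap ℚ (⊥ : IntermediateField ℚ ℂ)).injective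

theorem N₀_mono {R R' κ κ' : ℕ} (h : R ≤ R') (h' : κ ≤ κ') : N₀ R κ ≤ N₀ R' κ' := by
  unfold N₀
  refine Nat.mul_le_mul (Nat.pow_le_pow_right (by omega) (by omega)) ?_
  have : 3 ^ (R * (R + 1)) ≤ 3 ^ (R' * (R' + 1)) :=
    Nat.pow_le_pow_right (by omega) (Nat.mul_le_mul h (by omega))
  omega

theorem base {N : ℕ} (hN : N₀ 1 11 ≤ N) : Tr 0 N := by
  intro x y hx hy K hK
  by_contra hcon
  push Not at hcon
  rw [Nat.cast_zero, nonpos_iff_eq_zero, trdeg_eq_zero_iff] at hK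
  refine alg_case hN hx hy fun i j => ?_
  exact (hcon i j).restrictScalars ℚ

theorem mem_alg {r : ℕ} {τ : Fin r → ℂ} {ω : ℂ}
    (hω : IsAlgebraic (IntermediateField.adjoin ℚ (Set.range τ)) ω) :
    ∀ g ∈ IntermediateField.adjoin ℚ (Set.range (Fin.cons ω τ : Fin (r + 1) → ℂ)),
      IsAlgebraic (IntermediateField.adjoin ℚ (Set.range τ)) g := by
  obtain ⟨E, hE⟩ : ∃ E : IntermediateField ℚ ℂ, E = IntermediateField.adjoin ℚ (Set.range τ) :=
    ⟨_, rfl⟩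
  rw [← hE] at hω ⊢
  intro g hg
  have h1 : IntermediateField.adjoin ℚ (Set.range (Fin.cons ω τ : Fin (r + 1) → ℂ)) ≤
      (algebraicClosure E ℂ).restrictScalars ℚ := by
    rw [IntermediateField.adjoin_le_iff]
    rintro _ ⟨i, rfl⟩
    refine Fin.cases ?_ (fun i => ?_) i
    · exact mem_algebraicClosure_iff.2 hω
    · rw [Fin.cons_succ]
      have h2 : τ i ∈ E := by
        rw [hE]
        exact IntermediateField.subset_adjoin _ _ ⟨i, rfl⟩
      exact mem_algebraicClosure_iff.2 (isAlgebraic_algebraMap (⟨τ i, h2⟩ : E))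
  exact mem_algebraicClosure_iff.1 (h1 hg)

theorem step {r k n N : ℕ} (IH : Tr r k) (hn : N₀ (r + 2) (KK (r + 2) + 3) ≤ n) (hnN : n ≤ N)
    (hN : k * (n + (r + 1)) ≤ N) : Tr (r + 1) N := by
  classical
  intro x y hx hy K hK
  by_contra hcon
  push Not at hcon
  obtain ⟨τ, hτ⟩ := exists_basis K hK
  obtain ⟨ω, hωalg, hω⟩ := exists_gens τ (Finset.univ.image fun p : Fin N × Fin N =>
    Complex.exp (x p.1 * y p.2)) (by
      intro g hg
      obtain ⟨p, _, rfl⟩ := Finset.mem_image.1 hg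
      exact hτ _ (hcon p.1 p.2))
  have hL := mem_alg hωalg
  obtain ⟨t, ht⟩ : ∃ t : Fin (r + 2) → ℂ, t = Fin.cons ω τ := ⟨_, rfl⟩
  rw [← ht] at hω hL
  have hθ : ∀ i j, Complex.exp (x i * y j) ∈ IntermediateField.adjoin ℚ (Set.range t) := fun i j =>
    hω _ (Finset.mem_image_of_mem (fun p : Fin N × Fin N => Complex.exp (x p.1 * y p.2))
      (Finset.mem_univ (i, j)))
  have hτt : ∀ j, τ j ∈ IntermediateField.adjoin ℚ (Set.range t) := by
    intro j
    refine IntermediateField.subset_adjoin _ _ ⟨j.succ, ?_⟩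
    rw [ht, Fin.cons_succ]
  by_cases halg : ∀ k, IsAlgebraic ℚ (t k)
  · have h1 : IntermediateField.adjoin ℚ (Set.range t) ≤ algebraicClosure ℚ ℂ := by
      rw [IntermediateField.adjoin_le_iff]
      rintro _ ⟨i, rfl⟩
      exact mem_algebraicClosure_iff.2 (halg i)
    have h2 : N₀ 1 11 ≤ N := by
      refine le_trans ?_ (hn.trans hnN)
      refine N₀_mono (by omega) ?_
      unfold KK EE
      have e1 : 1 ≤ 3 ^ (r + 2) := Nat.one_le_pow _ _ (by omega)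
      have e2 := Nat.mul_le_mul_right (36 + 2 * (r + 2) + 7 * 3 ^ ((r + 2) * (r + 2 + 1))) e1
      omega
    exact alg_case h2 hx hy fun i j => mem_algebraicClosure_iff.1 (h1 (hθ i j))
  · push Not at halg
    obtain ⟨k₀, hk₀⟩ := halg
    have hT : ∃ᶠ T in atTop, Ind T t 1 (Fin.cons k₀ Fin.elim0) (sa (r + 2) 1) (sb (r + 2) 1) := by
      rw [frequently_atTop]
      intro T₀
      obtain ⟨T, hT, h⟩ := one_var t k₀ hk₀ (a := sa (r + 2) 1) (b := sb (r + 2) 1) (by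
        unfold sa sb EE
        have e1 : 3 ^ ((r + 2) * ((r + 2) + 1)) = 3 ^ (r + 2) * 3 ^ ((r + 2) * ((r + 2) + 1 - 1)) := by
          rw [← pow_add]
          congr 1
          rw [Nat.add_sub_cancel]
          ring
        have e2 : 3 ^ 2 ≤ 3 ^ (r + 2) := Nat.pow_le_pow_right (by omega) (by omega)
        have e3 := Nat.mul_le_mul_right (3 ^ ((r + 2) * ((r + 2) + 1 - 1))) e2
        rw [e1]
        omega) T₀
      exact ⟨T, hT, h⟩
    have hev : ∀ᶠ T in atTop, ∀ I J : Fin n → Fin N,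
        ¬ (SepF T (KK (r + 2) + 3) (x ∘ I) ∧ SepF T (KK (r + 2) + 3) (y ∘ J)) := by
      rw [eventually_all]
      intro I
      rw [eventually_all]
      intro J
      by_contra h
      have h1 : ∃ᶠ T in atTop, (SepF T (KK (r + 2) + 3) (x ∘ I) ∧ SepF T (KK (r + 2) + 3) (y ∘ J)) := h
      obtain ⟨i, j, hij⟩ := critF (r + 1) _ n hn (x ∘ I) (y ∘ J) h1 K hK
      exact hij (hcon (I i) (J j))
    have hor : ∃ᶠ T in atTop, (Ind T t 1 (Fin.cons k₀ Fin.elim0) (sa (r + 2) 1) (sb (r + 2) 1) ∧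
        ∀ I : Fin n → Fin N, Function.Injective I → ¬ SepF T (KK (r + 2) + 3) (x ∘ I)) ∨
        (Ind T t 1 (Fin.cons k₀ Fin.elim0) (sa (r + 2) 1) (sb (r + 2) 1) ∧
        ∀ I : Fin n → Fin N, Function.Injective I → ¬ SepF T (KK (r + 2) + 3) (y ∘ I)) := by
      refine (hT.and_eventually hev).mono ?_
      rintro T ⟨h1, h2⟩
      by_cases h3 : ∀ I : Fin n → Fin N, Function.Injective I → ¬ SepF T (KK (r + 2) + 3) (x ∘ I)
      · exact Or.inl ⟨h1, h3⟩
      · push Not at h3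
        obtain ⟨I, _, hI⟩ := h3
        exact Or.inr ⟨h1, fun J _ hJ => h2 I J ⟨hI, hJ⟩⟩
    have hsep : ∀ (T : ℕ) (z : Fin n → ℂ), ¬ SepF T (KK (r + 2) + 3) z → ∃ s : Fin n → ℤ, s ≠ 0 ∧
        (∀ i, |s i| ≤ T) ∧ ‖∑ i, (s i : ℂ) * z i‖ * 2 ^ (T ^ (KK (r + 2) + 3)) ≤ 1 := by
      intro T z hz
      unfold SepF at hz
      push Not at hz
      obtain ⟨s, h1, h2, h3⟩ := hz
      exact ⟨s, h1, h2, h3.le⟩
    rw [frequently_or_distrib] at hor
    rcases hor with hor | hor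
    · exact half IH hN hx hy t τ hτt hL hθ k₀ hk₀ (hor.mono fun T hT =>
        ⟨hT.1, fun I hI => hsep T _ (hT.2 I hI)⟩)
    · exact half IH hN hy hx t τ hτt hL (fun i j => by rw [mul_comm]; exact hθ j i) k₀ hk₀
        (hor.mono fun T hT => ⟨hT.1, fun I hI => hsep T _ (hT.2 I hI)⟩)

theorem bound (r : ℕ) : N₀ (r + 2) (KK (r + 2) + 3) + (r + 1) ≤ 3 ^ (3 * r ^ 2 + 15 * r + 19) := by
  unfold N₀ KK EE
  obtain ⟨q, hq⟩ : ∃ q, q = 3 ^ ((r + 2) * (r + 2 + 1)) := ⟨_, rfl⟩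
  obtain ⟨p, hp⟩ : ∃ p, p = 3 ^ r := ⟨_, rfl⟩
  have hp1 : 1 ≤ p := by rw [hp]; exact Nat.one_le_pow _ _ (by omega)
  have hrp : r + 1 ≤ p := by rw [hp]; exact Nat.succ_le_of_lt (Nat.lt_pow_self (by omega))
  have hpq : 729 * p ≤ q := by
    rw [hp, hq]
    have : 729 * 3 ^ r = 3 ^ (r + 6) := by rw [pow_add]; ring
    rw [this]
    exact Nat.pow_le_pow_right (by omega) (by nlinarith)
  rw [← hq]
  have e1 : 3 ^ (r + 2) = 9 * p := by rw [hp, pow_add]; ring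
  have e2 : 3 ^ (r + 2 + 1) = 27 * p := by rw [hp, pow_add, pow_add]; ring
  rw [e1, e2]
  have e3 : 36 + 2 * (r + 2) + 7 * q ≤ 8 * q := by omega
  have e4 : 9 * p * (36 + 2 * (r + 2) + 7 * q) ≤ 72 * (p * q) := by
    calc 9 * p * (36 + 2 * (r + 2) + 7 * q) ≤ 9 * p * (8 * q) := Nat.mul_le_mul_left _ e3
      _ = 72 * (p * q) := by ring
  have e5 : q ≤ p * q := by nlinarith
  have e6 : 36 + 2 * (r + 2) + 2 * (9 * p * (36 + 2 * (r + 2) + 7 * q) + (r + 2) + 3) + 7 * q ≤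
      152 * (p * q) := by omega
  have e7 : 27 * p * (36 + 2 * (r + 2) + 2 * (9 * p * (36 + 2 * (r + 2) + 7 * q) + (r + 2) + 3) +
      7 * q) ≤ 4104 * (p * (p * q)) := by
    calc _ ≤ 27 * p * (152 * (p * q)) := Nat.mul_le_mul_left _ e6
      _ = 4104 * (p * (p * q)) := by ring
  have e8 : p * q ≤ p * (p * q) := by nlinarith [Nat.zero_le (p * q)]
  have e9 : 4105 * (p * (p * q)) ≤ 3 ^ (3 * r ^ 2 + 15 * r + 19) := by
    calc 4105 * (p * (p * q)) ≤ 3 ^ 8 * (p * (p * q)) := Nat.mul_le_mul_right _ (by norm_num)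
      _ = 3 ^ (8 + (r + (r + (r + 2) * (r + 2 + 1)))) := by rw [hp, hq, pow_add, pow_add, pow_add]
      _ ≤ _ := Nat.pow_le_pow_right (by omega) (by nlinarith)
  omega

/-- **the theorem** -/
theorem tr (r : ℕ) : Tr r (3 ^ ((r + 2) ^ 3)) := by
  induction r with
  | zero =>
    refine base ?_
    unfold N₀
    norm_num
  | succ r ih =>
    have h1 := bound r
    have h2 : 3 ^ ((r + 1 + 2) ^ 3) = 3 ^ ((r + 2) ^ 3) * 3 ^ (3 * r ^ 2 + 15 * r + 19) := by
      rw [← pow_add]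
      congr 1
      ring
    have h3 : 1 ≤ 3 ^ ((r + 2) ^ 3) := Nat.one_le_pow _ _ (by omega)
    have h4 : 1 * (N₀ (r + 2) (KK (r + 2) + 3) + (r + 1)) ≤
        3 ^ ((r + 2) ^ 3) * 3 ^ (3 * r ^ 2 + 15 * r + 19) := Nat.mul_le_mul h3 h1
    refine step ih (le_refl (N₀ (r + 2) (KK (r + 2) + 3))) ?_ ?_
    · rw [h2]
      omega
    · rw [h2]
      exact Nat.mul_le_mul_left _ h1

theorem Tr.mono {r N N' : ℕ} (h : Tr r N) (hN : N ≤ N') : Tr r N' := by
  intro x y hx hy K hK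
  obtain ⟨i, j, hij⟩ := h (fun i => x (Fin.castLE hN i)) (fun j => y (Fin.castLE hN j))
    (hx.comp _ (Fin.castLE_injective hN)) (hy.comp _ (Fin.castLE_injective hN)) K hK
  exact ⟨_, _, hij⟩

/-- the theorem, as a lower bound for the transcendence degree -/
theorem large (n N : ℕ) (hN : 3 ^ ((n + 1) ^ 3) ≤ N) (x y : Fin N → ℂ)
    (hx : LinearIndependent ℚ x) (hy : LinearIndependent ℚ y) :
    (n : Cardinal) ≤ Algebra.trdeg ℚ (IntermediateField.adjoin ℚ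
      (Set.range fun p : Fin N × Fin N => Complex.exp (x p.1 * y p.2))) := by
  cases n with
  | zero => simp
  | succ r =>
    by_contra hcon
    rw [not_le] at hcon
    have h1 : Algebra.trdeg ℚ (IntermediateField.adjoin ℚ
        (Set.range fun p : Fin N × Fin N => Complex.exp (x p.1 * y p.2))) ≤ (r : Cardinal) := by
      obtain ⟨m, hm⟩ := Cardinal.lt_aleph0.1 (hcon.trans (Cardinal.natCast_lt_aleph0))
      rw [hm] at hcon ⊢
      have : m < r + 1 := by exact_mod_cast hcon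
      exact_mod_cast (by omega : m ≤ r)
    obtain ⟨i, j, hij⟩ := (tr r).mono hN x y hx hy _ h1
    apply hij
    exact isAlgebraic_algebraMap (⟨_, IntermediateField.subset_adjoin _ _ ⟨(i, j), rfl⟩⟩ :
      IntermediateField.adjoin ℚ (Set.range fun p : Fin N × Fin N => Complex.exp (x p.1 * y p.2)))

end Pool.Agent.Zk25.LT
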