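import Pool.Agent.Zk25.LT.One
import Pool.Agent.Zk25.LT.Fld

/-!
# Points near `t` which satisfy all approximate relations exactly
-/

set_option autoImplicit false

namespace Pool.Agent.Zk25.LT

open MvPolynomial Filter

/-- the gap, starting with a given coordinate -/
theorem gap1 {T R : ℕ} (hT : 1 ≤ T) (t : Fin R → ℂ) (a b : ℕ → ℕ) (k₀ : Fin R)
    (h0 : Ind T t 1 (Fin.cons k₀ Fin.elim0) (a 1) (b 1)) :
    ∃ j, 1 ≤ j ∧ j ≤ R ∧ ∃ (ρ : ℕ) (e : Fin ρ → Fin R), (∃ i, e i = k₀) ∧ Ind T t ρ e (a j) (b j) ∧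
      ∀ k : Fin R, ¬ Ind T t (ρ + 1) (Fin.cons k e) (a (j + 1)) (b (j + 1)) := by
  classical
  by_contra hcon
  push Not at hcon
  have key : ∀ j, 1 ≤ j → j ≤ R + 1 → ∃ (ρ : ℕ) (e : Fin ρ → Fin R), j ≤ ρ ∧ (∃ i, e i = k₀) ∧
      Ind T t ρ e (a j) (b j) := by
    intro j hj
    induction j, hj using Nat.le_induction with
    | base => exact fun _ => ⟨1, Fin.cons k₀ Fin.elim0, le_rfl, ⟨0, rfl⟩, h0⟩
    | succ j hj ih =>
      intro hj'
      obtain ⟨ρ, e, h1, ⟨i, hi⟩, h2⟩ := ih (by omega)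
      obtain ⟨k, hk⟩ := hcon j hj (by omega) ρ e ⟨i, hi⟩ h2
      exact ⟨ρ + 1, Fin.cons k e, by omega, ⟨i.succ, by rw [Fin.cons_succ, hi]⟩, hk⟩
  obtain ⟨ρ, e, h1, _, h2⟩ := key (R + 1) (by omega) le_rfl
  have := h2.le hT
  omega

/-- exponents -/
def EE (R : ℕ) : ℕ := 36 + 2 * R + 7 * 3 ^ (R * (R + 1))

/-- the largest exponent in Liouville's inequality -/
def KK (R : ℕ) : ℕ := 3 ^ R * EE R + R

def sa (R j : ℕ) : ℕ := 7 * 3 ^ (R * (R + 1 - j)) - 1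

def sb (R j : ℕ) : ℕ := 3 ^ j * EE R

/-- a point near `t` which satisfies Liouville's inequality -/
def Spc (T : ℕ) {R : ℕ} (t β : Fin R → ℂ) (κ : ℕ) : Prop :=
  (∀ i, ‖t i - β i‖ * 2 ^ (T ^ (κ + 5)) ≤ 1) ∧ LPt T β 6 κ

theorem np {T R : ℕ} (hT : 16 ≤ T) (t : Fin R → ℂ) (ht : ∀ i, ‖t i‖ ≤ T) (k₀ : Fin R)
    (h0 : Ind T t 1 (Fin.cons k₀ Fin.elim0) (sa R 1) (sb R 1)) :
    ∃ κ, 2 ≤ κ ∧ κ ≤ KK R ∧ ∃ β : Fin R → ℂ, Spc T t β κ ∧ β k₀ = t k₀ := by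
  classical
  obtain ⟨j, hj1, hj, ρ, e, ⟨i₀, hi₀⟩, hI, hD⟩ := gap1 (by omega : 1 ≤ T) t (sa R) (sb R) k₀ h0
  have h3 : ∀ m : ℕ, 1 ≤ 3 ^ m := fun m => Nat.one_le_pow _ _ (by omega)
  have ha6 : 6 ≤ sa R (j + 1) := by
    have := h3 (R * (R + 1 - (j + 1)))
    unfold sa
    omega
  have hup : up R (sa R (j + 1)) = sa R j := by
    have e1 := up_eq R (sa R (j + 1))
    have e2 : sa R (j + 1) + 1 = 7 * 3 ^ (R * (R + 1 - (j + 1))) := by
      have := h3 (R * (R + 1 - (j + 1)))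
      unfold sa
      omega
    have e3 : sa R j + 1 = 7 * 3 ^ (R * (R + 1 - j)) := by
      have := h3 (R * (R + 1 - j))
      unfold sa
      omega
    have e4 : 3 ^ (R * (R + 1 - j)) = 3 ^ R * 3 ^ (R * (R + 1 - (j + 1))) := by
      rw [← pow_add]
      congr 1
      have : R + 1 - j = (R + 1 - (j + 1)) + 1 := by omega
      rw [this]
      ring
    rw [e2] at e1
    rw [e4] at e3
    have e5 : 3 ^ R * (7 * 3 ^ (R * (R + 1 - (j + 1)))) = 7 * (3 ^ R * 3 ^ (R * (R + 1 - (j + 1)))) := by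
      ring
    omega
  have hEb : EE R ≤ sb R j := by
    unfold sb
    have := h3 j
    nlinarith
  have hbb' : sb R (j + 1) = 3 * sb R j := by
    unfold sb
    rw [pow_succ]
    ring
  have haj : sa R j ≤ 7 * 3 ^ (R * (R + 1)) := by
    have : 3 ^ (R * (R + 1 - j)) ≤ 3 ^ (R * (R + 1)) :=
      Nat.pow_le_pow_right (by omega) (Nat.mul_le_mul_left _ (by omega))
    unfold sa
    omega
  have haj' : sa R (j + 1) ≤ sa R j := by rw [← hup]; exact le_up _ _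
  have hE : EE R = 36 + 2 * R + 7 * 3 ^ (R * (R + 1)) := rfl
  obtain ⟨κ, hκ⟩ : ∃ κ, κ = sb R j + R := ⟨_, rfl⟩
  obtain ⟨ν, hν⟩ : ∃ ν, ν = κ + 5 := ⟨_, rfl⟩
  choose β hβ f hf1 hf2 hf3 using fun k => near_point hT hI haj' (b' := sb R (j + 1))
    (by omega) (ν := ν) (by omega) (hD k)
  have hs : ∀ i, ‖(t ∘ e) i‖ ≤ ((2 * T : ℕ) : ℝ) := by
    intro i
    have := ht (e i)
    have hT0 : (0 : ℝ) ≤ T := Nat.cast_nonneg _
    simp only [Function.comp_apply]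
    push_cast
    linarith
  have hβ2 : ∀ k, ‖β k‖ ≤ ((2 * T : ℕ) : ℝ) := by
    intro k
    have h1 := hβ k
    have h2 : (1 : ℝ) ≤ 2 ^ (T ^ ν) := one_le_pow₀ (by norm_num)
    have h4 : ‖t k - β k‖ ≤ 1 := by
      have := norm_nonneg (t k - β k)
      nlinarith
    have h5 : ‖β k‖ ≤ ‖t k‖ + ‖t k - β k‖ := by
      have h3 : β k = t k - (t k - β k) := by ring
      calc ‖β k‖ = ‖t k - (t k - β k)‖ := by rw [← h3]
        _ ≤ _ := norm_sub_le _ _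
    have h6 := ht k
    have h7 : (16 : ℝ) ≤ T := by exact_mod_cast hT
    push_cast
    linarith
  have hLP0 : LPt T (t ∘ e) (up R (sa R (j + 1))) (sb R j) := by
    rw [hup]
    intro g hg hg0
    exact hI g (by rintro rfl; simp at hg0) hg
  obtain ⟨n, p, ι, j', h1, h2, _, h4⟩ := chain hT hs R (sa R (j + 1)) le_rfl
    (by rw [hup]; omega) hLP0 β hβ2 (fun k => ⟨f k, hf1 k, hf2 k, hf3 k⟩)
  have hLPp : LPt T p 6 κ := by
    rw [hκ]
    exact h4.mono (by omega) ha6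
  have hκle : κ ≤ KK R := by
    rw [hκ]
    unfold KK sb
    have : 3 ^ j ≤ 3 ^ R := Nat.pow_le_pow_right (by omega) hj
    have := Nat.mul_le_mul_right (EE R) this
    omega
  refine ⟨κ, by omega, hκle, β, ⟨by rw [← hν]; exact hβ, ?_⟩, ?_⟩
  · intro g hg hg0
    have e1 : aeval p (rename j' g) = aeval β g := by
      rw [aeval_rename, h2]
    have e2 := hLPp (rename j' g) (hg.rename _) (by rw [e1]; exact hg0)
    rw [e1] at e2
    exact e2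
  · by_contra hne
    have e1 : aeval p (MvPolynomial.X (ι i₀) - MvPolynomial.X (j' k₀) : MvPolynomial (Fin n) ℤ) =
        t k₀ - β k₀ := by
      rw [map_sub, aeval_X, aeval_X]
      have e2 := congrFun h1 i₀
      have e3 := congrFun h2 k₀
      simp only [Function.comp_apply] at e2 e3
      rw [e2, e3, hi₀]
    have hT6 : 1 ≤ T ^ 6 := Nat.one_le_pow _ _ (by omega)
    have e2 := hLPp (MvPolynomial.X (ι i₀) - MvPolynomial.X (j' k₀)) (by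
      rw [sub_eq_add_neg]
      refine ((Sz.X _).add (Sz.X _).neg).mono hT6 ?_
      calc 1 + 1 = 2 ^ 1 := rfl
        _ ≤ _ := Nat.pow_le_pow_right (by omega) hT6) (by
      rw [e1]
      exact sub_ne_zero.2 fun h => hne h.symm)
    rw [e1] at e2
    have e3 := hβ k₀
    have e4 : (2 : ℝ) ^ (T ^ κ) < 2 ^ (T ^ ν) := by
      refine pow_lt_pow_right₀ (by norm_num) ?_
      have s1 := sixteen hT (a := κ) (b := ν) (by omega)
      have s2 : 0 < T ^ κ := Nat.pow_pos (by omega)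
      omega
    have e5 : 0 < ‖t k₀ - β k₀‖ := norm_pos_iff.2 (sub_ne_zero.2 fun h => hne h.symm)
    have e6 := mul_lt_mul_of_pos_left e4 e5
    linarith

/-- small values vanish -/
theorem Spc.exact {T R κ : ℕ} (hT : 16 ≤ T) {t β : Fin R → ℂ} (h : Spc T t β κ) (hκ : 2 ≤ κ)
    (ht : ∀ i, ‖t i‖ ≤ T) {g : MvPolynomial (Fin R) ℤ} (hg : Sz (T ^ 4) (2 ^ (T ^ 4)) g)
    (hv : ‖aeval t g‖ * 2 ^ (T ^ (κ + 2)) ≤ 1) : aeval β g = 0 := by
  by_contra hne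
  have hpow : ∀ {c c' : ℕ}, c ≤ c' → T ^ c ≤ T ^ c' := fun h => Nat.pow_le_pow_right (by omega) h
  have h1 := h.2 g (hg.mono (hpow (by omega)) (Nat.pow_le_pow_right (by omega) (hpow (by omega)))) hne
  have hβ2 : ∀ k, ‖β k‖ ≤ ((2 * T : ℕ) : ℝ) := by
    intro k
    have h1 := h.1 k
    have h2 : (1 : ℝ) ≤ 2 ^ (T ^ (κ + 5)) := one_le_pow₀ (by norm_num)
    have h4 : ‖t k - β k‖ ≤ 1 := by
      have := norm_nonneg (t k - β k)
      nlinarith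
    have h5 : ‖β k‖ ≤ ‖t k‖ + ‖t k - β k‖ := by
      have h3 : β k = t k - (t k - β k) := by ring
      calc ‖β k‖ = ‖t k - (t k - β k)‖ := by rw [← h3]
        _ ≤ _ := norm_sub_le _ _
    have h6 := ht k
    have h7 : (16 : ℝ) ≤ T := by exact_mod_cast hT
    push_cast
    linarith
  have hsub := aeval_sub_le (A := ((2 * T : ℕ) : ℝ)) (δ := ((2 : ℝ) ^ (T ^ (κ + 5)))⁻¹) (z := β)
    (w := t) (by exact_mod_cast (by omega : 1 ≤ 2 * T)) hβ2 (by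
      intro i
      refine (ht i).trans ?_
      exact_mod_cast (by omega : T ≤ 2 * T)) (by
      intro i
      rw [norm_sub_rev, ← one_div, le_div_iff₀ (by positivity)]
      exact h.1 i) (by positivity) hg
  have b2 : ((T ^ 4 : ℕ) : ℝ) ≤ 2 ^ (T ^ 4) := by
    exact_mod_cast (Nat.lt_two_pow_self (n := T ^ 4)).le
  have b3 : ((2 * T : ℕ) : ℝ) ^ (T ^ 4) ≤ 2 ^ (2 * T ^ 5) := by
    have e1 : 2 * T ≤ 2 ^ (2 * T) := (Nat.lt_two_pow_self).le
    have e3 : (2 * T) ^ (T ^ 4) ≤ 2 ^ (2 * T ^ 5) := by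
      calc (2 * T) ^ (T ^ 4) ≤ (2 ^ (2 * T)) ^ (T ^ 4) := Nat.pow_le_pow_left e1 _
        _ = 2 ^ (2 * T ^ 5) := by rw [← pow_mul]; congr 1; ring
    exact_mod_cast e3
  have c1 : ‖aeval β g - aeval t g‖ * 2 ^ (T ^ (κ + 2)) ≤ 1 := by
    have e1 : ‖aeval β g - aeval t g‖ ≤ 2 ^ (T ^ 4) * (2 ^ (T ^ 4) * 2 ^ (2 * T ^ 5) *
        ((2 : ℝ) ^ (T ^ (κ + 5)))⁻¹) := by
      refine hsub.trans ?_
      push_cast at b2 b3 ⊢
      refine mul_le_mul_of_nonneg_left ?_ (by positivity)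
      refine mul_le_mul_of_nonneg_right ?_ (by positivity)
      exact mul_le_mul b2 b3 (by positivity) (by positivity)
    have e2 : (2 : ℝ) ^ (T ^ 4) * (2 ^ (T ^ 4) * 2 ^ (2 * T ^ 5)) * 2 ^ (T ^ (κ + 2)) ≤
        2 ^ (T ^ (κ + 5)) := by
      rw [← pow_add, ← pow_add, ← pow_add]
      refine pow_le_pow_right₀ (by norm_num) ?_
      have s1 := sixteen hT (a := 4) (b := κ + 5) (by omega)
      have s2 := sixteen hT (a := 5) (b := κ + 5) (by omega)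
      have s3 := sixteen hT (a := κ + 2) (b := κ + 5) (by omega)
      omega
    have c4 : (0 : ℝ) < 2 ^ (T ^ (κ + 5)) := by positivity
    calc _ ≤ (2 ^ (T ^ 4) * (2 ^ (T ^ 4) * 2 ^ (2 * T ^ 5) *
        ((2 : ℝ) ^ (T ^ (κ + 5)))⁻¹)) * 2 ^ (T ^ (κ + 2)) :=
          mul_le_mul_of_nonneg_right e1 (by positivity)
      _ = ((2 : ℝ) ^ (T ^ 4) * (2 ^ (T ^ 4) * 2 ^ (2 * T ^ 5)) * 2 ^ (T ^ (κ + 2))) *
        ((2 : ℝ) ^ (T ^ (κ + 5)))⁻¹ := by ring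
      _ ≤ 2 ^ (T ^ (κ + 5)) * ((2 : ℝ) ^ (T ^ (κ + 5)))⁻¹ :=
          mul_le_mul_of_nonneg_right e2 (by positivity)
      _ = 1 := mul_inv_cancel₀ c4.ne'
  have c2 : ‖aeval β g‖ ≤ ‖aeval β g - aeval t g‖ + ‖aeval t g‖ := by
    have : aeval β g = (aeval β g - aeval t g) + aeval t g := by ring
    calc ‖aeval β g‖ = ‖(aeval β g - aeval t g) + aeval t g‖ := by rw [← this]
      _ ≤ _ := norm_add_le _ _
  have c3 : ‖aeval β g‖ * 2 ^ (T ^ (κ + 2)) ≤ 2 := by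
    have := mul_le_mul_of_nonneg_right c2 (by positivity : (0 : ℝ) ≤ 2 ^ (T ^ (κ + 2)))
    linarith
  have c4 : (2 : ℝ) * 2 ^ (T ^ κ) < 2 ^ (T ^ (κ + 2)) := by
    rw [← pow_succ']
    refine pow_lt_pow_right₀ (by norm_num) ?_
    have s1 := sixteen hT (a := κ) (b := κ + 2) (by omega)
    have s2 : 0 < T ^ κ := Nat.pow_pos (by omega)
    omega
  have c5 : 0 < ‖aeval β g‖ := norm_pos_iff.2 hne
  have c6 := mul_lt_mul_of_pos_left c4 c5
  linarith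

end Pool.Agent.Zk25.LT
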