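import Pool.Agent.Zk25.LT.Gap

/-!
# The gap principle for one transcendental number
-/

set_option autoImplicit false

namespace Pool.Agent.Zk25.LT

open MvPolynomial Filter

theorem shift_pow {T c : ℕ} (hT : 1 ≤ T) (h : 2 ^ c ≤ T) : (T + 1) ^ c ≤ T ^ (c + 1) := by
  calc (T + 1) ^ c ≤ (2 * T) ^ c := Nat.pow_le_pow_left (by omega) _
    _ = 2 ^ c * T ^ c := by rw [mul_pow]
    _ ≤ T * T ^ c := Nat.mul_le_mul_right _ h
    _ = T ^ (c + 1) := by rw [pow_succ]; ring

theorem one_var {R : ℕ} (t : Fin R → ℂ) (k : Fin R) (hk : ¬ IsAlgebraic ℚ (t k)) {a b : ℕ}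
    (hab : 4 * a + 12 ≤ b) (T₀ : ℕ) :
    ∃ T, T₀ ≤ T ∧ Ind T t 1 (Fin.cons k Fin.elim0) a b := by
  classical
  by_contra hcon
  push Not at hcon
  have hnear : ∀ T, T₀ + 16 ≤ T → ∃ β : ℂ, ‖t k - β‖ * 2 ^ (T ^ (3 * a + 10)) ≤ 1 ∧
      ∃ f : MvPolynomial (Fin (0 + 1)) ℤ, Sz (T ^ a) (2 ^ (T ^ a)) f ∧
      (finSuccEquiv ℤ 0 f).map (ev (t ∘ Fin.elim0)) ≠ 0 ∧
      aeval (Fin.cons β (t ∘ Fin.elim0) : Fin (0 + 1) → ℂ) f = 0 := by
    intro T hT
    exact near_point (by omega) (ind_zero t (a := a) (b := 0)) le_rfl (by omega) (by omega)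
      (hcon T (by omega))
  choose! β hβ f hf1 hf2 hf3 using hnear
  obtain ⟨c, hc⟩ : ∃ c : ℕ, ‖t k‖ ≤ c := exists_nat_ge _
  obtain ⟨c', hc'⟩ : ∃ c' : ℕ, c' = 2 ^ (3 * a + 6) := ⟨_, rfl⟩
  obtain ⟨T₁, hT₁⟩ : ∃ T₁ : ℕ, T₁ = T₀ + 16 + c' + c := ⟨_, rfl⟩
  have hnorm : ∀ T, T₁ ≤ T → ‖β T‖ ≤ ((2 * T : ℕ) : ℝ) := by
    intro T hT
    have h1 := hβ T (by omega)
    have h2 : (1 : ℝ) ≤ 2 ^ (T ^ (3 * a + 10)) := one_le_pow₀ (by norm_num)
    have h4 : ‖t k - β T‖ ≤ 1 := by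
      have := norm_nonneg (t k - β T)
      nlinarith
    have h5 : ‖β T‖ ≤ ‖t k‖ + ‖t k - β T‖ := by
      have h3 : β T = t k - (t k - β T) := by ring
      calc ‖β T‖ = ‖t k - (t k - β T)‖ := by rw [← h3]
        _ ≤ _ := norm_sub_le _ _
    have h6 : (c : ℝ) ≤ T := by exact_mod_cast (by omega : c ≤ T)
    have h7 : (16 : ℝ) ≤ T := by exact_mod_cast (by omega : 16 ≤ T)
    push_cast
    linarith
  have hind : ∀ T, T₁ ≤ T → aeval (Fin.cons (β T) (t ∘ Fin.elim0) : Fin (0 + 1) → ℂ) (f T₁) = 0 := by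
    intro T hT
    induction T, hT using Nat.le_induction with
    | base => exact hf3 T₁ (by omega)
    | succ T hT ih =>
      by_contra hne
      have hT16 : 16 ≤ T := by omega
      have hLP0 : LPt (T + 1) (t ∘ Fin.elim0) (3 * (a + 1) + 2) (3 * a + 5) := by
        intro g hg hg0
        exact ind_zero t g (by rintro rfl; simp at hg0) hg
      have hpow : ∀ {c c' : ℕ}, c ≤ c' → (T + 1) ^ c ≤ (T + 1) ^ c' := fun h =>
        Nat.pow_le_pow_right (by omega) h
      have hLP := LPt.step (a := a + 1) (b := 3 * a + 5) (by omega : 16 ≤ T + 1) (by omega)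
        (fun i => i.elim0) hLP0 (β := β (T + 1)) (f := f (T + 1))
        ((hf1 (T + 1) (by omega)).mono (hpow (by omega)) (Nat.pow_le_pow_right (by omega)
          (hpow (by omega)))) (hf2 (T + 1) (by omega)) (hf3 (T + 1) (by omega))
      have hs := hf1 T₁ (by omega)
      have hTa : T₁ ^ a ≤ T ^ a := Nat.pow_le_pow_left hT _
      have hTa' : T₁ ^ a ≤ (T + 1) ^ (a + 1) :=
        (Nat.pow_le_pow_left (by omega) _).trans (hpow (by omega))
      have h1 := hLP (f T₁) (hs.mono hTa' (Nat.pow_le_pow_right (by omega) hTa')) hne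
      have hsub := aeval_sub_le (A := ((2 * (T + 1) : ℕ) : ℝ))
        (δ := 2 * ((2 : ℝ) ^ (T ^ (3 * a + 10)))⁻¹)
        (z := (Fin.cons (β (T + 1)) (t ∘ Fin.elim0) : Fin (0 + 1) → ℂ))
        (w := (Fin.cons (β T) (t ∘ Fin.elim0) : Fin (0 + 1) → ℂ)) (by
          exact_mod_cast (by omega : 1 ≤ 2 * (T + 1))) (by
          intro i
          refine Fin.cases ?_ (fun i => i.elim0) i
          exact hnorm (T + 1) (by omega)) (by
          intro i
          refine Fin.cases ?_ (fun i => i.elim0) i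
          refine (hnorm T hT).trans ?_
          exact_mod_cast (by omega : 2 * T ≤ 2 * (T + 1))) (by
          intro i
          refine Fin.cases ?_ (fun i => i.elim0) i
          show ‖β (T + 1) - β T‖ ≤ _
          have e1 := hβ (T + 1) (by omega)
          have e2 := hβ T (by omega)
          have p1 : (0 : ℝ) < 2 ^ (T ^ (3 * a + 10)) := by positivity
          have p2 : (2 : ℝ) ^ (T ^ (3 * a + 10)) ≤ 2 ^ ((T + 1) ^ (3 * a + 10)) :=
            pow_le_pow_right₀ (by norm_num) (Nat.pow_le_pow_left (by omega) _)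
          have e3 : ‖t k - β (T + 1)‖ * 2 ^ (T ^ (3 * a + 10)) ≤ 1 :=
            (mul_le_mul_of_nonneg_left p2 (norm_nonneg _)).trans e1
          have e4 : ‖β (T + 1) - β T‖ ≤ ‖t k - β T‖ + ‖t k - β (T + 1)‖ := by
            have : β (T + 1) - β T = (t k - β T) - (t k - β (T + 1)) := by ring
            rw [this]
            exact norm_sub_le _ _
          have e5 : ‖t k - β T‖ ≤ ((2 : ℝ) ^ (T ^ (3 * a + 10)))⁻¹ := by
            rw [← one_div, le_div_iff₀ p1]
            exact e2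
          have e6 : ‖t k - β (T + 1)‖ ≤ ((2 : ℝ) ^ (T ^ (3 * a + 10)))⁻¹ := by
            rw [← one_div, le_div_iff₀ p1]
            exact e3
          linarith) (by positivity) hs
      rw [ih, sub_zero] at hsub
      -- the estimate
      have b1 : ((2 ^ (T₁ ^ a) : ℕ) : ℝ) ≤ 2 ^ (T ^ a) := by
        push_cast
        exact pow_le_pow_right₀ (by norm_num) hTa
      have b2 : ((T₁ ^ a : ℕ) : ℝ) ≤ 2 ^ (T ^ a) := by
        have : T₁ ^ a ≤ 2 ^ (T ^ a) := hTa.trans (Nat.lt_two_pow_self).le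
        exact_mod_cast this
      have b3 : ((2 * (T + 1) : ℕ) : ℝ) ^ (T₁ ^ a) ≤ 2 ^ (2 * T ^ (a + 1)) := by
        have e1 : 2 * (T + 1) ≤ 2 ^ (2 * T) := by
          have e2 : T + 1 ≤ 2 ^ T := Nat.lt_two_pow_self
          calc 2 * (T + 1) ≤ 2 ^ 1 * 2 ^ T := by omega
            _ = 2 ^ (1 + T) := by rw [pow_add]
            _ ≤ 2 ^ (2 * T) := Nat.pow_le_pow_right (by omega) (by omega)
        have e3 : (2 * (T + 1)) ^ (T₁ ^ a) ≤ 2 ^ (2 * T ^ (a + 1)) := by
          calc (2 * (T + 1)) ^ (T₁ ^ a) ≤ (2 * (T + 1)) ^ (T ^ a) :=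
                Nat.pow_le_pow_right (by omega) hTa
            _ ≤ (2 ^ (2 * T)) ^ (T ^ a) := Nat.pow_le_pow_left e1 _
            _ = 2 ^ (2 * T ^ (a + 1)) := by rw [← pow_mul, pow_succ]; congr 1; ring
        exact_mod_cast e3
      have b4 : (T + 1) ^ (3 * a + 6) ≤ T ^ (3 * a + 7) :=
        shift_pow (by omega) (by rw [← hc']; omega)
      have hfin : ‖aeval (Fin.cons (β (T + 1)) (t ∘ Fin.elim0) : Fin (0 + 1) → ℂ) (f T₁)‖ *
          2 ^ ((T + 1) ^ (3 * a + 5 + 1)) < 1 := by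
        have c1 : ‖aeval (Fin.cons (β (T + 1)) (t ∘ Fin.elim0) : Fin (0 + 1) → ℂ) (f T₁)‖ ≤
            2 ^ (T ^ a) * (2 ^ (T ^ a) * 2 ^ (2 * T ^ (a + 1)) *
              (2 * ((2 : ℝ) ^ (T ^ (3 * a + 10)))⁻¹)) := by
          refine hsub.trans ?_
          refine mul_le_mul b1 ?_ (by positivity) (by positivity)
          refine mul_le_mul_of_nonneg_right ?_ (by positivity)
          exact mul_le_mul b2 b3 (by positivity) (by positivity)
        have c2 : (2 : ℝ) ^ ((T + 1) ^ (3 * a + 5 + 1)) ≤ 2 ^ (T ^ (3 * a + 7)) :=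
          pow_le_pow_right₀ (by norm_num) b4
        have c3 : (2 : ℝ) ^ (T ^ a) * (2 ^ (T ^ a) * 2 ^ (2 * T ^ (a + 1)) * 2) *
            2 ^ (T ^ (3 * a + 7)) < 2 ^ (T ^ (3 * a + 10)) := by
          have e1 : (2 : ℝ) ^ (T ^ a) * (2 ^ (T ^ a) * 2 ^ (2 * T ^ (a + 1)) * 2) *
            2 ^ (T ^ (3 * a + 7)) = 2 ^ (T ^ a + (T ^ a + 2 * T ^ (a + 1) + 1) + T ^ (3 * a + 7)) := by
            generalize T ^ a = p₁
            generalize T ^ (a + 1) = p₂
            generalize T ^ (3 * a + 7) = p₃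
            ring
          rw [e1]
          refine pow_lt_pow_right₀ (by norm_num) ?_
          have s1 := sixteen hT16 (a := a) (b := 3 * a + 10) (by omega)
          have s2 := sixteen hT16 (a := a + 1) (b := 3 * a + 10) (by omega)
          have s3 := sixteen hT16 (a := 3 * a + 7) (b := 3 * a + 10) (by omega)
          have s4 : 0 < T ^ a := Nat.pow_pos (by omega)
          omega
        have c4 : (0 : ℝ) < 2 ^ (T ^ (3 * a + 10)) := by positivity
        calc _ ≤ (2 ^ (T ^ a) * (2 ^ (T ^ a) * 2 ^ (2 * T ^ (a + 1)) *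
              (2 * ((2 : ℝ) ^ (T ^ (3 * a + 10)))⁻¹))) * 2 ^ (T ^ (3 * a + 7)) :=
              mul_le_mul c1 c2 (by positivity) (by positivity)
          _ = ((2 : ℝ) ^ (T ^ a) * (2 ^ (T ^ a) * 2 ^ (2 * T ^ (a + 1)) * 2) *
            2 ^ (T ^ (3 * a + 7))) * ((2 : ℝ) ^ (T ^ (3 * a + 10)))⁻¹ := by ring
          _ < 2 ^ (T ^ (3 * a + 10)) * ((2 : ℝ) ^ (T ^ (3 * a + 10)))⁻¹ :=
              mul_lt_mul_of_pos_right c3 (by positivity)
          _ = 1 := mul_inv_cancel₀ c4.ne'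
      linarith
  -- the limit
  have hlim : Tendsto β atTop (nhds (t k)) := by
    rw [tendsto_iff_norm_sub_tendsto_zero]
    have h1 : Tendsto (fun T : ℕ => (1 / 2 : ℝ) ^ T) atTop (nhds 0) :=
      tendsto_pow_atTop_nhds_zero_of_lt_one (by norm_num) (by norm_num)
    refine squeeze_zero' (Eventually.of_forall fun T => norm_nonneg _) ?_ h1
    filter_upwards [eventually_ge_atTop T₁] with T hT
    have e2 := hβ T (by omega)
    rw [norm_sub_rev]
    have e3 : (2 : ℝ) ^ T ≤ 2 ^ (T ^ (3 * a + 10)) := by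
      refine pow_le_pow_right₀ (by norm_num) ?_
      calc T = T ^ 1 := (pow_one T).symm
        _ ≤ _ := Nat.pow_le_pow_right (by omega) (by omega)
    have e4 : ‖t k - β T‖ * 2 ^ T ≤ 1 := (mul_le_mul_of_nonneg_left e3 (norm_nonneg _)).trans e2
    rw [one_div, inv_pow, ← one_div, le_div_iff₀ (by positivity)]
    exact e4
  have hcont : Continuous fun z : ℂ => aeval (Fin.cons z (t ∘ Fin.elim0) : Fin (0 + 1) → ℂ) (f T₁) := by
    have h1 : (fun z : ℂ => aeval (Fin.cons z (t ∘ Fin.elim0) : Fin (0 + 1) → ℂ) (f T₁)) =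
        fun z => ((finSuccEquiv ℤ 0 (f T₁)).map (ev (t ∘ Fin.elim0))).eval z := by
      funext z
      rw [aeval_cons]
    rw [h1]
    exact Polynomial.continuous _
  have hzero : aeval (Fin.cons (t k) (t ∘ Fin.elim0) : Fin (0 + 1) → ℂ) (f T₁) = 0 := by
    have h1 := (hcont.tendsto (t k)).comp hlim
    have h2 : Tendsto ((fun z : ℂ => aeval (Fin.cons z (t ∘ Fin.elim0) : Fin (0 + 1) → ℂ) (f T₁)) ∘ β)
        atTop (nhds 0) := by
      refine tendsto_const_nhds.congr' ?_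
      filter_upwards [eventually_ge_atTop T₁] with T hT
      exact (hind T hT).symm
    exact tendsto_nhds_unique h1 h2
  have hf0 : f T₁ ≠ 0 := by
    intro h0
    apply hf2 T₁ (by omega)
    rw [h0, map_zero, Polynomial.map_zero]
  have hni : ¬ AlgebraicIndependent ℤ (Fin.cons (t k) (t ∘ Fin.elim0) : Fin (0 + 1) → ℂ) := by
    intro hAI
    exact hf0 ((algebraicIndependent_iff.1 hAI) _ hzero)
  have : Subsingleton (Fin (0 + 1)) := inferInstanceAs (Subsingleton (Fin 1))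
  rw [algebraicIndependent_singleton_iff (0 : Fin (0 + 1))] at hni
  have h3 : IsAlgebraic ℤ (t k) := not_not.1 hni
  exact hk (h3.extendScalars (RingHom.injective_int (algebraMap ℤ ℚ)))

end Pool.Agent.Zk25.LT
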