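import Pool.Agent.Zk25.LT.Succ

/-!
# Liouville's inequality for one algebraic extension
-/

set_option autoImplicit false

namespace Pool.Agent.Zk25.LT

open MvPolynomial

/-- degree bound -/
def dd (D : ℕ) : ℕ := D * (D * (D + 1))

/-- length bound of the entries of the matrix -/
def hG (D H : ℕ) : ℕ := (D + 1) * (H ^ (D + 1) * (D * H) ^ D)

/-- length bound -/
def hh (D H : ℕ) : ℕ := D.factorial * (1 + hG D H) ^ D

theorem hh_pos (D H : ℕ) : 1 ≤ hh D H :=
  Nat.mul_pos (Nat.factorial_pos _) (Nat.pow_pos (Nat.lt_of_lt_of_le Nat.one_pos (Nat.le_add_right _ _)))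

variable {r : ℕ}

/-- the matrix of the multiplication by `a m * T` -/
noncomputable def comp (m : ℕ) (a : ℕ → MvPolynomial (Fin r) ℤ) :
    Matrix (Fin m) (Fin m) (MvPolynomial (Fin r) ℤ) :=
  fun i j => if (i : ℕ) + 1 < m then (if (j : ℕ) = i + 1 then a m else 0) else - a j

theorem comp_mulVec (m : ℕ) (a : ℕ → MvPolynomial (Fin r) ℤ) (α : Fin r → ℂ) (β : ℂ)
    (h : ∑ j ∈ Finset.range (m + 1), ev α (a j) * β ^ j = 0) :
    ((comp m a).map (ev α)).mulVec (fun i : Fin m => β ^ (i : ℕ)) =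
      (ev α (a m) * β) • (fun i : Fin m => β ^ (i : ℕ)) := by
  funext i
  simp only [Matrix.mulVec, dotProduct, Matrix.map_apply, Pi.smul_apply, smul_eq_mul, comp]
  by_cases hi : (i : ℕ) + 1 < m
  · simp only [hi, if_true]
    rw [Finset.sum_eq_single (⟨(i : ℕ) + 1, hi⟩ : Fin m)]
    · simp only [if_true]
      ring
    · intro j _ hj
      have : ¬ ((j : ℕ) = i + 1) := fun h => hj (Fin.ext h)
      simp [this]
    · intro h; exact absurd (Finset.mem_univ _) h
  · simp only [hi, if_false]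
    have him : (i : ℕ) + 1 = m := by have := i.2; omega
    rw [Finset.sum_range_succ] at h
    have h1 : ∑ x : Fin m, (ev α) (-a ↑x) * β ^ (x : ℕ) =
        - ∑ j ∈ Finset.range m, ev α (a j) * β ^ j := by
      rw [← Fin.sum_univ_eq_sum_range (fun j => ev α (a j) * β ^ j) m, ← Finset.sum_neg_distrib]
      refine Finset.sum_congr rfl fun x _ => ?_
      rw [map_neg]; ring
    rw [h1]
    have h2 : β ^ m = β * β ^ (i : ℕ) := by
      have h3 : β ^ ((i : ℕ) + 1) = β * β ^ (i : ℕ) := by ring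
      rw [← h3]
      congr 1
      exact him.symm
    rw [h2] at h
    linear_combination -h

theorem mulVec_pow {m : ℕ} (B : Matrix (Fin m) (Fin m) ℂ) (V : Fin m → ℂ) (c : ℂ)
    (h : B.mulVec V = c • V) (n : ℕ) : (B ^ n).mulVec V = c ^ n • V := by
  induction n with
  | zero => simp
  | succ n ih =>
    rw [pow_succ, ← Matrix.mulVec_mulVec, h, Matrix.mulVec_smul, ih, smul_smul, pow_succ]
    ring_nf

theorem eval_charpoly_zero {m : ℕ} (B : Matrix (Fin m) (Fin m) ℂ) (V : Fin m → ℂ) (c : ℂ)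
    (hV : V ≠ 0) (h : B.mulVec V = c • V) : B.charpoly.eval c = 0 := by
  rw [Matrix.eval_charpoly]
  refine Matrix.exists_mulVec_eq_zero_iff.1 ⟨V, hV, ?_⟩
  rw [Matrix.sub_mulVec, h]
  funext i
  rw [Pi.sub_apply, Matrix.scalar_apply, Matrix.mulVec_diagonal, Pi.smul_apply, smul_eq_mul,
    sub_self]
  rfl

/-- the characteristic polynomial has small coefficients -/
theorem Sz.charpoly_coeff {m d h : ℕ} (hd : 1 ≤ d) {G : Matrix (Fin m) (Fin m) (MvPolynomial (Fin r) ℤ)}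
    (hG : ∀ i j, Sz d h (G i j)) (k : ℕ) :
    Sz (m * d) (m.factorial * (1 + h) ^ m) (G.charpoly.coeff k) := by
  classical
  obtain ⟨Gh, hGh⟩ : ∃ Gh : Matrix (Fin m) (Fin m) (MvPolynomial (Fin (r + 1)) ℤ), Gh =
    fun i j => (if i = j then MvPolynomial.X 0 else 0) + -(MvPolynomial.rename Fin.succ (G i j)) :=
      ⟨_, rfl⟩
  have h1 : ∀ i j, Sz d (1 + h) (Gh i j) := by
    intro i j
    rw [hGh]
    refine Sz.add ?_ ((hG i j).rename _).neg
    by_cases hij : i = j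
    · simp only [hij, if_true]
      have h2 : Sz 1 1 (MvPolynomial.X (0 : Fin (r + 1)) : MvPolynomial (Fin (r + 1)) ℤ) := Sz.X _
      exact h2.mono hd (Nat.le_refl 1)
    · simp only [hij, if_false]
      exact Sz.zero _ _
  have h2 : (finSuccEquiv ℤ r) Gh.det = G.charpoly := by
    rw [Matrix.charpoly]
    have h3 : (finSuccEquiv ℤ r) Gh.det =
        ((finSuccEquiv ℤ r).toRingEquiv.toRingHom.mapMatrix Gh).det :=
      RingHom.map_det (finSuccEquiv ℤ r).toRingEquiv.toRingHom Gh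
    rw [h3]
    congr 1
    funext i j
    rw [RingHom.mapMatrix_apply, Matrix.map_apply, Matrix.charmatrix_apply, hGh]
    have h4 : ∀ x : MvPolynomial (Fin (r + 1)) ℤ,
      (finSuccEquiv ℤ r).toRingEquiv.toRingHom x = finSuccEquiv ℤ r x := fun _ => rfl
    rw [h4, map_add, map_neg, finSuccEquiv_rename, Matrix.diagonal_apply]
    by_cases hij : i = j
    · rw [if_pos hij, if_pos hij, finSuccEquiv_X_zero, sub_eq_add_neg]
    · rw [if_neg hij, if_neg hij, map_zero, sub_eq_add_neg]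
  rw [← h2]
  exact (Sz.det h1).coeff k

/-- the lowest coefficient of a polynomial with a small nonzero zero is small -/
theorem lowest {c : Polynomial ℂ} (hc0 : c ≠ 0) {m : ℕ} (hcd : c.natDegree ≤ m) {K : ℝ} (hK : 0 ≤ K)
    (hK' : ∀ k, ‖c.coeff k‖ ≤ K) {γ : ℂ} (hγ0 : γ ≠ 0) (hγ1 : ‖γ‖ ≤ 1) (hroot : c.eval γ = 0) :
    ∃ s, c.coeff s ≠ 0 ∧ ‖c.coeff s‖ ≤ ‖γ‖ * ((m + 1) * K) := by
  classical
  have hex : ∃ k, c.coeff k ≠ 0 := ⟨c.natDegree, by
    rw [Polynomial.coeff_natDegree]; exact Polynomial.leadingCoeff_ne_zero.2 hc0⟩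
  obtain ⟨s, hs⟩ : ∃ s, s = Nat.find hex := ⟨_, rfl⟩
  have hs0 : c.coeff s ≠ 0 := by rw [hs]; exact Nat.find_spec hex
  have hsmin : ∀ k < s, c.coeff k = 0 := fun k hk => by
    have := Nat.find_min hex (hs ▸ hk)
    exact not_not.1 this
  have hsm : s ≤ m := by
    refine le_trans ?_ hcd
    exact Polynomial.le_natDegree_of_ne_zero hs0
  refine ⟨s, hs0, ?_⟩
  -- c_s = - ∑_{k > s} c_k γ ^ (k - s)
  have h2 : c.eval γ = ∑ k ∈ Finset.range (m + 1), c.coeff k * γ ^ k := by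
    rw [Polynomial.eval_eq_sum_range' (Nat.lt_succ_of_le hcd)]
  have h3 : ∑ k ∈ Finset.range (m + 1), c.coeff k * γ ^ k =
      γ ^ s * (c.coeff s + γ * ∑ k ∈ Finset.Ico (s + 1) (m + 1), c.coeff k * γ ^ (k - (s + 1))) := by
    have h4 : ∑ k ∈ Finset.range (m + 1), c.coeff k * γ ^ k =
        ∑ k ∈ Finset.Ico s (m + 1), c.coeff k * γ ^ k := by
      symm
      refine Finset.sum_subset ?_ ?_
      · intro k hk
        rw [Finset.mem_Ico] at hk
        exact Finset.mem_range.2 hk.2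
      · intro k hk hk'
        rw [Finset.mem_range] at hk
        have h5 : k < s := by
          by_contra h6
          exact hk' (Finset.mem_Ico.2 ⟨not_lt.1 h6, hk⟩)
        rw [hsmin k h5, zero_mul]
    rw [h4, Finset.sum_eq_sum_Ico_succ_bot (by omega), mul_add, Finset.mul_sum, Finset.mul_sum]
    congr 1
    · ring
    · refine Finset.sum_congr rfl fun k hk => ?_
      rw [Finset.mem_Ico] at hk
      have h5 : γ ^ k = γ ^ s * (γ * γ ^ (k - (s + 1))) := by
        rw [← pow_succ', ← pow_add]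
        congr 1
        omega
      rw [h5]
      ring
  rw [hroot] at h2
  rw [← h2] at h3
  have h4 : c.coeff s + γ * ∑ k ∈ Finset.Ico (s + 1) (m + 1), c.coeff k * γ ^ (k - (s + 1)) = 0 := by
    rcases mul_eq_zero.1 h3.symm with h5 | h5
    · exact absurd h5 (pow_ne_zero _ hγ0)
    · exact h5
  have h5 : c.coeff s = - (γ * ∑ k ∈ Finset.Ico (s + 1) (m + 1), c.coeff k * γ ^ (k - (s + 1))) :=
    eq_neg_of_add_eq_zero_left h4
  rw [h5, norm_neg, norm_mul]
  refine mul_le_mul_of_nonneg_left ?_ (norm_nonneg _)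
  refine (norm_sum_le _ _).trans ?_
  have h7 : ∀ k ∈ Finset.Ico (s + 1) (m + 1), ‖c.coeff k * γ ^ (k - (s + 1))‖ ≤ K := by
    intro k _
    rw [norm_mul, norm_pow]
    have h8 : ‖γ‖ ^ (k - (s + 1)) ≤ 1 := pow_le_one₀ (norm_nonneg _) hγ1
    calc ‖c.coeff k‖ * ‖γ‖ ^ (k - (s + 1)) ≤ K * 1 :=
          mul_le_mul (hK' k) h8 (by positivity) hK
      _ = _ := mul_one _
  refine (Finset.sum_le_card_nsmul _ _ _ h7).trans ?_
  rw [Nat.card_Ico, nsmul_eq_mul]
  refine mul_le_mul_of_nonneg_right ?_ hK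
  have h9 : m + 1 - (s + 1) ≤ m + 1 := by omega
  exact_mod_cast h9

/-- the matrix of the multiplication by a power of `a m` times the value of `g` -/
noncomputable def gmat (D m : ℕ) (a b : ℕ → MvPolynomial (Fin r) ℤ) :
    Matrix (Fin m) (Fin m) (MvPolynomial (Fin r) ℤ) :=
  ∑ j ∈ Finset.range (D + 1), (b j * a m ^ (D - j)) • comp m a ^ j

theorem gmat_Sz {D m H : ℕ} (hD : 1 ≤ D) (hH : 1 ≤ H) (hmD : m ≤ D) {a b : ℕ → MvPolynomial (Fin r) ℤ}
    (ha : ∀ j, Sz D H (a j)) (hb : ∀ j, Sz D H (b j)) (i k : Fin m) :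
    Sz (D * (D + 1)) (hG D H) (gmat D m a b i k) := by
  have hCS : ∀ i j, Sz D H (comp m a i j) := by
    intro i j
    unfold comp
    split_ifs
    · exact ha m
    · exact Sz.zero _ _
    · exact (ha j).neg
  unfold gmat
  rw [Matrix.sum_apply]
  have h1 := Sz.sum_const (Finset.range (D + 1)) (d := D * (D + 1))
    (h := H ^ (D + 1) * (D * H) ^ D)
    (fun j => ((b j * a m ^ (D - j)) • comp m a ^ j) i k) (fun j hj => by
      rw [Finset.mem_range] at hj
      rw [Matrix.smul_apply, smul_eq_mul]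
      have h2 := ((hb j).mul ((ha m).pow (D - j))).mul (Sz.matrix_pow hCS j i k)
      refine h2.mono ?_ ?_
      · have h3 : (D - j) * D + j * D = D * D := by
          rw [← Nat.add_mul, Nat.sub_add_cancel (by omega)]
        calc D + (D - j) * D + j * D = D + ((D - j) * D + j * D) := by ring
          _ = D + D * D := by rw [h3]
          _ ≤ D * (D + 1) := by rw [Nat.mul_add]; omega
      · have h4 : H * H ^ (D - j) ≤ H ^ (D + 1) := by
          rw [← pow_succ']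
          exact Nat.pow_le_pow_right hH (by omega)
        have h5 : (max m 1 * H) ^ j ≤ (D * H) ^ D := by
          refine (Nat.pow_le_pow_left (Nat.mul_le_mul_right _ (max_le hmD hD)) j).trans ?_
          exact Nat.pow_le_pow_right (Nat.mul_pos hD hH) (by omega)
        exact Nat.mul_le_mul h4 h5)
  rw [Finset.card_range] at h1
  exact h1

theorem gmat_map (D m : ℕ) (a b : ℕ → MvPolynomial (Fin r) ℤ) (α : Fin r → ℂ) :
    (gmat D m a b).map (ev α) = ∑ j ∈ Finset.range (D + 1),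
      (ev α (b j) * ev α (a m) ^ (D - j)) • ((comp m a).map (ev α)) ^ j := by
  have h1 : (gmat D m a b).map (ev α) = (ev α).mapMatrix (gmat D m a b) := rfl
  rw [h1]
  unfold gmat
  rw [map_sum]
  refine Finset.sum_congr rfl fun j _ => ?_
  have h2 : ((comp m a).map (ev α)) ^ j = (ev α).mapMatrix (comp m a ^ j) := by
    rw [map_pow]; rfl
  rw [h2]
  ext i k
  rw [RingHom.mapMatrix_apply, Matrix.map_apply, Matrix.smul_apply, smul_eq_mul, map_mul, map_mul,
    map_pow, Matrix.smul_apply, smul_eq_mul, RingHom.mapMatrix_apply, Matrix.map_apply]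

theorem gmat_mulVec (D m : ℕ) (a b : ℕ → MvPolynomial (Fin r) ℤ) (α : Fin r → ℂ) (β : ℂ)
    (h : ∑ j ∈ Finset.range (m + 1), ev α (a j) * β ^ j = 0) :
    ((gmat D m a b).map (ev α)).mulVec (fun i : Fin m => β ^ (i : ℕ)) =
      (ev α (a m) ^ D * ∑ j ∈ Finset.range (D + 1), ev α (b j) * β ^ j) •
        (fun i : Fin m => β ^ (i : ℕ)) := by
  have hCV := comp_mulVec m a α β h
  rw [gmat_map, Matrix.sum_mulVec]
  have h2 : ∀ j ∈ Finset.range (D + 1),
      ((ev α (b j) * ev α (a m) ^ (D - j)) • ((comp m a).map (ev α)) ^ j).mulVec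
        (fun i : Fin m => β ^ (i : ℕ)) =
      (ev α (a m) ^ D * (ev α (b j) * β ^ j)) • (fun i : Fin m => β ^ (i : ℕ)) := by
    intro j hj
    rw [Finset.mem_range] at hj
    rw [Matrix.smul_mulVec, mulVec_pow _ _ _ hCV, smul_smul]
    congr 1
    rw [mul_pow]
    have h3 : ev α (a m) ^ D = ev α (a m) ^ (D - j) * ev α (a m) ^ j := by
      rw [← pow_add, Nat.sub_add_cancel (by omega)]
    rw [h3]
    ring
  rw [Finset.sum_congr rfl h2, ← Finset.sum_smul, ← Finset.mul_sum]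

/-- **Liouville's inequality for one algebraic extension.** -/
theorem osl (α : Fin r → ℂ) (β : ℂ) {A : ℝ} (hA : 1 ≤ A) (hα : ∀ i, ‖α i‖ ≤ A) {D H : ℕ}
    (hD : 1 ≤ D) (hH : 1 ≤ H) {f g : MvPolynomial (Fin (r + 1)) ℤ} (hf : Sz D H f) (hg : Sz D H g)
    (hf0 : (finSuccEquiv ℤ r f).map (ev α) ≠ 0)
    (hfβ : aeval (Fin.cons β α : Fin (r + 1) → ℂ) f = 0)
    (hg0 : aeval (Fin.cons β α : Fin (r + 1) → ℂ) g ≠ 0) :
    ∃ q : MvPolynomial (Fin r) ℤ, Sz (dd D) (hh D H) q ∧ aeval α q ≠ 0 ∧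
      ‖aeval α q‖ ≤ ‖aeval (Fin.cons β α : Fin (r + 1) → ℂ) g‖ *
        (((D + 1) * (hh D H * A ^ dd D)) * (H * A ^ D) ^ D) := by
  classical
  rw [aeval_cons] at hfβ hg0 ⊢
  obtain ⟨p, hp⟩ : ∃ p, p = (finSuccEquiv ℤ r f).map (ev α) := ⟨_, rfl⟩
  obtain ⟨γ, hγ⟩ : ∃ γ, γ = ((finSuccEquiv ℤ r g).map (ev α)).eval β := ⟨_, rfl⟩
  rw [← hp] at hf0 hfβ
  rw [← hγ] at hg0 ⊢
  obtain ⟨m, hm⟩ : ∃ m, m = p.natDegree := ⟨_, rfl⟩
  have hmD : m ≤ D := by
    rw [hm, hp]
    exact (Polynomial.natDegree_map_le).trans hf.natDegree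
  have hm1 : 1 ≤ m := by
    rcases Nat.eq_zero_or_pos m with h0 | h0
    · exfalso
      have h1 := Polynomial.eq_C_of_natDegree_eq_zero (hm.symm.trans h0)
      rw [h1] at hfβ hf0
      rw [Polynomial.eval_C] at hfβ
      rw [hfβ, Polynomial.C_0] at hf0
      exact hf0 rfl
    · exact h0
  obtain ⟨a, ha⟩ : ∃ a : ℕ → MvPolynomial (Fin r) ℤ, a = fun j => (finSuccEquiv ℤ r f).coeff j :=
    ⟨_, rfl⟩
  obtain ⟨b, hb⟩ : ∃ b : ℕ → MvPolynomial (Fin r) ℤ, b = fun j => (finSuccEquiv ℤ r g).coeff j :=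
    ⟨_, rfl⟩
  have haS : ∀ j, Sz D H (a j) := fun j => by rw [ha]; exact hf.coeff j
  have hbS : ∀ j, Sz D H (b j) := fun j => by rw [hb]; exact hg.coeff j
  have hpc : ∀ j, p.coeff j = ev α (a j) := fun j => by rw [hp, Polynomial.coeff_map, ha]
  have ham : ev α (a m) ≠ 0 := by
    rw [← hpc, hm]
    exact Polynomial.leadingCoeff_ne_zero.2 hf0
  have hsum : ∑ j ∈ Finset.range (m + 1), ev α (a j) * β ^ j = 0 := by
    rw [← hfβ, Polynomial.eval_eq_sum_range, ← hm]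
    exact Finset.sum_congr rfl fun j _ => by rw [hpc]
  have hγs : γ = ∑ j ∈ Finset.range (D + 1), ev α (b j) * β ^ j := by
    rw [hγ, Polynomial.eval_eq_sum_range' (n := D + 1)]
    · exact Finset.sum_congr rfl fun j _ => by rw [Polynomial.coeff_map, hb]
    · exact Nat.lt_succ_of_le (Polynomial.natDegree_map_le.trans hg.natDegree)
  have hV0 : (fun i : Fin m => β ^ (i : ℕ)) ≠ 0 := by
    intro h
    have h1 := congrFun h ⟨0, hm1⟩
    simp at h1
  have hGV := gmat_mulVec D m a b α β hsum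
  rw [← hγs] at hGV
  obtain ⟨γ', hγ'⟩ : ∃ γ', γ' = ev α (a m) ^ D * γ := ⟨_, rfl⟩
  rw [← hγ'] at hGV
  have hγ'0 : γ' ≠ 0 := by rw [hγ']; exact mul_ne_zero (pow_ne_zero _ ham) hg0
  obtain ⟨χ, hχ⟩ : ∃ χ, χ = (gmat D m a b).charpoly := ⟨_, rfl⟩
  have hχS : ∀ k, Sz (dd D) (hh D H) (χ.coeff k) := by
    intro k
    rw [hχ]
    refine (Sz.charpoly_coeff (Nat.mul_pos hD (Nat.succ_pos D)) (gmat_Sz hD hH hmD haS hbS) k).mono
      ?_ ?_
    · exact Nat.mul_le_mul_right _ hmD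
    · refine Nat.mul_le_mul (Nat.factorial_le hmD) ?_
      exact Nat.pow_le_pow_right (by omega) hmD
  obtain ⟨c, hc⟩ : ∃ c : Polynomial ℂ, c = χ.map (ev α) := ⟨_, rfl⟩
  have hc0 : c ≠ 0 := by
    rw [hc, hχ]
    exact ((Matrix.charpoly_monic (gmat D m a b)).map (ev α)).ne_zero
  have hcd : c.natDegree ≤ D := by
    rw [hc]
    refine Polynomial.natDegree_map_le.trans ?_
    rw [hχ, Matrix.charpoly_natDegree_eq_dim, Fintype.card_fin]
    exact hmD
  have hroot : c.eval γ' = 0 := by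
    rw [hc, hχ, ← Matrix.charpoly_map]
    exact eval_charpoly_zero _ _ _ hV0 hGV
  -- bound for the coefficients
  have hA0 : (0 : ℝ) ≤ A := by linarith
  have hcb : ∀ k, ‖c.coeff k‖ ≤ hh D H * A ^ dd D := by
    intro k
    rw [hc, Polynomial.coeff_map]
    exact norm_aeval_le hA hα (hχS k)
  have hhpos : (1 : ℝ) ≤ hh D H * A ^ dd D := by
    have h2 : (1 : ℝ) ≤ hh D H := by exact_mod_cast hh_pos D H
    have h3 : (1 : ℝ) ≤ A ^ dd D := one_le_pow₀ hA
    nlinarith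
  have hγ'b : ‖γ'‖ ≤ ‖γ‖ * (H * A ^ D) ^ D := by
    rw [hγ', norm_mul, norm_pow, mul_comm]
    refine mul_le_mul_of_nonneg_left ?_ (norm_nonneg _)
    exact pow_le_pow_left₀ (norm_nonneg _) (norm_aeval_le hA hα (haS m)) D
  have hK0 : (0 : ℝ) ≤ (D + 1) * (hh D H * A ^ dd D) := by positivity
  rcases le_or_gt 1 ‖γ'‖ with hbig | hbig
  · refine ⟨1, Sz.one.mono (Nat.zero_le _) (hh_pos D H), ?_, ?_⟩
    · rw [map_one]; exact one_ne_zero
    · rw [map_one, norm_one]
      refine hbig.trans (hγ'b.trans ?_)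
      refine mul_le_mul_of_nonneg_left ?_ (norm_nonneg _)
      have h1 : (1 : ℝ) ≤ (D + 1) * (hh D H * A ^ dd D) := by
        have h2 : (1 : ℝ) ≤ (D : ℝ) + 1 := by
          have : (0 : ℝ) ≤ D := Nat.cast_nonneg _
          linarith
        nlinarith
      have h3 : (0 : ℝ) ≤ (H * A ^ D) ^ D := by positivity
      nlinarith
  · obtain ⟨s, hs0, hs⟩ := lowest hc0 hcd (by positivity) hcb hγ'0 hbig.le hroot
    refine ⟨χ.coeff s, hχS s, ?_, ?_⟩
    · rw [hc, Polynomial.coeff_map] at hs0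
      exact hs0
    · have h1 : aeval α (χ.coeff s) = c.coeff s := by
        rw [hc, Polynomial.coeff_map]; rfl
      rw [h1]
      refine hs.trans ?_
      calc ‖γ'‖ * ((D + 1) * (hh D H * A ^ dd D))
          ≤ (‖γ‖ * (H * A ^ D) ^ D) * ((D + 1) * (hh D H * A ^ dd D)) :=
            mul_le_mul_of_nonneg_right hγ'b hK0
        _ = _ := by ring

end Pool.Agent.Zk25.LT
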