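import Pool.Agent.Zk25.LT.NP
import Pool.Agent.Zk25.AX.Nrm

/-!
# Exact multiplicative relations at the points near `t`
-/

set_option autoImplicit false

namespace Pool.Agent.Zk25.LT

open MvPolynomial Filter

theorem exact_rel {T R κ₁ κ n : ℕ} (hT : 16 ≤ T) (hn : n ≤ T) {t β : Fin R → ℂ}
    (h : Spc T t β κ₁) (hκ₁ : 2 ≤ κ₁) (hκ : κ₁ + 3 ≤ κ) (ht : ∀ i, ‖t i‖ ≤ T) {x : Fin n → ℂ} {y : ℂ}
    (hx : ∀ i, ‖x i‖ ≤ T) (hy : ‖y‖ ≤ T) {A : Fin n → MvPolynomial (Fin R) ℤ}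
    {b : MvPolynomial (Fin R) ℤ} (hb : Sz T (2 ^ T) b) (hA : ∀ i, Sz T (2 ^ T) (A i))
    (hE : ∀ i, aeval t b * Complex.exp (x i * y) = aeval t (A i)) {s : Fin n → ℤ}
    (hs : ∀ i, |s i| ≤ T) (hv : ‖∑ i, (s i : ℂ) * x i‖ * 2 ^ (T ^ κ) ≤ 1) :
    ∏ i, (aeval β (A i) ^ (s i).toNat * aeval β b ^ (- s i).toNat) =
      ∏ i, (aeval β (A i) ^ (- s i).toNat * aeval β b ^ (s i).toNat) := by
  classical
  obtain ⟨P, hP⟩ : ∃ P : Fin n → ℕ, P = fun i => (s i).toNat := ⟨_, rfl⟩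
  obtain ⟨M, hM⟩ : ∃ M : Fin n → ℕ, M = fun i => (- s i).toNat := ⟨_, rfl⟩
  have hPM : ∀ i, (s i : ℤ) = P i - M i := by
    intro i
    rw [hP, hM]
    show s i = ((s i).toNat : ℤ) - ((- s i).toNat : ℤ)
    omega
  have hPM2 : ∀ i, P i + M i ≤ T := by
    intro i
    have h1 := hs i
    rw [hP, hM]
    show (s i).toNat + (- s i).toNat ≤ T
    rw [abs_le] at h1
    omega
  have hT0 : (1 : ℝ) ≤ T := by exact_mod_cast (by omega : 1 ≤ T)
  obtain ⟨g, hg⟩ : ∃ g : MvPolynomial (Fin R) ℤ, g = ∏ i, (A i ^ P i * b ^ M i) +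
    - ∏ i, (A i ^ M i * b ^ P i) := ⟨_, rfl⟩
  have hfac : ∀ (k l : ℕ) (i : Fin n), k + l ≤ T → Sz (T ^ 2) (2 ^ (T ^ 2)) (A i ^ k * b ^ l) := by
    intro k l i hkl
    refine (((hA i).pow k).mul (hb.pow l)).mono ?_ ?_
    · rw [← add_mul, pow_two]
      exact Nat.mul_le_mul_right _ hkl
    · rw [← pow_mul, ← pow_mul, ← pow_add, ← mul_add, pow_two]
      exact Nat.pow_le_pow_right (by omega) (Nat.mul_le_mul_left _ hkl)
  have hprod : ∀ k l : Fin n → ℕ, (∀ i, k i + l i ≤ T) →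
      Sz (T ^ 3) (2 ^ (T ^ 3)) (∏ i, (A i ^ k i * b ^ l i)) := by
    intro k l hkl
    have h1 := Sz.prod_const (Finset.univ : Finset (Fin n)) (fun i => A i ^ k i * b ^ l i)
      (fun i _ => hfac (k i) (l i) i (hkl i))
    rw [Finset.card_univ, Fintype.card_fin] at h1
    refine h1.mono ?_ ?_
    · calc n * T ^ 2 ≤ T * T ^ 2 := Nat.mul_le_mul_right _ hn
        _ = T ^ 3 := by ring
    · rw [← pow_mul]
      refine Nat.pow_le_pow_right (by omega) ?_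
      calc T ^ 2 * n ≤ T ^ 2 * T := Nat.mul_le_mul_left _ hn
        _ = T ^ 3 := by ring
  have hgS : Sz (T ^ 4) (2 ^ (T ^ 4)) g := by
    rw [hg]
    refine ((hprod P M hPM2).add (hprod M P fun i => by rw [add_comm]; exact hPM2 i).neg).mono
      (Nat.pow_le_pow_right (by omega) (by omega)) ?_
    have s1 := sixteen hT (a := 3) (b := 4) (by omega)
    have s2 : 0 < T ^ 3 := Nat.pow_pos (by omega)
    calc 2 ^ T ^ 3 + 2 ^ T ^ 3 = 2 ^ (T ^ 3 + 1) := by rw [pow_succ]; ring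
      _ ≤ 2 ^ T ^ 4 := Nat.pow_le_pow_right (by omega) (by omega)
  -- the value at `t`
  obtain ⟨B, hB⟩ : ∃ B : ℂ, B = aeval t b := ⟨_, rfl⟩
  obtain ⟨S, hS⟩ : ∃ S : ℕ, S = ∑ i, (P i + M i) := ⟨_, rfl⟩
  have hval : ∀ k l : Fin n → ℕ, aeval t (∏ i, (A i ^ k i * b ^ l i)) =
      B ^ (∑ i, (k i + l i)) * Complex.exp ((∑ i, (k i : ℂ) * x i) * y) := by
    intro k l
    rw [map_prod, ← Finset.prod_pow_eq_pow_sum, Finset.sum_mul, Complex.exp_sum,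
      ← Finset.prod_mul_distrib]
    refine Finset.prod_congr rfl fun i _ => ?_
    rw [map_mul, map_pow, map_pow, ← hE, ← hB, mul_pow, ← Complex.exp_nat_mul, pow_add]
    have : (k i : ℂ) * (x i * y) = (k i : ℂ) * x i * y := by ring
    rw [this]
    ring
  obtain ⟨w, hw⟩ : ∃ w : ℂ, w = (∑ i, (s i : ℂ) * x i) * y := ⟨_, rfl⟩
  obtain ⟨V, hV⟩ : ∃ V : ℂ, V = (∑ i, (M i : ℂ) * x i) * y := ⟨_, rfl⟩
  have hgt : aeval t g = B ^ S * (Complex.exp V * (Complex.exp w - 1)) := by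
    rw [hg, map_add, map_neg, hval, hval]
    have e1 : ∑ i, (M i + P i) = S := by
      rw [hS]; exact Finset.sum_congr rfl fun i _ => add_comm _ _
    rw [e1, ← hS, ← hV]
    have e2 : (∑ i, (P i : ℂ) * x i) * y = V + w := by
      rw [hV, hw, ← add_mul, ← Finset.sum_add_distrib]
      congr 1
      refine Finset.sum_congr rfl fun i _ => ?_
      have : (s i : ℂ) = (P i : ℂ) - (M i : ℂ) := by exact_mod_cast congrArg (fun z : ℤ => (z : ℂ)) (hPM i)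
      rw [this]
      ring
    rw [e2, Complex.exp_add]
    ring
  have hSle : S ≤ T ^ 2 := by
    rw [hS]
    refine (Finset.sum_le_card_nsmul _ _ T fun i _ => hPM2 i).trans ?_
    rw [Finset.card_univ, Fintype.card_fin, smul_eq_mul, pow_two]
    exact Nat.mul_le_mul_right _ hn
  have hBn : ‖B‖ ≤ 2 ^ (2 * T ^ 2) := by
    have h1 := norm_aeval_le (A := (T : ℝ)) hT0 ht hb
    rw [← hB] at h1
    have h2 : (T : ℝ) ^ T ≤ 2 ^ (T * T) := by
      have h3 : T ^ T ≤ 2 ^ (T * T) := by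
        rw [pow_mul]
        exact Nat.pow_le_pow_left (Nat.lt_two_pow_self).le _
      exact_mod_cast h3
    have h4 : ((2 ^ T : ℕ) : ℝ) * (T : ℝ) ^ T ≤ 2 ^ T * 2 ^ (T * T) := by
      push_cast
      exact mul_le_mul_of_nonneg_left h2 (by positivity)
    refine h1.trans (h4.trans ?_)
    rw [← pow_add]
    refine pow_le_pow_right₀ (by norm_num) ?_
    nlinarith
  have hBS : ‖B ^ S‖ ≤ 2 ^ (2 * T ^ 4) := by
    rw [norm_pow]
    have h1 : (1 : ℝ) ≤ 2 ^ (2 * T ^ 2) := one_le_pow₀ (by norm_num)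
    calc ‖B‖ ^ S ≤ (2 ^ (2 * T ^ 2)) ^ S := pow_le_pow_left₀ (norm_nonneg _) hBn _
      _ ≤ (2 ^ (2 * T ^ 2)) ^ (T ^ 2) := pow_le_pow_right₀ h1 hSle
      _ = 2 ^ (2 * T ^ 4) := by rw [← pow_mul]; congr 1; ring
  have hVn : ‖V‖ ≤ ((T ^ 4 : ℕ) : ℝ) := by
    rw [hV, norm_mul]
    have h1 : ‖∑ i, (M i : ℂ) * x i‖ ≤ (T : ℝ) ^ 3 := by
      refine (norm_sum_le _ _).trans ?_
      have h2 : ∀ i ∈ (Finset.univ : Finset (Fin n)), ‖(M i : ℂ) * x i‖ ≤ (T : ℝ) * T := by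
        intro i _
        rw [norm_mul, Complex.norm_natCast]
        have h3 : (M i : ℝ) ≤ T := by
          have := hPM2 i
          exact_mod_cast (by omega : M i ≤ T)
        exact mul_le_mul h3 (hx i) (norm_nonneg _) (by positivity)
      refine (Finset.sum_le_card_nsmul _ _ _ h2).trans ?_
      rw [Finset.card_univ, Fintype.card_fin, nsmul_eq_mul]
      have h4 : (n : ℝ) ≤ T := by exact_mod_cast hn
      calc (n : ℝ) * (T * T) ≤ T * (T * T) := mul_le_mul_of_nonneg_right h4 (by positivity)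
        _ = (T : ℝ) ^ 3 := by ring
    push_cast
    calc ‖∑ i, (M i : ℂ) * x i‖ * ‖y‖ ≤ (T : ℝ) ^ 3 * T :=
          mul_le_mul h1 hy (norm_nonneg _) (by positivity)
      _ = (T : ℝ) ^ 4 := by ring
  have hexpV : ‖Complex.exp V‖ ≤ 2 ^ (2 * T ^ 4) := by
    rw [Complex.norm_exp]
    have h1 : V.re ≤ ((T ^ 4 : ℕ) : ℝ) := (Complex.re_le_norm V).trans hVn
    have h2 := exp_nat_le (T ^ 4)
    refine (Real.exp_le_exp.2 h1).trans (h2.trans ?_)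
    rw [pow_mul]
    exact pow_le_pow_left₀ (by norm_num) (by norm_num) _
  have hpκ : (0 : ℝ) < 2 ^ (T ^ κ) := by positivity
  have hsg : ‖∑ i, (s i : ℂ) * x i‖ ≤ ((2 : ℝ) ^ (T ^ κ))⁻¹ := by
    rw [← one_div, le_div_iff₀ hpκ]
    exact hv
  have hwn : ‖w‖ ≤ 2 ^ T * ((2 : ℝ) ^ (T ^ κ))⁻¹ := by
    rw [hw, norm_mul, mul_comm]
    have h2 : ‖y‖ ≤ 2 ^ T := by
      refine hy.trans ?_
      exact_mod_cast (Nat.lt_two_pow_self (n := T)).le
    exact mul_le_mul h2 hsg (norm_nonneg _) (by positivity)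
  have hTκ : 16 * T ^ 4 ≤ T ^ κ := sixteen hT (a := 4) (b := κ) (by omega)
  have hTκ2 : 16 * T ^ (κ₁ + 2) ≤ T ^ κ := sixteen hT (a := κ₁ + 2) (b := κ) (by omega)
  have hT1 : T ≤ T ^ 4 := by
    calc T = T ^ 1 := (pow_one T).symm
      _ ≤ T ^ 4 := Nat.pow_le_pow_right (by omega) (by omega)
  have hw1 : ‖w‖ ≤ 1 := by
    refine hwn.trans ?_
    rw [← div_eq_mul_inv, div_le_one hpκ]
    exact pow_le_pow_right₀ (by norm_num) (by omega)
  have hew : ‖Complex.exp w - 1‖ ≤ 2 * ‖w‖ := Complex.norm_exp_sub_one_le hw1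
  have hgv : ‖aeval t g‖ * 2 ^ (T ^ (κ₁ + 2)) ≤ 1 := by
    rw [hgt, norm_mul, norm_mul]
    have e1 : ‖B ^ S‖ * (‖Complex.exp V‖ * ‖Complex.exp w - 1‖) ≤
        2 ^ (2 * T ^ 4) * (2 ^ (2 * T ^ 4) * (2 * (2 ^ T * ((2 : ℝ) ^ (T ^ κ))⁻¹))) := by
      refine mul_le_mul hBS ?_ (by positivity) (by positivity)
      refine mul_le_mul hexpV ?_ (norm_nonneg _) (by positivity)
      exact hew.trans (mul_le_mul_of_nonneg_left hwn (by norm_num))
    have e2 : (2 : ℝ) ^ (2 * T ^ 4) * (2 ^ (2 * T ^ 4) * (2 * 2 ^ T)) * 2 ^ (T ^ (κ₁ + 2)) ≤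
        2 ^ (T ^ κ) := by
      rw [← pow_succ', ← pow_add, ← pow_add, ← pow_add]
      refine pow_le_pow_right₀ (by norm_num) ?_
      omega
    calc _ ≤ (2 ^ (2 * T ^ 4) * (2 ^ (2 * T ^ 4) * (2 * (2 ^ T * ((2 : ℝ) ^ (T ^ κ))⁻¹)))) *
          2 ^ (T ^ (κ₁ + 2)) := mul_le_mul_of_nonneg_right e1 (by positivity)
      _ = ((2 : ℝ) ^ (2 * T ^ 4) * (2 ^ (2 * T ^ 4) * (2 * 2 ^ T)) * 2 ^ (T ^ (κ₁ + 2))) *
          ((2 : ℝ) ^ (T ^ κ))⁻¹ := by ring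
      _ ≤ 2 ^ (T ^ κ) * ((2 : ℝ) ^ (T ^ κ))⁻¹ := mul_le_mul_of_nonneg_right e2 (by positivity)
      _ = 1 := mul_inv_cancel₀ hpκ.ne'
  have hg0 := h.exact hT hκ₁ ht hgS hgv
  rw [hg, map_add, map_neg, map_prod, map_prod] at hg0
  have e3 := add_neg_eq_zero.1 hg0
  rw [hP, hM] at e3
  simp only [map_mul, map_pow] at e3
  exact e3

/-- the relation for a derivation -/
theorem der_rel {n : ℕ} (D : Derivation ℤ ℂ ℂ) {a : Fin n → ℂ} {b : ℂ} (ha : ∀ i, a i ≠ 0)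
    (hb : b ≠ 0) {s : Fin n → ℤ} (h : ∏ i, (a i ^ (s i).toNat * b ^ (- s i).toNat) =
      ∏ i, (a i ^ (- s i).toNat * b ^ (s i).toNat)) :
    ∑ i, (s i : ℂ) * (D (a i / b) / (a i / b)) = 0 := by
  classical
  have hz : ∀ i, a i / b ≠ 0 := fun i => div_ne_zero (ha i) hb
  have h1 : ∏ i, (a i / b) ^ (s i) = 1 := by
    have h2 : ∀ i, (a i / b) ^ (s i) = (a i ^ (s i).toNat * b ^ (- s i).toNat) /
        (a i ^ (- s i).toNat * b ^ (s i).toNat) := by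
      intro i
      have h3 : s i = ((s i).toNat : ℤ) - ((- s i).toNat : ℤ) := by omega
      conv_lhs => rw [h3]
      rw [zpow_sub₀ (hz i), zpow_natCast, zpow_natCast, div_pow, div_pow, div_div_div_eq,
        mul_comm (b ^ (s i).toNat) (a i ^ (- s i).toNat)]
    rw [Finset.prod_congr rfl fun i _ => h2 i, Finset.prod_div_distrib, h, div_self]
    exact Finset.prod_ne_zero_iff.2 fun i _ => mul_ne_zero (pow_ne_zero _ (ha i)) (pow_ne_zero _ hb)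
  have h2 := AX.ld_prod D Finset.univ (fun i => (a i / b) ^ (s i)) (fun i _ => zpow_ne_zero _ (hz i))
  rw [h1, D.map_one_eq_zero, zero_div] at h2
  rw [h2]
  exact Finset.sum_congr rfl fun i _ => (AX.ld_zpow D (hz i) _).symm

end Pool.Agent.Zk25.LT
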