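import Pool.Agent.Zk25.LT.Len

/-!
# Polynomials in one more variable
-/

set_option autoImplicit false

namespace Pool.Agent.Zk25.LT

open MvPolynomial

theorem len_rename_le {σ τ : Type*} (k : σ → τ) (f : MvPolynomial σ ℤ) :
    len (rename k f) ≤ len f := by
  classical
  conv_lhs => rw [f.as_sum, map_sum]
  refine (len_sum_le _ _).trans ?_
  unfold len
  refine Finset.sum_le_sum fun m _ => ?_
  rw [rename_monomial]
  exact (len_monomial _ _).le

theorem Sz.rename {σ τ : Type*} (k : σ → τ) {d h : ℕ} {f : MvPolynomial σ ℤ} (hf : Sz d h f) :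
    Sz d h (MvPolynomial.rename k f) :=
  ⟨(totalDegree_rename_le _ _).trans hf.1, (len_rename_le k f).trans hf.2⟩

variable {r : ℕ}

/-- evaluation at the first variables -/
noncomputable def ev (α : Fin r → ℂ) : MvPolynomial (Fin r) ℤ →+* ℂ :=
  (aeval α : MvPolynomial (Fin r) ℤ →ₐ[ℤ] ℂ).toRingHom

theorem ev_apply (α : Fin r → ℂ) (f : MvPolynomial (Fin r) ℤ) : ev α f = aeval α f := rfl

theorem aeval_cons (α : Fin r → ℂ) (β : ℂ) (f : MvPolynomial (Fin (r + 1)) ℤ) :
    aeval (Fin.cons β α : Fin (r + 1) → ℂ) f =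
      ((finSuccEquiv ℤ r f).map (ev α)).eval β := by
  induction f using MvPolynomial.induction_on with
  | C a =>
    rw [algHom_C, finSuccEquiv_apply, eval₂Hom_C]
    simp
  | add p q hp hq => rw [map_add, map_add, Polynomial.map_add, Polynomial.eval_add, hp, hq]
  | mul_X p i hp =>
    rw [map_mul, map_mul, Polynomial.map_mul, Polynomial.eval_mul, hp, aeval_X]
    congr 1
    refine Fin.cases ?_ (fun j => ?_) i
    · rw [finSuccEquiv_X_zero]
      simp
    · rw [finSuccEquiv_X_succ]
      simp [ev]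

theorem finSuccEquiv_rename (f : MvPolynomial (Fin r) ℤ) :
    finSuccEquiv ℤ r (rename Fin.succ f) = Polynomial.C f := by
  induction f using MvPolynomial.induction_on with
  | C a =>
    rw [rename_C, finSuccEquiv_apply, eval₂Hom_C]
    simp
  | add p q hp hq => rw [map_add, map_add, hp, hq, Polynomial.C_add]
  | mul_X p i hp =>
    rw [map_mul, map_mul, hp, rename_X, finSuccEquiv_X_succ, Polynomial.C_mul]

theorem cons_injective (i : ℕ) : Function.Injective (fun m : Fin r →₀ ℕ => Finsupp.cons i m) := by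
  intro m k h
  have := congrArg Finsupp.tail h
  simpa using this

theorem len_coeff_le (f : MvPolynomial (Fin (r + 1)) ℤ) (i : ℕ) :
    len ((finSuccEquiv ℤ r f).coeff i) ≤ len f := by
  classical
  unfold len
  have h1 : ∀ m ∈ ((finSuccEquiv ℤ r f).coeff i).support,
      ((((finSuccEquiv ℤ r f).coeff i).coeff m).natAbs) = (f.coeff (Finsupp.cons i m)).natAbs := by
    intro m _
    rw [finSuccEquiv_coeff_coeff]
  rw [Finset.sum_congr rfl h1,
    ← Finset.sum_image (g := fun m : Fin r →₀ ℕ => Finsupp.cons i m)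
      (f := fun m => (f.coeff m).natAbs) (fun a _ b _ h => cons_injective i h)]
  refine Finset.sum_le_sum_of_subset_of_nonneg ?_ (fun _ _ _ => Nat.zero_le _)
  intro m hm
  obtain ⟨k, hk, rfl⟩ := Finset.mem_image.1 hm
  rw [MvPolynomial.mem_support_iff] at hk ⊢
  rwa [finSuccEquiv_coeff_coeff] at hk

theorem Sz.coeff {d h : ℕ} {f : MvPolynomial (Fin (r + 1)) ℤ} (hf : Sz d h f) (i : ℕ) :
    Sz d h ((finSuccEquiv ℤ r f).coeff i) := by
  refine ⟨?_, (len_coeff_le f i).trans hf.2⟩
  by_cases h0 : (finSuccEquiv ℤ r f).coeff i = 0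
  · rw [h0]; simp
  · exact (Nat.le_add_right _ i).trans ((totalDegree_coeff_finSuccEquiv_add_le f i h0).trans hf.1)

theorem Sz.natDegree {d h : ℕ} {f : MvPolynomial (Fin (r + 1)) ℤ} (hf : Sz d h f) :
    (finSuccEquiv ℤ r f).natDegree ≤ d := by
  rw [natDegree_finSuccEquiv]
  exact (degreeOf_le_totalDegree f 0).trans hf.1

end Pool.Agent.Zk25.LT
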