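import Pool.Agent.Zk25.LT.Ult2
import Pool.Agent.Zk25.LT.Alg

/-!
# Transfer of algebraicity
-/

set_option autoImplicit false

namespace Pool.Agent.Zk25.LT

theorem transfer {L A B : Type*} [Field L] [Field A] [Field B] [Algebra ℚ L] [Algebra ℚ A]
    [Algebra ℚ B] (ι : L →+* A) (φ : L →+* B) {m : ℕ} (τ : Fin m → L) (g : L)
    (h : IsAlgebraic (IntermediateField.adjoin ℚ (Set.range fun j => ι (τ j))) (ι g)) :
    IsAlgebraic (IntermediateField.adjoin ℚ (Set.range fun j => φ (τ j))) (φ g) := by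
  classical
  obtain ⟨E, hE⟩ : ∃ E : IntermediateField ℚ L, E = IntermediateField.adjoin ℚ (Set.range τ) :=
    ⟨_, rfl⟩
  have hA : IntermediateField.adjoin ℚ (Set.range fun j => ι (τ j)) = E.map ι.toRatAlgHom := by
    rw [hE, IntermediateField.adjoin_map, ← Set.range_comp]
    rfl
  have hB : IntermediateField.adjoin ℚ (Set.range fun j => φ (τ j)) = E.map φ.toRatAlgHom := by
    rw [hE, IntermediateField.adjoin_map, ← Set.range_comp]
    rfl
  rw [hA] at h
  rw [hB]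
  have h1 : IsAlgebraic E g := by
    obtain ⟨p, hp0, hp⟩ := h
    have e4 : ∀ n, ∃ b : E, ι (b : L) = ((p.coeff n : E.map ι.toRatAlgHom) : A) := by
      intro n
      obtain ⟨b, hb, hb'⟩ := (p.coeff n).2
      exact ⟨⟨b, hb⟩, hb'⟩
    have e5 : p.map (algebraMap (E.map ι.toRatAlgHom) A) ∈
        Polynomial.lifts (ι.comp (algebraMap E L)) := by
      rw [Polynomial.lifts_iff_coeff_lifts]
      intro n
      rw [Polynomial.coeff_map]
      obtain ⟨b, hb⟩ := e4 n
      exact ⟨b, hb⟩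
    rw [Polynomial.mem_lifts] at e5
    obtain ⟨q, hq⟩ := e5
    refine ⟨q, ?_, ?_⟩
    · rintro rfl
      rw [Polynomial.map_zero] at hq
      exact hp0 ((Polynomial.map_eq_zero _).1 hq.symm)
    · apply ι.injective
      rw [map_zero, Polynomial.aeval_def, Polynomial.hom_eval₂, ← Polynomial.eval_map, hq,
        Polynomial.eval_map]
      exact hp
  obtain ⟨p, hp0, hp⟩ := h1
  have e5 : p.map (φ.comp (algebraMap E L)) ∈
      Polynomial.lifts (algebraMap (E.map φ.toRatAlgHom) B) := by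
    rw [Polynomial.lifts_iff_coeff_lifts]
    intro n
    rw [Polynomial.coeff_map]
    exact ⟨⟨φ (p.coeff n : L), ⟨(p.coeff n : L), (p.coeff n).2, rfl⟩⟩, rfl⟩
  rw [Polynomial.mem_lifts] at e5
  obtain ⟨q, hq⟩ := e5
  refine ⟨q, ?_, ?_⟩
  · rintro rfl
    rw [Polynomial.map_zero] at hq
    exact hp0 ((Polynomial.map_eq_zero _).1 hq.symm)
  · rw [Polynomial.aeval_def, ← Polynomial.eval_map, hq, Polynomial.eval_map,
      ← Polynomial.hom_eval₂, ← Polynomial.aeval_def, hp, map_zero]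

theorem trdeg_lt_of {K L : Type} [Field K] [Field L] [Algebra ℚ K] [Algebra ℚ L] [Algebra K L]
    [IsScalarTower ℚ K L] {r : ℕ} (h : Algebra.trdeg ℚ L ≤ ((r + 1 : ℕ) : Cardinal))
    (hn : ¬ Algebra.IsAlgebraic K L) : Algebra.trdeg ℚ K ≤ (r : Cardinal) := by
  have hf1 : FaithfulSMul K L :=
    (faithfulSMul_iff_algebraMap_injective _ _).2 (algebraMap K L).injective
  have hf2 : FaithfulSMul ℚ K :=
    (faithfulSMul_iff_algebraMap_injective _ _).2 (algebraMap ℚ K).injective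
  have h2 : Algebra.trdeg ℚ K + Algebra.trdeg K L = Algebra.trdeg ℚ L := trdeg_add_eq ℚ K
  have h3 : (1 : Cardinal) ≤ Algebra.trdeg K L := by
    rw [Cardinal.one_le_iff_ne_zero, Ne, trdeg_eq_zero_iff]
    exact hn
  have e1 : Algebra.trdeg ℚ K + 1 ≤ ((r + 1 : ℕ) : Cardinal) := by
    refine le_trans ?_ h
    rw [← h2]
    exact add_le_add le_rfl h3
  rw [Nat.cast_add, Nat.cast_one] at e1
  have e2 : Algebra.trdeg ℚ K < Cardinal.aleph0 := by
    refine lt_of_le_of_lt (le_trans (self_le_add_right _ _) e1) ?_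
    exact_mod_cast Cardinal.natCast_lt_aleph0 (n := r + 1)
  obtain ⟨m, hm⟩ := Cardinal.lt_aleph0.1 e2
  rw [hm] at e1 ⊢
  have e3 : m + 1 ≤ r + 1 := by exact_mod_cast e1
  exact_mod_cast (by omega : m ≤ r)

/-- the constants -/
theorem consts {L : IntermediateField ℚ ℂ} {F : Type} [Field F] [CharZero F] (D : Derivation ℤ F F)
    (φ : L →+* F) : ∃ K : IntermediateField ℚ ℂ, ∀ z, z ∈ K ↔ ∃ g : L, (g : ℂ) = z ∧ D (φ g) = 0 := by
  refine ⟨Subfield.toIntermediateField (K := ℚ)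
      { carrier := {z | ∃ g : L, (g : ℂ) = z ∧ D (φ g) = 0}
        mul_mem' := ?_
        one_mem' := ?_
        add_mem' := ?_
        zero_mem' := ?_
        neg_mem' := ?_
        inv_mem' := ?_ } ?_, fun z => Iff.rfl⟩
  · rintro _ _ ⟨a, rfl, ha⟩ ⟨b, rfl, hb⟩
    refine ⟨a * b, rfl, ?_⟩
    rw [map_mul, D.leibniz, ha, hb, smul_zero, smul_zero, add_zero]
  · exact ⟨1, rfl, by rw [map_one, D.map_one_eq_zero]⟩
  · rintro _ _ ⟨a, rfl, ha⟩ ⟨b, rfl, hb⟩
    refine ⟨a + b, rfl, ?_⟩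
    rw [map_add, map_add, ha, hb, add_zero]
  · exact ⟨0, rfl, by rw [map_zero, map_zero]⟩
  · rintro _ ⟨a, rfl, ha⟩
    refine ⟨-a, rfl, ?_⟩
    rw [map_neg, map_neg, ha, neg_zero]
  · rintro _ ⟨a, rfl, ha⟩
    refine ⟨a⁻¹, rfl, ?_⟩
    rw [map_inv₀, D.leibniz_inv, ha, smul_zero]
  · intro q
    refine ⟨(q : L), ?_, ?_⟩
    · rw [eq_ratCast]
      rfl
    · rw [map_ratCast]
      have e2 : (q : F) = (q.num : F) / (q.den : F) := Rat.cast_def q
      rw [e2, D.leibniz_div, D.map_intCast, D.map_natCast, smul_zero, smul_zero, sub_zero, smul_zero]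

end Pool.Agent.Zk25.LT
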