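import Pool.Agent.Zk25.LT.Rel
import Pool.Agent.Zk25.LT.Expl
import Pool.Agent.Zk25.AX.Fin

/-!
# A differential field which contains the numbers and in which the approximate relations are exact
-/

set_option autoImplicit false

namespace Pool.Agent.Zk25.LT

open MvPolynomial Filter

/-- a homomorphism of polynomials with the same kernel as an evaluation extends to the field -/
theorem exists_phi {R : ℕ} (t : Fin R → ℂ) {F : Type*} [Field F]
    (Ψ : MvPolynomial (Fin R) ℤ →+* F) (h : ∀ f, Ψ f = 0 ↔ aeval t f = 0) :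
    ∃ φ : IntermediateField.adjoin ℚ (Set.range t) →+* F, ∀ (g : IntermediateField.adjoin ℚ (Set.range t))
      (A b : MvPolynomial (Fin R) ℤ), aeval t b ≠ 0 → aeval t b * (g : ℂ) = aeval t A →
        φ g = Ψ A / Ψ b := by
  classical
  choose A b hb hA using fun g : IntermediateField.adjoin ℚ (Set.range t) => ratfun t g.2
  have key : ∀ (g : IntermediateField.adjoin ℚ (Set.range t)) (A' b' : MvPolynomial (Fin R) ℤ),
      aeval t b' ≠ 0 → aeval t b' * (g : ℂ) = aeval t A' → Ψ (A g) / Ψ (b g) = Ψ A' / Ψ b' := by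
    intro g A' b' hb' hA'
    have h1 : Ψ (b g) ≠ 0 := fun h0 => hb g ((h _).1 h0)
    have h2 : Ψ b' ≠ 0 := fun h0 => hb' ((h _).1 h0)
    rw [div_eq_div_iff h1 h2, ← map_mul, ← map_mul, ← sub_eq_zero, ← map_sub, h, map_sub, map_mul,
      map_mul, ← hA, ← hA']
    ring
  refine ⟨{ toFun := fun g => Ψ (A g) / Ψ (b g), map_one' := ?_, map_mul' := ?_,
            map_zero' := ?_, map_add' := ?_ }, ?_⟩
  · rw [key 1 1 1 (by simp) (by simp)]
    simp
  · intro g g'
    rw [key (g * g') (A g * A g') (b g * b g') (by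
      rw [map_mul]; exact mul_ne_zero (hb g) (hb g')) (by
      rw [map_mul, map_mul, ← hA, ← hA]
      push_cast
      ring), map_mul, map_mul, mul_div_mul_comm]
  · rw [key 0 0 1 (by simp) (by simp)]
    simp
  · intro g g'
    have h1 : Ψ (b g) ≠ 0 := fun h0 => hb g ((h _).1 h0)
    have h2 : Ψ (b g') ≠ 0 := fun h0 => hb g' ((h _).1 h0)
    rw [key (g + g') (A g * b g' + A g' * b g) (b g * b g') (by
      rw [map_mul]; exact mul_ne_zero (hb g) (hb g')) (by
      rw [map_mul, map_add, map_mul, map_mul, ← hA, ← hA]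
      push_cast
      ring), map_add, map_mul, map_mul, map_mul]
    field_simp
  · intro g A' b' hb' hA'
    exact key g A' b' hb' hA'

/-- the derivation of the ultrapower -/
noncomputable def gder (U : Ultrafilter ℕ) (D : Derivation ℤ ℂ ℂ) :
    Derivation ℤ (Germ (U : Filter ℕ) ℂ) (Germ (U : Filter ℕ) ℂ) :=
  Derivation.mk' (AddMonoidHom.toIntLinearMap
    { toFun := Germ.map D
      map_zero' := by
        show Germ.map D ((0 : ℕ → ℂ) : Germ (U : Filter ℕ) ℂ) = ((0 : ℕ → ℂ) : Germ (U : Filter ℕ) ℂ)
        rw [Germ.map_coe]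
        congr 1
        funext T
        simp
      map_add' := by
        intro f g
        induction f using Germ.inductionOn with
        | _ f =>
          induction g using Germ.inductionOn with
          | _ g =>
            show Germ.map D ((f + g : ℕ → ℂ) : Germ (U : Filter ℕ) ℂ) =
              ((D ∘ f + D ∘ g : ℕ → ℂ) : Germ (U : Filter ℕ) ℂ)
            rw [Germ.map_coe]
            congr 1
            funext T
            simp }) (by
    intro f g
    induction f using Germ.inductionOn with
    | _ f =>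
      induction g using Germ.inductionOn with
      | _ g =>
        show Germ.map D ((f * g : ℕ → ℂ) : Germ (U : Filter ℕ) ℂ) =
          ((f * (D ∘ g) + g * (D ∘ f) : ℕ → ℂ) : Germ (U : Filter ℕ) ℂ)
        rw [Germ.map_coe]
        congr 1
        funext T
        simp)

theorem gder_coe (U : Ultrafilter ℕ) (D : Derivation ℤ ℂ ℂ) (f : ℕ → ℂ) :
    gder U D (f : Germ (U : Filter ℕ) ℂ) = ((fun T => D (f T) : ℕ → ℂ) : Germ (U : Filter ℕ) ℂ) := rfl

end Pool.Agent.Zk25.LT
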