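import Pool.Agent.Zk25.LT.Ult
import Pool.Agent.Zk25.AX.Ext

/-!
# The ultrapower
-/

set_option autoImplicit false

namespace Pool.Agent.Zk25.LT

open MvPolynomial Filter

theorem ev_mono {σ : Type*} (f : MvPolynomial σ ℤ) :
    ∀ᶠ T : ℕ in atTop, Sz (T ^ 4) (2 ^ (T ^ 4)) f := by
  filter_upwards [ev_Sz f, eventually_ge_atTop 1] with T h h1
  have h2 : T ≤ T ^ 4 := by
    calc T = T ^ 1 := (pow_one T).symm
      _ ≤ T ^ 4 := Nat.pow_le_pow_right h1 (by omega)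
  exact h.mono h2 (Nat.pow_le_pow_right (by omega) h2)

theorem ultra {R : ℕ} (t : Fin R → ℂ) (k₀ : Fin R) (hk₀ : ¬ IsAlgebraic ℚ (t k₀)) (P : ℕ → Prop)
    (hfreq : ∃ᶠ T in atTop, Ind T t 1 (Fin.cons k₀ Fin.elim0) (sa R 1) (sb R 1) ∧ P T) :
    ∃ (F : Type) (_ : Field F) (_ : CharZero F) (D : Derivation ℤ F F)
      (φ : IntermediateField.adjoin ℚ (Set.range t) →+* F),
      (∀ g : IntermediateField.adjoin ℚ (Set.range t), (g : ℂ) = t k₀ → D (φ g) = 1) ∧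
      ∀ (n : ℕ) (x : Fin n → ℂ) (y : ℂ) (θ : Fin n → IntermediateField.adjoin ℚ (Set.range t)),
        (∀ i, (θ i : ℂ) = Complex.exp (x i * y)) →
        (∀ T, P T → ∃ s : Fin n → ℤ, s ≠ 0 ∧ (∀ i, |s i| ≤ T) ∧
          ‖∑ i, (s i : ℂ) * x i‖ * 2 ^ (T ^ (KK R + 3)) ≤ 1) →
        ∃ a : Fin n → F, a ≠ 0 ∧ (∀ k, D (a k) = 0) ∧
          ∑ k, a k * (D (φ (θ k)) / φ (θ k)) = 0 := by
  classical
  obtain ⟨G, hG⟩ : ∃ G : ℕ → Prop, G = fun T => Ind T t 1 (Fin.cons k₀ Fin.elim0) (sa R 1) (sb R 1) ∧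
    P T := ⟨_, rfl⟩
  have hne : (atTop ⊓ 𝓟 {T | G T}).NeBot := by
    rw [← frequently_mem_iff_neBot]
    rw [hG]
    exact hfreq
  obtain ⟨U, hU⟩ : ∃ U : Ultrafilter ℕ, (U : Filter ℕ) ≤ atTop ⊓ 𝓟 {T | G T} :=
    ⟨Ultrafilter.of _, Ultrafilter.of_le _⟩
  have hUtop : (U : Filter ℕ) ≤ atTop := hU.trans inf_le_left
  have hUG : ∀ᶠ T in (U : Filter ℕ), G T := by
    have : ∀ᶠ T in 𝓟 {T | G T}, G T := by
      rw [eventually_principal]
      exact fun T hT => hT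
    exact (hU.trans inf_le_right) this
  have lift : ∀ {p : ℕ → Prop}, (∀ᶠ T in atTop, p T) → ∀ᶠ T in (U : Filter ℕ), p T := fun h =>
    hUtop h
  -- the points
  have hpt : ∀ T : ℕ, ∃ β : Fin R → ℂ, (16 ≤ T ∧ (∀ i, ‖t i‖ ≤ T) ∧ G T) → ∃ κ, 2 ≤ κ ∧ κ ≤ KK R ∧
      Spc T t β κ ∧ β k₀ = t k₀ := by
    intro T
    by_cases h : 16 ≤ T ∧ (∀ i, ‖t i‖ ≤ T) ∧ G T
    · obtain ⟨h1, h2, h3⟩ := h
      rw [hG] at h3
      obtain ⟨κ, hκ1, hκ2, β, hβ1, hβ2⟩ := np h1 t h2 k₀ h3.1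
      exact ⟨β, fun _ => ⟨κ, hκ1, hκ2, hβ1, hβ2⟩⟩
    · exact ⟨t, fun h' => absurd h' h⟩
  choose β hβ using hpt
  have hev : ∀ᶠ T : ℕ in (U : Filter ℕ), 16 ≤ T ∧ (∀ i, ‖t i‖ ≤ T) ∧ G T := by
    filter_upwards [lift (eventually_ge_atTop 16), lift (eventually_all.2 fun i => ev_norm (t i)),
      hUG] with T h1 h2 h3
    exact ⟨h1, h2, h3⟩
  have hβev : ∀ᶠ T in (U : Filter ℕ), ∃ κ, 2 ≤ κ ∧ κ ≤ KK R ∧ Spc T t (β T) κ ∧ β T k₀ = t k₀ := by
    filter_upwards [hev] with T hT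
    exact hβ T hT
  -- convergence
  have hlim : Tendsto β (U : Filter ℕ) (nhds t) := by
    rw [tendsto_pi_nhds]
    intro i
    rw [tendsto_iff_norm_sub_tendsto_zero]
    have h1 : Tendsto (fun T : ℕ => (1 / 2 : ℝ) ^ T) (U : Filter ℕ) (nhds 0) :=
      (tendsto_pow_atTop_nhds_zero_of_lt_one (by norm_num) (by norm_num)).mono_left hUtop
    refine squeeze_zero' (Eventually.of_forall fun T => norm_nonneg _) ?_ h1
    filter_upwards [hβev, hev] with T hT hT'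
    obtain ⟨κ, hκ1, hκ2, hs, _⟩ := hT
    have e2 := hs.1 i
    rw [norm_sub_rev]
    have e3 : (2 : ℝ) ^ T ≤ 2 ^ (T ^ (κ + 5)) := by
      refine pow_le_pow_right₀ (by norm_num) ?_
      calc T = T ^ 1 := (pow_one T).symm
        _ ≤ _ := Nat.pow_le_pow_right (by omega) (by omega)
    have e4 : ‖t i - β T i‖ * 2 ^ T ≤ 1 := (mul_le_mul_of_nonneg_left e3 (norm_nonneg _)).trans e2
    rw [one_div, inv_pow, ← one_div, le_div_iff₀ (by positivity)]
    exact e4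
  -- the homomorphism
  obtain ⟨Ψ, hΨ⟩ : ∃ Ψ : MvPolynomial (Fin R) ℤ →+* Germ (U : Filter ℕ) ℂ,
      ∀ f, Ψ f = ((fun T => aeval (β T) f : ℕ → ℂ) : Germ (U : Filter ℕ) ℂ) :=
    ⟨(Germ.coeRingHom (U : Filter ℕ)).comp (RingHom.pi fun T => (aeval (β T) :
      MvPolynomial (Fin R) ℤ →ₐ[ℤ] ℂ).toRingHom), fun f => rfl⟩
  have hker1 : ∀ f : MvPolynomial (Fin R) ℤ, aeval t f = 0 →
      ∀ᶠ T in (U : Filter ℕ), aeval (β T) f = 0 := by
    intro f hf
    filter_upwards [hβev, hev, lift (ev_mono f)] with T hT hT' hT''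
    obtain ⟨κ, hκ1, hκ2, hs, _⟩ := hT
    refine hs.exact hT'.1 hκ1 hT'.2.1 hT'' ?_
    rw [hf, norm_zero, zero_mul]
    exact zero_le_one
  have hker2 : ∀ f : MvPolynomial (Fin R) ℤ, aeval t f ≠ 0 →
      ∀ᶠ T in (U : Filter ℕ), aeval (β T) f ≠ 0 := by
    intro f hf
    have hc : Continuous fun z : Fin R → ℂ => aeval z f := by
      have e1 : (fun z : Fin R → ℂ => aeval z f) = fun z => MvPolynomial.eval z (map (algebraMap ℤ ℂ) f) := by
        funext z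
        rw [MvPolynomial.eval_map, MvPolynomial.aeval_def]
      rw [e1]
      exact MvPolynomial.continuous_eval _
    have h1 := (hc.tendsto t).comp hlim
    exact h1.eventually_ne hf
  have hker : ∀ f, Ψ f = 0 ↔ aeval t f = 0 := by
    intro f
    rw [hΨ]
    have h0 : (0 : Germ (U : Filter ℕ) ℂ) = ((fun _ => 0 : ℕ → ℂ) : Germ (U : Filter ℕ) ℂ) := rfl
    rw [h0, Germ.coe_eq]
    constructor
    · intro h
      by_contra hne'
      have h1 := hker2 f hne'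
      obtain ⟨T, hT1, hT2⟩ := (h.and h1).exists
      exact hT2 hT1
    · exact fun h => hker1 f h
  obtain ⟨φ, hφ⟩ := exists_phi t Ψ hker
  obtain ⟨d, hd⟩ := AX.exists_der_one (K := ℚ) (t k₀) hk₀
  have hchar : CharZero (Germ (U : Filter ℕ) ℂ) := by
    let _ : Algebra (IntermediateField.adjoin ℚ (Set.range t)) (Germ (U : Filter ℕ) ℂ) := φ.toAlgebra
    exact charZero_of_injective_algebraMap φ.injective
  refine ⟨Germ (U : Filter ℕ) ℂ, inferInstance, hchar, gder U d, φ, ?_, ?_⟩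
  · intro g hg
    have h1 := hφ g (X k₀) 1 (by simp) (by simp [hg])
    rw [h1, map_one, div_one, hΨ, gder_coe]
    show ((fun T => d (aeval (β T) (X k₀ : MvPolynomial (Fin R) ℤ)) : ℕ → ℂ) : Germ (U : Filter ℕ) ℂ) =
      ((fun _ => 1 : ℕ → ℂ) : Germ (U : Filter ℕ) ℂ)
    rw [Germ.coe_eq]
    filter_upwards [hβev] with T hT
    obtain ⟨κ, _, _, _, h2⟩ := hT
    rw [aeval_X, h2, hd]
  · intro n x y θ hθ hP
    obtain ⟨b, A, hb, hA⟩ := common t (fun i => (θ i : ℂ)) (fun i => (θ i).2)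
    have hA0 : ∀ i, aeval t (A i) ≠ 0 := by
      intro i
      rw [← hA, hθ]
      exact mul_ne_zero hb (Complex.exp_ne_zero _)
    have hs' : ∀ T : ℕ, ∃ s : Fin n → ℤ, P T → s ≠ 0 ∧ (∀ i, |s i| ≤ T) ∧
        ‖∑ i, (s i : ℂ) * x i‖ * 2 ^ (T ^ (KK R + 3)) ≤ 1 := by
      intro T
      by_cases hT : P T
      · obtain ⟨s, hs⟩ := hP T hT
        exact ⟨s, fun _ => hs⟩
      · exact ⟨0, fun h => absurd h hT⟩
    choose s hs using hs'
    have hz : ∀ i, φ (θ i) = ((fun T => aeval (β T) (A i) / aeval (β T) b : ℕ → ℂ) :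
        Germ (U : Filter ℕ) ℂ) := by
      intro i
      rw [hφ (θ i) (A i) b hb (hA i), hΨ, hΨ]
      rfl
    refine ⟨fun k => ((fun T => (s T k : ℂ) : ℕ → ℂ) : Germ (U : Filter ℕ) ℂ), ?_, fun k => ?_, ?_⟩
    · intro h0
      have h1 : ∀ k, ∀ᶠ T in (U : Filter ℕ), (s T k : ℂ) = 0 := by
        intro k
        have h2 := congrFun h0 k
        have h3 : ((fun T => (s T k : ℂ) : ℕ → ℂ) : Germ (U : Filter ℕ) ℂ) =
          ((fun _ => 0 : ℕ → ℂ) : Germ (U : Filter ℕ) ℂ) := h2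
        exact Germ.coe_eq.1 h3
      obtain ⟨T, hT1, hT2⟩ := ((eventually_all.2 h1).and hev).exists
      have hPT : P T := by
        have := hT2.2.2
        rw [hG] at this
        exact this.2
      apply (hs T hPT).1
      funext k
      exact_mod_cast hT1 k
    · rw [gder_coe]
      have h3 : ((fun T => d (s T k : ℂ) : ℕ → ℂ) : Germ (U : Filter ℕ) ℂ) =
          ((fun _ => 0 : ℕ → ℂ) : Germ (U : Filter ℕ) ℂ) := by
        rw [Germ.coe_eq]
        refine Eventually.of_forall fun T => ?_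
        exact d.map_intCast _
      exact h3
    · have h1 : ∀ k, ((fun T => (s T k : ℂ) : ℕ → ℂ) : Germ (U : Filter ℕ) ℂ) *
          (gder U d (φ (θ k)) / φ (θ k)) = ((fun T => (s T k : ℂ) *
            (d (aeval (β T) (A k) / aeval (β T) b) / (aeval (β T) (A k) / aeval (β T) b)) : ℕ → ℂ) :
              Germ (U : Filter ℕ) ℂ) := by
        intro k
        rw [hz, gder_coe]
        rfl
      rw [Finset.sum_congr rfl fun k _ => h1 k]
      have h2 : ∑ k, ((fun T => (s T k : ℂ) *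
            (d (aeval (β T) (A k) / aeval (β T) b) / (aeval (β T) (A k) / aeval (β T) b)) : ℕ → ℂ) :
              Germ (U : Filter ℕ) ℂ) = ((fun T => ∑ k, (s T k : ℂ) *
            (d (aeval (β T) (A k) / aeval (β T) b) / (aeval (β T) (A k) / aeval (β T) b)) : ℕ → ℂ) :
              Germ (U : Filter ℕ) ℂ) := by
        have e1 := map_sum (Germ.coeRingHom (R := ℂ) (U : Filter ℕ)) (fun k : Fin n =>
          (fun T => (s T k : ℂ) * (d (aeval (β T) (A k) / aeval (β T) b) /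
            (aeval (β T) (A k) / aeval (β T) b)) : ℕ → ℂ)) Finset.univ
        have e2 : (∑ k : Fin n, (fun T => (s T k : ℂ) * (d (aeval (β T) (A k) / aeval (β T) b) /
            (aeval (β T) (A k) / aeval (β T) b)) : ℕ → ℂ)) = (fun T => ∑ k, (s T k : ℂ) *
            (d (aeval (β T) (A k) / aeval (β T) b) / (aeval (β T) (A k) / aeval (β T) b)) : ℕ → ℂ) := by
          funext T
          rw [Finset.sum_apply]
        rw [e2] at e1
        exact e1.symm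
      rw [h2]
      have h0 : (0 : Germ (U : Filter ℕ) ℂ) = ((fun _ => 0 : ℕ → ℂ) : Germ (U : Filter ℕ) ℂ) := rfl
      rw [h0, Germ.coe_eq]
      filter_upwards [hβev, hev, lift (ev_Sz b), lift (eventually_all.2 fun i => ev_Sz (A i)),
        lift (eventually_all.2 fun i => ev_norm (x i)), lift (ev_norm y),
        lift (eventually_ge_atTop n), hker2 b hb, eventually_all.2 fun i => hker2 (A i) (hA0 i)]
        with T h1 h2 h3 h4 h5 h6 h7 h8 h9
      obtain ⟨κ, hκ1, hκ2, hsp, _⟩ := h1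
      have hPT : P T := by
        have := h2.2.2
        rw [hG] at this
        exact this.2
      obtain ⟨hs1, hs2, hs3⟩ := hs T hPT
      refine der_rel d h9 h8 ?_
      exact exact_rel (κ := KK R + 3) h2.1 h7 hsp hκ1 (by omega) h2.2.1 h5 h6 h3 h4
        (fun i => by rw [← hθ]; exact hA i) hs2 hs3

end Pool.Agent.Zk25.LT
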